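import Mathlib

set_option autoImplicit false

namespace Pool.Agent.H66.KN

open Set Topology

/-- Separation of closed sets in compact Hausdorff spaces (cut-wire lemma): if no component of the closed
set `S` which meets `P` meets `Q`, then `S` splits into two disjoint closed sets, one containing
`S ∩ P`, the other `S ∩ Q`. -/
theorem cutwire {X : Type*} [TopologicalSpace X] [CompactSpace X] [T2Space X] {S P Q : Set X}
    (hS : IsClosed S) (hP : IsClosed P) (hQ : IsClosed Q)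
    (h : ∀ x ∈ S ∩ P, Disjoint (connectedComponentIn S x) Q) :
    ∃ A B : Set X, IsClosed A ∧ IsClosed B ∧ A ∪ B = S ∧ Disjoint A B ∧ S ∩ P ⊆ A ∧ S ∩ Q ⊆ B := by
  classical
  have : CompactSpace S := isCompact_iff_compactSpace.mp hS.isCompact
  let P' : Set S := Subtype.val ⁻¹' P
  let Q' : Set S := Subtype.val ⁻¹' Q
  have hP' : IsClosed P' := hP.preimage continuous_subtype_val
  have hQ' : IsClosed Q' := hQ.preimage continuous_subtype_val
  -- for each point of P' a clopen set missing Q'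
  have key : ∀ x : S, x ∈ P' → ∃ Z : Set S, IsClopen Z ∧ x ∈ Z ∧ Disjoint Z Q' := by
    intro x hx
    have hd : Disjoint (connectedComponent x) Q' := by
      have := h x.1 ⟨x.2, hx⟩
      rw [connectedComponentIn_eq_image x.2] at this
      rw [Set.disjoint_left] at this ⊢
      intro y hy hyQ
      exact this ⟨y, hy, rfl⟩ hyQ
    rw [connectedComponent_eq_iInter_isClopen] at hd
    have hdir : Directed (· ⊇ ·) (fun s : { s : Set S // IsClopen s ∧ x ∈ s } => (s : Set S)) := by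
      intro s t
      refine ⟨⟨s.1 ∩ t.1, s.2.1.inter t.2.1, s.2.2, t.2.2⟩, inter_subset_left, inter_subset_right⟩
    have : Nonempty { s : Set S // IsClopen s ∧ x ∈ s } := ⟨⟨univ, isClopen_univ, mem_univ x⟩⟩
    obtain ⟨s, hs⟩ := hQ'.isCompact.elim_directed_family_closed
      (fun s : { s : Set S // IsClopen s ∧ x ∈ s } => (s : Set S))
      (fun s => s.2.1.isClosed) (by
        rw [Set.inter_comm]; exact Set.disjoint_iff_inter_eq_empty.mp hd) hdir
    exact ⟨s.1, s.2.1, s.2.2, by rw [Set.disjoint_iff_inter_eq_empty, Set.inter_comm]; exact hs⟩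
  choose! Z hZ1 hZ2 hZ3 using key
  obtain ⟨t, ht1⟩ := hP'.isCompact.elim_nhds_subcover' (fun x _ => Z x)
    (fun x hx => (hZ1 x hx).isOpen.mem_nhds (hZ2 x hx))
  let W : Set S := ⋃ x ∈ t, Z x.1
  have hW : IsClopen W := Set.Finite.isClopen_biUnion t.finite_toSet (fun x _ => hZ1 x.1 x.2)
  have hPW : P' ⊆ W := by
    intro y hy
    have := ht1 hy
    simpa [W] using this
  have hWQ : Disjoint W Q' := by
    rw [Set.disjoint_left]
    intro y hy hyQ
    simp only [W, mem_iUnion] at hy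
    obtain ⟨x, _, hyx⟩ := hy
    exact Set.disjoint_left.mp (hZ3 x.1 x.2) hyx hyQ
  refine ⟨Subtype.val '' W, Subtype.val '' Wᶜ, hS.isClosedEmbedding_subtypeVal.isClosedMap _ hW.isClosed,
    hS.isClosedEmbedding_subtypeVal.isClosedMap _ hW.compl.isClosed, ?_, ?_, ?_, ?_⟩
  · rw [← Set.image_union, Set.union_compl_self, Set.image_univ, Subtype.range_coe]
  · exact (Set.disjoint_image_iff Subtype.val_injective).mpr disjoint_compl_right
  · rintro x ⟨hxS, hxP⟩
    exact ⟨⟨x, hxS⟩, hPW hxP, rfl⟩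
  · rintro x ⟨hxS, hxQ⟩
    refine ⟨⟨x, hxS⟩, ?_, rfl⟩
    intro hxW
    exact Set.disjoint_left.mp hWQ hxW hxQ

theorem isClosed_compIn {X : Type*} [TopologicalSpace X] {M : Set X} (hM : IsClosed M) (x : X) :
    IsClosed (connectedComponentIn M x) := by
  by_cases hx : x ∈ M
  · apply isClosed_of_closure_subset
    exact isPreconnected_connectedComponentIn.closure.subset_connectedComponentIn
      (subset_closure (mem_connectedComponentIn hx))
      (closure_minimal (connectedComponentIn_subset _ _) hM)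
  · rw [connectedComponentIn_eq_empty hx]; exact isClosed_empty

/-- The data of Knaster's question without the condition on the fibres: a monotone open map of a
compact metric continuum, irreducible between two points, onto the unit interval. -/
structure KMap (X : Type*) [MetricSpace X] (f : X → unitInterval) : Prop where
  cont : Continuous f
  isOpen : IsOpenMap f
  surj : Function.Surjective f
  fib : ∀ t, IsConnected (f ⁻¹' {t})
  irr : ∃ a b : X, ∀ C : Set X, IsClosed C → IsConnected C → a ∈ C → b ∈ C → C = Set.univ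

variable {X : Type*} [MetricSpace X] [CompactSpace X] {f : X → unitInterval}

omit [CompactSpace X] in
theorem KMap.coind (h : KMap X f) : IsCoinducing f :=
  (h.isOpen.isQuotientMap h.cont h.surj).isCoinducing

omit [CompactSpace X] in
theorem KMap.preim (h : KMap X f) {t : Set unitInterval} (h1 : IsClosed t) (h2 : IsConnected t) :
    IsConnected (f ⁻¹' t) :=
  h.coind.isConnected_preimage_of_isClosed h.fib h1 h2

omit [CompactSpace X] in
/-- A continuum which meets two fibres contains everything between. -/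
theorem KMap.cross (h : KMap X f) {α β : unitInterval} {C : Set X}
    (hC : IsClosed C) (hc : IsConnected C) (h1 : (C ∩ f ⁻¹' {α}).Nonempty)
    (h2 : (C ∩ f ⁻¹' {β}).Nonempty) : f ⁻¹' (Ioo α β) ⊆ C := by
  obtain ⟨a, b, hirr⟩ := h.irr
  -- the end points lie over 0 and 1
  have hends : ∀ t : unitInterval, t ∈ Icc (min (f a) (f b)) (max (f a) (f b)) := by
    have hcl : IsClosed (Icc (min (f a) (f b)) (max (f a) (f b))) := isClosed_Icc
    have hcn : IsConnected (Icc (min (f a) (f b)) (max (f a) (f b))) :=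
      isConnected_Icc (min_le_max)
    have := hirr _ (hcl.preimage h.cont) (h.preim hcl hcn)
      ⟨min_le_left _ _, le_max_left _ _⟩ ⟨min_le_right _ _, le_max_right _ _⟩
    intro t
    obtain ⟨x, rfl⟩ := h.surj t
    have hx : x ∈ f ⁻¹' (Icc (min (f a) (f b)) (max (f a) (f b))) := by rw [this]; trivial
    exact hx
  have hmin : min (f a) (f b) = 0 := le_antisymm (hends 0).1 bot_le
  have hmax : max (f a) (f b) = 1 := le_antisymm le_top (hends 1).2
  set D : Set X := (f ⁻¹' (Icc 0 α) ∪ C) ∪ f ⁻¹' (Icc β 1) with hD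
  have hDcl : IsClosed D :=
    ((isClosed_Icc.preimage h.cont).union hC).union (isClosed_Icc.preimage h.cont)
  have hL : IsConnected (f ⁻¹' (Icc 0 α)) := h.preim isClosed_Icc (isConnected_Icc bot_le)
  have hR : IsConnected (f ⁻¹' (Icc β 1)) := h.preim isClosed_Icc (isConnected_Icc le_top)
  have hLC : IsConnected (f ⁻¹' (Icc 0 α) ∪ C) := by
    refine IsConnected.union ?_ hL hc
    obtain ⟨x, hxC, hx⟩ := h1
    have hx' : f x = α := hx
    exact ⟨x, ⟨by change f x ∈ Icc 0 α; rw [hx']; exact ⟨bot_le, le_rfl⟩, hxC⟩⟩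
  have hDc : IsConnected D := by
    refine IsConnected.union ?_ hLC hR
    obtain ⟨x, hxC, hx⟩ := h2
    have hx' : f x = β := hx
    exact ⟨x, ⟨Or.inr hxC, by change f x ∈ Icc β 1; rw [hx']; exact ⟨le_rfl, le_top⟩⟩⟩
  have h01 : ∀ x, (f x = 0 ∨ f x = 1) → x ∈ D := by
    rintro x (hx | hx)
    · exact Or.inl (Or.inl (by change f x ∈ Icc 0 α; rw [hx]; exact ⟨le_rfl, bot_le⟩))
    · exact Or.inr (by change f x ∈ Icc β 1; rw [hx]; exact ⟨le_top, le_rfl⟩)
  have hfa : f a = 0 ∨ f a = 1 := by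
    rcases le_total (f a) (f b) with hle | hle
    · left; rw [min_eq_left hle] at hmin; exact hmin
    · right; rw [max_eq_left hle] at hmax; exact hmax
  have hfb : f b = 0 ∨ f b = 1 := by
    rcases le_total (f a) (f b) with hle | hle
    · right; rw [max_eq_right hle] at hmax; exact hmax
    · left; rw [min_eq_right hle] at hmin; exact hmin
  have huniv := hirr D hDcl hDc (h01 a hfa) (h01 b hfb)
  rintro x ⟨hx1, hx2⟩
  have : x ∈ D := by rw [huniv]; trivial
  rcases this with (hx | hx) | hx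
  · exact absurd hx.2 (not_le.mpr hx1)
  · exact hx
  · exact absurd hx.1 (not_le.mpr hx2)

/-- `T(F, U, G)`: the set of parameters `t` such that every point of the fibre over `t` in `U` lies in
a component of the part of the fibre in `G` which meets `F`. -/
def TSet (f : X → unitInterval) (F U G : Set X) : Set unitInterval :=
  { t | ∀ x ∈ f ⁻¹' {t} ∩ U, (connectedComponentIn (f ⁻¹' {t} ∩ G) x ∩ F).Nonempty }

/-- uniform continuity from above of the fibres -/
theorem eventually_fib_subset (hf : Continuous f) {t : unitInterval} {S V : Set X}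
    (hS : IsClosed S) (hV : IsOpen V) (h : f ⁻¹' {t} ∩ S ⊆ V) :
    ∀ᶠ s in 𝓝 t, f ⁻¹' {s} ∩ S ⊆ V := by
  have hcl : IsClosedMap f := hf.isClosedMap
  have h1 : IsClosed (f '' (S ∩ Vᶜ)) := hcl _ (hS.inter hV.isClosed_compl)
  have h2 : t ∉ f '' (S ∩ Vᶜ) := by
    rintro ⟨x, ⟨hxS, hxV⟩, hx⟩
    exact hxV (h ⟨hx, hxS⟩)
  filter_upwards [h1.isOpen_compl.mem_nhds h2] with s hs
  rintro x ⟨hx, hxS⟩
  by_contra hxV
  exact hs ⟨x, ⟨hxS, hxV⟩, hx⟩

theorem TSet_isClosed (h : KMap X f) {F U G : Set X} (hF : IsClosed F) (hU : IsOpen U)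
    (hG : IsClosed G) (hUG : U ⊆ G) : IsClosed (TSet f F U G) := by
  rw [← isOpen_compl_iff, isOpen_iff_mem_nhds]
  intro t ht
  simp only [TSet, mem_compl_iff, mem_ofPred_eq, not_forall, not_nonempty_iff_eq_empty] at ht
  obtain ⟨x, hx, hxe⟩ := ht
  have hK : IsClosed (f ⁻¹' {t}) := isClosed_singleton.preimage h.cont
  have hxG : x ∈ f ⁻¹' {t} ∩ G := ⟨hx.1, hUG hx.2⟩
  obtain ⟨A, B, hA, hB, hAB, hd, hxA, hFB⟩ := cutwire (S := f ⁻¹' {t} ∩ G) (P := {x}) (Q := F)
    (hK.inter hG) isClosed_singleton hF (by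
      rintro y ⟨_, rfl⟩
      exact Set.disjoint_iff_inter_eq_empty.mpr hxe)
  have hxA' : x ∈ A := hxA ⟨hxG, rfl⟩
  obtain ⟨VA, VB, hVA, hVB, hAVA, hBVB, hVd⟩ := normal_separation hA hB hd
  have e1 : ∀ᶠ s in 𝓝 t, f ⁻¹' {s} ∩ G ⊆ VA ∪ VB :=
    eventually_fib_subset h.cont hG (hVA.union hVB) (by
      rw [← hAB]; exact union_subset_union hAVA hBVB)
  have e2 : ∀ᶠ s in 𝓝 t, f ⁻¹' {s} ∩ (G ∩ F) ⊆ VB :=
    eventually_fib_subset h.cont (hG.inter hF) hVB (by
      rintro y ⟨hy1, hy2, hy3⟩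
      exact hBVB (hFB ⟨⟨hy1, hy2⟩, hy3⟩))
  have e3 : ∀ᶠ s in 𝓝 t, s ∈ f '' (VA ∩ U) := by
    have : f '' (VA ∩ U) ∈ 𝓝 (f x) := (h.isOpen _ (hVA.inter hU)).mem_nhds
      ⟨x, ⟨hAVA hxA', hx.2⟩, rfl⟩
    have hfx : f x = t := hx.1
    rw [hfx] at this
    exact this
  filter_upwards [e1, e2, e3] with s h1 h2 h3
  simp only [TSet, mem_compl_iff, mem_ofPred_eq, not_forall, not_nonempty_iff_eq_empty]
  obtain ⟨y, ⟨hyA, hyU⟩, hys⟩ := h3
  refine ⟨y, ⟨hys, hyU⟩, ?_⟩
  rw [Set.eq_empty_iff_forall_notMem]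
  rintro z ⟨hz, hzF⟩
  have hyG : y ∈ f ⁻¹' {s} ∩ G := ⟨hys, hUG hyU⟩
  have hsub : connectedComponentIn (f ⁻¹' {s} ∩ G) y ⊆ f ⁻¹' {s} ∩ G := connectedComponentIn_subset _ _
  have hin : connectedComponentIn (f ⁻¹' {s} ∩ G) y ⊆ VA :=
    isPreconnected_connectedComponentIn.subset_left_of_subset_union hVA hVB hVd (hsub.trans h1)
      ⟨y, mem_connectedComponentIn hyG, hyA⟩
  have hzG := hsub hz
  exact Set.disjoint_left.mp hVd (hin hz) (h2 ⟨hzG.1, hzG.2, hzF⟩)

/-- The clopen argument. -/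
theorem no_interval (h : KMap X f) {F U W : Set X} (hF : IsClosed F) (hU : IsOpen U)
    (hW : IsOpen W) (hFU : F ⊆ U) (hUW : Disjoint U W) {α β : unitInterval} (hab : α < β)
    (hT : Icc α β ⊆ TSet f F U Wᶜ) (hne : (f ⁻¹' {α} ∩ U).Nonempty)
    (hWne : (f ⁻¹' (Ioo α β) ∩ W).Nonempty) : False := by
  have hUWc : U ⊆ Wᶜ := hUW.subset_compl_right
  set M : Set X := f ⁻¹' (Icc α β) ∩ Wᶜ with hM
  have hMcl : IsClosed M := (isClosed_Icc.preimage h.cont).inter hW.isClosed_compl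
  obtain ⟨A, B, hA, hB, hAB, hd, hPA, hQB⟩ := cutwire (S := M) (P := f ⁻¹' {α}) (Q := f ⁻¹' {β})
    hMcl (isClosed_singleton.preimage h.cont) (isClosed_singleton.preimage h.cont) (by
      rintro x ⟨hxM, hxα⟩
      rw [Set.disjoint_left]
      intro y hy hyβ
      have hsub := h.cross (C := connectedComponentIn M x) (isClosed_compIn hMcl x)
        (isConnected_connectedComponentIn_iff.mpr hxM) ⟨x, mem_connectedComponentIn hxM, hxα⟩
        ⟨y, hy, hyβ⟩
      obtain ⟨z, hz1, hz2⟩ := hWne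
      exact ((connectedComponentIn_subset M x) (hsub hz1)).2 hz2)
  have hBM : B ⊆ M := by rw [← hAB]; exact subset_union_right
  have hAM : A ⊆ M := by rw [← hAB]; exact subset_union_left
  -- the two descriptions of the image
  have hE : f '' (A ∩ U) = f '' (A ∩ F) := by
    apply Set.Subset.antisymm
    · rintro _ ⟨x, ⟨hxA, hxU⟩, rfl⟩
      have hxM := hAM hxA
      obtain ⟨z, hz, hzF⟩ := hT (show f x ∈ Icc α β from hxM.1) x ⟨rfl, hxU⟩
      have hxG : x ∈ f ⁻¹' {f x} ∩ Wᶜ := ⟨rfl, hxM.2⟩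
      have hsub : connectedComponentIn (f ⁻¹' {f x} ∩ Wᶜ) x ⊆ M := by
        intro y hy
        have := connectedComponentIn_subset _ _ hy
        refine ⟨?_, this.2⟩
        have hy1 : f y = f x := this.1
        change f y ∈ Icc α β
        rw [hy1]; exact hxM.1
      have hinA : connectedComponentIn (f ⁻¹' {f x} ∩ Wᶜ) x ⊆ A := by
        rcases isPreconnected_iff_subset_of_disjoint_closed.mp
          (isPreconnected_connectedComponentIn (F := f ⁻¹' {f x} ∩ Wᶜ) (x := x)) A B hA hB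
          (by rw [hAB]; exact hsub) (by rw [Set.disjoint_iff_inter_eq_empty.mp hd]; simp) with h1 | h1
        · exact h1
        · exact absurd (h1 (mem_connectedComponentIn hxG)) (Set.disjoint_left.mp hd hxA)
      refine ⟨z, ⟨hinA hz, hzF⟩, ?_⟩
      exact (connectedComponentIn_subset _ _ hz).1
    · exact Set.image_mono (Set.inter_subset_inter_right _ hFU)
  have hclE : IsClosed (f '' (A ∩ U)) := by
    rw [hE]; exact h.cont.isClosedMap _ (hA.inter hF)
  have hopE : f '' (A ∩ U) = f '' (U ∩ Bᶜ) ∩ Icc α β := by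
    apply Set.Subset.antisymm
    · rintro _ ⟨x, ⟨hxA, hxU⟩, rfl⟩
      exact ⟨⟨x, ⟨hxU, fun hxB => Set.disjoint_left.mp hd hxA hxB⟩, rfl⟩, (hAM hxA).1⟩
    · rintro _ ⟨⟨x, ⟨hxU, hxB⟩, rfl⟩, hx⟩
      have hxM : x ∈ M := ⟨hx, hUWc hxU⟩
      rw [← hAB] at hxM
      exact ⟨x, ⟨hxM.resolve_right hxB, hxU⟩, rfl⟩
  have hV : IsOpen (f '' (U ∩ Bᶜ)) := h.isOpen _ (hU.inter hB.isOpen_compl)
  -- Icc α β is connected
  have hsub : Icc α β ⊆ f '' (A ∩ U) := by
    have hpc : IsPreconnected (Icc α β) := isPreconnected_Icc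
    by_contra hcon
    rw [Set.not_subset] at hcon
    obtain ⟨t, ht, htE⟩ := hcon
    obtain ⟨x, hx1, hx2⟩ := hne
    have hxα : f x = α := hx1
    have hαE : α ∈ f '' (U ∩ Bᶜ) ∩ Icc α β := by
      rw [← hopE]
      have hxM : x ∈ M := ⟨by change f x ∈ Icc α β; rw [hxα]; exact ⟨le_rfl, hab.le⟩, hUWc hx2⟩
      exact ⟨x, ⟨hPA ⟨hxM, hx1⟩, hx2⟩, hxα⟩
    obtain ⟨s, hs, hs1, hs2⟩ := hpc (f '' (U ∩ Bᶜ)) (f '' (A ∩ U))ᶜ hV hclE.isOpen_compl (by
      intro r hr
      by_cases hr' : r ∈ f '' (A ∩ U)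
      · rw [hopE] at hr'; exact Or.inl hr'.1
      · exact Or.inr hr') ⟨α, ⟨le_rfl, hab.le⟩, hαE.1⟩ ⟨t, ht, htE⟩
    apply hs2
    rw [hopE]
    exact ⟨hs1, hs⟩
  obtain ⟨x, ⟨hxA, _⟩, hxβ⟩ := hsub (right_mem_Icc.mpr hab.le)
  have hxB : x ∈ B := hQB ⟨hAM hxA, hxβ⟩
  exact Set.disjoint_left.mp hd hxA hxB

end Pool.Agent.H66.KN
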