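import Pool.Agent.H66.KN.Rank3

set_option autoImplicit false

namespace Pool.Agent.H66.KN

open Set Topology TopologicalSpace

/-- The inverse limit of a sequence of spaces. -/
def InvLim (E : ℕ → Type) (p : ∀ n, E (n + 1) → E n) : Set (∀ n, E n) :=
  {x | ∀ n, x n = p n (x (n + 1))}

section iness

variable {K : Type*} [TopologicalSpace K]

theorem Inessential.one : Inessential (1 : C(K, Circle)) := ⟨0, fun x => by simp⟩

theorem Inessential.mul {g h : C(K, Circle)} (hg : Inessential g) (hh : Inessential h) :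
    Inessential (g * h) := by
  obtain ⟨φ, hφ⟩ := hg
  obtain ⟨ψ, hψ⟩ := hh
  refine ⟨φ + ψ, fun x => ?_⟩
  rw [ContinuousMap.mul_apply, hφ x, hψ x, ContinuousMap.add_apply, Circle.exp_add]

theorem circle_exp_zpow (y : ℝ) (j : ℤ) : Circle.exp y ^ j = Circle.exp (j * y) := by
  apply Subtype.ext
  rw [Circle.coe_zpow, Circle.coe_exp, Circle.coe_exp, ← Complex.exp_int_mul]
  push_cast
  ring_nf

theorem Inessential.zpow {g : C(K, Circle)} (hg : Inessential g) (k : ℤ) : Inessential (g ^ k) := by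
  obtain ⟨φ, hφ⟩ := hg
  refine ⟨⟨fun x => (k : ℝ) * φ x, continuous_const.mul φ.continuous⟩, fun x => ?_⟩
  rw [ContinuousMap.zpow_apply, hφ x, circle_exp_zpow]
  rfl

theorem Inessential.prod {n : ℕ} {g : Fin n → C(K, Circle)} (hg : ∀ i, Inessential (g i)) :
    Inessential (∏ i, g i) := by
  classical
  refine Finset.prod_induction g Inessential (fun a b => Inessential.mul) Inessential.one ?_
  intro i _
  exact hg i

theorem Inessential.comp {L : Type*} [TopologicalSpace L] {g : C(L, Circle)} (hg : Inessential g)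
    (p : C(K, L)) : Inessential (g.comp p) := by
  obtain ⟨φ, hφ⟩ := hg
  exact ⟨φ.comp p, fun x => hφ (p x)⟩

/-- Two maps to the circle whose quotient stays in the slit plane differ by an inessential map. -/
theorem inessential_of_slit {g : C(K, Circle)} (h : ∀ x, ((g x : Circle) : ℂ) ∈ Complex.slitPlane) :
    Inessential g := by
  refine ⟨⟨fun x => Complex.arg ((g x : Circle) : ℂ), ?_⟩, fun x => ?_⟩
  · rw [continuous_iff_continuousAt]
    intro x
    exact ContinuousAt.comp (f := fun x => ((g x : Circle) : ℂ)) (Complex.continuousAt_arg (h x))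
      (continuous_subtype_val.comp g.continuous).continuousAt
  · exact (Circle.exp_arg (g x)).symm

end iness

/-- Every map of the circle to itself is a power times an inessential map. -/
theorem degree (φ : C(Circle, Circle)) :
    ∃ (d : ℤ) (ψ : C(Circle, ℝ)), ∀ z : Circle, φ z = z ^ d * Circle.exp (ψ z) := by
  obtain ⟨L, ⟨-, hL⟩, -⟩ := Circle.isCoveringMap_exp.existsUnique_continuousMap_lifts
    (⟨fun t : ℝ => φ (Circle.exp t), φ.continuous.comp Circle.exp.continuous⟩ : C(ℝ, Circle))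
    (a₀ := (0 : ℝ)) (e₀ := Complex.arg (φ (Circle.exp 0) : ℂ)) (Circle.exp_arg _)
  have hL' : ∀ t, Circle.exp (L t) = φ (Circle.exp t) := fun t => congrFun hL t
  have hper : ∀ t, ∃ m : ℤ, L (t + 2 * Real.pi) = L t + m * (2 * Real.pi) := by
    intro t
    have h1 : Circle.exp (L (t + 2 * Real.pi)) = Circle.exp (L t) := by
      rw [hL', hL', Circle.exp_add, Circle.exp_two_pi, mul_one]
    obtain ⟨m, hm⟩ := Circle.exp_eq_exp.mp h1
    exact ⟨m, hm⟩
  have hpi : (2 * Real.pi) ≠ 0 := by positivity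
  -- the difference is constant
  let D : ℝ → ℝ := fun t => (L (t + 2 * Real.pi) - L t) / (2 * Real.pi)
  have hD : Continuous D :=
    ((L.continuous.comp (continuous_id.add continuous_const)).sub L.continuous).div_const _
  have hDZ : ∀ t, ∃ m : ℤ, D t = m := by
    intro t
    obtain ⟨m, hm⟩ := hper t
    refine ⟨m, ?_⟩
    simp only [D]
    rw [hm]
    field_simp
    ring
  have hDc : ∀ t, D t = D 0 := by
    intro t
    have hpre : IsPreconnected (range D) := isPreconnected_range hD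
    by_contra hne
    have hcount : (range D).Countable := by
      refine (countable_range (fun m : ℤ => (m : ℝ))).mono ?_
      rintro _ ⟨s, rfl⟩
      obtain ⟨m, hm⟩ := hDZ s
      exact ⟨m, hm.symm⟩
    have h2 : (uIcc (D t) (D 0)) ⊆ range D :=
      hpre.ordConnected.uIcc_subset ⟨t, rfl⟩ ⟨0, rfl⟩
    have h3 : (Ioo (min (D t) (D 0)) (max (D t) (D 0))).Countable :=
      (hcount.mono h2).mono Ioo_subset_Icc_self
    exact (Cardinal.Real.Ioo_countable_iff.mp h3).not_gt (by
      rw [min_lt_max]; exact hne)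
  obtain ⟨d, hd⟩ := hDZ 0
  have hLd : ∀ t, L (t + 2 * Real.pi) = L t + d * (2 * Real.pi) := by
    intro t
    have h1 := hDc t
    rw [hd] at h1
    simp only [D] at h1
    rw [div_eq_iff hpi] at h1
    linarith
  have hLk : ∀ (k : ℤ) (t : ℝ), L (t + k * (2 * Real.pi)) = L t + d * (k * (2 * Real.pi)) := by
    intro k
    induction k with
    | zero => intro t; simp
    | succ k ih =>
      intro t
      have e : t + ((k : ℤ) + 1 : ℤ) * (2 * Real.pi) = (t + (k : ℤ) * (2 * Real.pi)) + 2 * Real.pi := by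
        push_cast; ring
      rw [e, hLd, ih]
      push_cast; ring
    | pred k ih =>
      intro t
      have h1 := hLd (t + (-(k : ℤ) - 1 : ℤ) * (2 * Real.pi))
      have e : t + (-(k : ℤ) - 1 : ℤ) * (2 * Real.pi) + 2 * Real.pi = t + (-(k : ℤ) : ℤ) * (2 * Real.pi) := by
        push_cast; ring
      rw [e, ih] at h1
      push_cast at h1 ⊢
      linarith
  let M : ℝ → ℝ := fun t => L t - d * t
  have hM : Continuous M := L.continuous.sub (continuous_const.mul continuous_id)
  have hMp : ∀ s t : ℝ, Circle.exp s = Circle.exp t → M s = M t := by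
    intro s t h
    obtain ⟨m, hm⟩ := Circle.exp_eq_exp.mp h
    simp only [M]
    rw [hm, hLk]
    ring
  let ψ : Circle → ℝ := fun z => M (Complex.arg (z : ℂ))
  have hψ : ∀ t, ψ (Circle.exp t) = M t := fun t => hMp _ _ (Circle.exp_arg _)
  have hq : IsQuotientMap Circle.exp := by
    refine Circle.isCoveringMap_exp.isQuotientMap ?_
    intro z
    exact ⟨_, Circle.exp_arg z⟩
  have hψc : Continuous ψ := by
    rw [hq.continuous_iff]
    have : ψ ∘ Circle.exp = M := funext hψ
    rw [this]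
    exact hM
  refine ⟨d, ⟨ψ, hψc⟩, fun z => ?_⟩
  obtain ⟨t, rfl⟩ : ∃ t, Circle.exp t = z := ⟨_, Circle.exp_arg z⟩
  change φ (Circle.exp t) = Circle.exp t ^ d * Circle.exp (ψ (Circle.exp t))
  rw [hψ, circle_exp_zpow, ← Circle.exp_add, ← hL']
  congr 1
  simp only [M]
  ring

theorem not_hasIndep_circle {N : ℕ} (hN : N = 0 ∨ N.Prime) : ¬ HasIndep Circle N 2 := by
  rintro ⟨g, hg⟩
  obtain ⟨d0, ψ0, h0⟩ := degree (g 0)
  obtain ⟨d1, ψ1, h1⟩ := degree (g 1)
  by_cases hd : (N : ℤ) ∣ d0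
  · obtain ⟨k, hk⟩ := hd
    have := hg (fun i => if i = 0 then 1 else 0) ((ContinuousMap.id Circle : C(Circle, Circle)) ^ (-k)) ?_ 0
    · simp only [if_true] at this
      exact not_dvd_one hN this
    · refine ⟨ψ0, fun z => ?_⟩
      rw [ContinuousMap.mul_apply, ContinuousMap.pow_apply, ContinuousMap.prod_apply, Fin.prod_univ_two,
        ContinuousMap.zpow_apply, ContinuousMap.zpow_apply, ContinuousMap.zpow_apply]
      simp only [if_true, zpow_one, ContinuousMap.id_apply]
      have e1 : (z ^ (-k)) ^ N = z ^ (-((N : ℤ) * k)) := by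
        rw [← zpow_natCast, ← zpow_mul]; congr 1; ring
      rw [e1, h0, ← hk]
      simp [mul_comm]
  · have := hg (fun i => if i = 0 then d1 else -d0) 1 ?_ 1
    · simp only [one_ne_zero, if_false] at this
      exact hd (by simpa using this)
    · refine ⟨⟨fun z => (d1 : ℝ) * ψ0 z - (d0 : ℝ) * ψ1 z,
        (continuous_const.mul ψ0.continuous).sub (continuous_const.mul ψ1.continuous)⟩, fun z => ?_⟩
      rw [ContinuousMap.mul_apply, ContinuousMap.prod_apply, Fin.prod_univ_two,
        ContinuousMap.zpow_apply, ContinuousMap.zpow_apply]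
      simp only [if_true, one_ne_zero, if_false, one_pow, ContinuousMap.one_apply, mul_one,
        ContinuousMap.coe_mk]
      rw [h0, h1, mul_zpow, mul_zpow, ← zpow_mul, ← zpow_mul, circle_exp_zpow, circle_exp_zpow,
        sub_eq_add_neg, Circle.exp_add]
      have e1 : z ^ (d1 * -d0) = (z ^ (d0 * d1))⁻¹ := by
        rw [← zpow_neg]; congr 1; ring
      have e2 : (((-d0 : ℤ) : ℝ) * ψ1 z) = -((d0 : ℝ) * ψ1 z) := by push_cast; ring
      rw [e1, e2]
      generalize z ^ (d0 * d1) = w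
      generalize Circle.exp ((d1 : ℝ) * ψ0 z) = a
      generalize Circle.exp (-((d0 : ℝ) * ψ1 z)) = b
      calc w * a * (w⁻¹ * b) = (w * w⁻¹) * (a * b) := by
            rw [mul_mul_mul_comm]
        _ = a * b := by rw [mul_inv_cancel, one_mul]

theorem hasIndep_mono {K : Type*} [TopologicalSpace K] {N n : ℕ} (h : HasIndep K N (n + 1)) :
    HasIndep K N n := by
  obtain ⟨g, hg⟩ := h
  refine ⟨fun i => g i.succ, fun m q hi i => ?_⟩
  have := hg (Fin.cons 0 m) q ?_ i.succ
  · simpa using this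
  · rw [Fin.prod_univ_succ]
    simpa using hi

section lim

variable {E : ℕ → Type} [∀ n, TopologicalSpace (E n)] [∀ n, CompactSpace (E n)] [∀ n, T2Space (E n)]
  {p : ∀ n, E (n + 1) → E n}

theorem compact_lim (hp : ∀ n, Continuous (p n)) : CompactSpace ↥(InvLim E p) := by
  rw [← isCompact_iff_compactSpace]
  refine IsClosed.isCompact ?_
  have : InvLim E p = ⋂ n, {x | x n = p n (x (n + 1))} := by ext x; simp [InvLim]
  rw [this]
  exact isClosed_iInter fun n => isClosed_eq (continuous_apply n) ((hp n).comp (continuous_apply (n + 1)))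

/-- the projection to the level `n` -/
def proj (E : ℕ → Type) [∀ n, TopologicalSpace (E n)] (p : ∀ n, E (n + 1) → E n) (n : ℕ) :
    C(↥(InvLim E p), E n) := ⟨fun x => x.1 n, (continuous_apply n).comp continuous_subtype_val⟩

omit [∀ n, CompactSpace (E n)] [∀ n, T2Space (E n)] in
theorem lev (hp : ∀ n, Continuous (p n)) {n m : ℕ} (h : n ≤ m) (ψ : C(E n, ℂ)) :
    ∃ ψ' : C(E m, ℂ), ψ.comp (proj E p n) = ψ'.comp (proj E p m) := by
  induction m, h using Nat.le_induction with
  | base => exact ⟨ψ, rfl⟩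
  | succ m _ ih =>
    obtain ⟨ψ', h'⟩ := ih
    refine ⟨ψ'.comp ⟨p m, hp m⟩, ?_⟩
    rw [h']
    ext x
    change ψ' (x.1 m) = ψ' (p m (x.1 (m + 1)))
    rw [x.2 m]

/-- the functions which factor through a finite level -/
def levAlg (hp : ∀ n, Continuous (p n)) : StarSubalgebra ℂ C(↥(InvLim E p), ℂ) where
  carrier := {F | ∃ n, ∃ ψ : C(E n, ℂ), F = ψ.comp (proj E p n)}
  mul_mem' := by
    rintro _ _ ⟨n, ψ, rfl⟩ ⟨m, φ, rfl⟩
    obtain ⟨ψ', h1⟩ := lev hp (le_max_left n m) ψ
    obtain ⟨φ', h2⟩ := lev hp (le_max_right n m) φ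
    exact ⟨max n m, ψ' * φ', by rw [h1, h2]; rfl⟩
  add_mem' := by
    rintro _ _ ⟨n, ψ, rfl⟩ ⟨m, φ, rfl⟩
    obtain ⟨ψ', h1⟩ := lev hp (le_max_left n m) ψ
    obtain ⟨φ', h2⟩ := lev hp (le_max_right n m) φ
    exact ⟨max n m, ψ' + φ', by rw [h1, h2]; rfl⟩
  algebraMap_mem' := fun c => ⟨0, algebraMap ℂ C(E 0, ℂ) c, rfl⟩
  star_mem' := by
    rintro _ ⟨n, ψ, rfl⟩
    exact ⟨n, star ψ, rfl⟩

theorem lev_dense (hp : ∀ n, Continuous (p n)) (g : C(↥(InvLim E p), ℂ)) {ε : ℝ} (hε : 0 < ε) :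
    ∃ n, ∃ ψ : C(E n, ℂ), ∀ x : ↥(InvLim E p), ‖ψ (x.1 n) - g x‖ < ε := by
  haveI := compact_lim (p := p) hp
  have hsep : (levAlg (p := p) hp).SeparatesPoints := by
    intro x y hxy
    have hne : ∃ n, x.1 n ≠ y.1 n := by
      by_contra hcon
      push Not at hcon
      exact hxy (Subtype.ext (funext hcon))
    obtain ⟨n, hn⟩ := hne
    obtain ⟨u, hu0, hu1, -⟩ := exists_continuous_zero_one_of_isClosed
      (isClosed_singleton (x := x.1 n)) (isClosed_singleton (x := y.1 n))
      (by rw [Set.disjoint_singleton]; exact hn)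
    let ψ : C(E n, ℂ) := ⟨fun z => (u z : ℂ), Complex.continuous_ofReal.comp u.continuous⟩
    refine ⟨fun z => ψ (z.1 n), ⟨ψ.comp (proj E p n), ⟨n, ψ, rfl⟩, rfl⟩, ?_⟩
    have h0 : u (x.1 n) = 0 := hu0 rfl
    have h1 : u (y.1 n) = 1 := hu1 rfl
    change (u (x.1 n) : ℂ) ≠ (u (y.1 n) : ℂ)
    rw [h0, h1]
    norm_num
  have htop := ContinuousMap.starSubalgebra_topologicalClosure_eq_top_of_separatesPoints
    (levAlg (p := p) hp) hsep
  have hg : g ∈ (levAlg (p := p) hp).topologicalClosure := by rw [htop]; trivial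
  have hg' : g ∈ closure ((levAlg (p := p) hp : Set C(↥(InvLim E p), ℂ))) := hg
  rw [Metric.mem_closure_iff] at hg'
  obtain ⟨F, ⟨n, ψ, rfl⟩, hF⟩ := hg' ε hε
  refine ⟨n, ψ, fun x => ?_⟩
  rw [← dist_eq_norm, dist_comm]
  exact lt_of_le_of_lt (ContinuousMap.dist_apply_le_dist (f := g) (g := ψ.comp (proj E p n)) x) hF

/-- Continuity: the rank of an inverse limit with onto projections is at most the rank of the
spaces in the sequence. -/
theorem not_hasIndep_lim (hp : ∀ n, Continuous (p n))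
    (hs : ∀ n, Function.Surjective (fun x : ↥(InvLim E p) => x.1 n)) {N r : ℕ}
    (hE : ∀ n, ¬ HasIndep (E n) N r) : ¬ HasIndep ↥(InvLim E p) N r := by
  classical
  haveI := compact_lim (p := p) hp
  rintro ⟨g, hg⟩
  have happ : ∀ i : Fin r, ∃ n, ∃ ψ : C(E n, ℂ),
      ∀ x : ↥(InvLim E p), ‖ψ (x.1 n) - ((g i x : Circle) : ℂ)‖ < 1 / 2 := fun i =>
    lev_dense hp ⟨fun x => ((g i x : Circle) : ℂ), continuous_subtype_val.comp (g i).continuous⟩
      (by norm_num)
  choose l ψ hψ using happ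
  obtain ⟨M, hM⟩ : ∃ M, ∀ i, l i ≤ M := ⟨Finset.univ.sup l, fun i => Finset.le_sup (Finset.mem_univ i)⟩
  have hlev := fun i => lev (p := p) hp (hM i) (ψ i)
  choose φ hφ using hlev
  have hφ' : ∀ i, ∀ x : ↥(InvLim E p), φ i (x.1 M) = ψ i (x.1 (l i)) := fun i x =>
    (congrArg (fun F : C(↥(InvLim E p), ℂ) => F x) (hφ i)).symm
  have hd : ∀ i, ∀ x : ↥(InvLim E p), ‖φ i (x.1 M) - ((g i x : Circle) : ℂ)‖ < 1 / 2 := by
    intro i x
    rw [hφ']; exact hψ i x
  have hball : ∀ i, ∀ x : ↥(InvLim E p), φ i (x.1 M) / ((g i x : Circle) : ℂ) ∈ Metric.ball (1 : ℂ) 1 := by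
    intro i x
    rw [Metric.mem_ball, dist_eq_norm]
    have : φ i (x.1 M) / ((g i x : Circle) : ℂ) - 1 =
        (φ i (x.1 M) - ((g i x : Circle) : ℂ)) / ((g i x : Circle) : ℂ) := by
      rw [sub_div, div_self (Circle.coe_ne_zero _)]
    rw [this, norm_div, Circle.norm_coe, div_one]
    exact (hd i x).trans (by norm_num)
  have hnv : ∀ i, ∀ y : E M, φ i y ≠ 0 := by
    intro i y
    obtain ⟨x, hx⟩ := hs M y
    have hx' : x.1 M = y := hx
    intro h0
    have := Complex.slitPlane_ne_zero (Complex.ball_one_subset_slitPlane (hball i x))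
    rw [hx', h0, zero_div] at this
    exact this rfl
  -- normalization
  have hu : ∀ i, ∃ u : C(E M, Circle), ∀ y, ((u y : Circle) : ℂ) = φ i y / ‖φ i y‖ := by
    intro i
    refine ⟨⟨fun y => ⟨φ i y / ‖φ i y‖, by
      rw [Submonoid.unitSphere, ← SetLike.mem_coe]
      simp only [Submonoid.coe_set_mk, Subsemigroup.coe_set_mk, mem_sphere_iff_norm, sub_zero, norm_div,
        Complex.norm_real, norm_norm]
      exact div_self (norm_ne_zero_iff.mpr (hnv i y))⟩, by
      refine Continuous.subtype_mk ?_ _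
      exact (φ i).continuous.div (Complex.continuous_ofReal.comp (φ i).continuous.norm) (fun y => by
        exact_mod_cast norm_ne_zero_iff.mpr (hnv i y))⟩, fun y => rfl⟩
  choose u hu using hu
  have hdep := hE M
  unfold HasIndep at hdep
  push Not at hdep
  obtain ⟨m, q, hi, i0, hi0⟩ := hdep u
  apply hi0
  refine hg m (q.comp (proj E p M)) ?_ i0
  -- the quotients are inessential
  have hquot : ∀ i, Inessential ((u i).comp (proj E p M) * (g i) ^ (-1 : ℤ)) := by
    intro i
    apply inessential_of_slit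
    intro x
    rw [ContinuousMap.mul_apply, ContinuousMap.zpow_apply, Circle.coe_mul, Circle.coe_zpow]
    change ((u i (x.1 M) : Circle) : ℂ) * ((g i x : Circle) : ℂ) ^ (-1 : ℤ) ∈ _
    rw [hu, zpow_neg_one]
    set w : ℂ := φ i (x.1 M) / ((g i x : Circle) : ℂ) with hw
    have hwb := hball i x
    have hws : w ∈ Complex.slitPlane := Complex.ball_one_subset_slitPlane hwb
    have hpos : 0 < ‖φ i (x.1 M)‖⁻¹ := inv_pos.mpr (norm_pos_iff.mpr (hnv i _))
    have e : (φ i (x.1 M)) / ((‖φ i (x.1 M)‖ : ℝ) : ℂ) * (((g i x : Circle) : ℂ))⁻¹ =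
        ((‖φ i (x.1 M)‖⁻¹ : ℝ) : ℂ) * w := by
      rw [hw, Complex.ofReal_inv, div_eq_mul_inv, div_eq_mul_inv]; ring
    rw [e]
    rw [Complex.mem_slitPlane_iff] at hws ⊢
    rw [Complex.re_ofReal_mul, Complex.im_ofReal_mul]
    rcases hws with h | h
    · left; exact mul_pos hpos h
    · right; exact mul_ne_zero hpos.ne' h
  have h1 := (Inessential.prod (fun i => (hquot i).zpow (-(m i)))).mul (hi.comp (proj E p M))
  obtain ⟨θ, hθ⟩ := h1
  refine ⟨θ, fun x => ?_⟩
  rw [← hθ x]
  simp only [ContinuousMap.mul_apply, ContinuousMap.prod_apply, ContinuousMap.zpow_apply,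
    ContinuousMap.pow_apply, ContinuousMap.comp_apply]
  rw [← mul_assoc, ← Finset.prod_mul_distrib]
  congr 1
  refine Finset.prod_congr rfl fun i _ => ?_
  generalize (u i) ((proj E p M) x) = a
  generalize (g i) x = b
  rw [mul_zpow, zpow_neg a, mul_comm (a ^ m i)⁻¹, mul_assoc, inv_mul_cancel, mul_one, ← zpow_mul,
    neg_mul_neg, one_mul]

end lim

end Pool.Agent.H66.KN
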