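import Pool.Agent.H66.KN.Joining

set_option autoImplicit false

namespace Pool.Agent.H66.KN

open Set Topology

/-- The solenoid with degrees `k 0, k 1, …`: the inverse limit of circles with the bonding maps
`z ↦ z ^ (k n)`. -/
def Solenoid (k : ℕ → ℕ) : Set (ℕ → Circle) := { x | ∀ n, x n = (x (n + 1)) ^ (k n) }

/-- Knaster's buckethandle continuum: the inverse limit of unit intervals with the tent map
`u ↦ 1 - |2 u - 1|` as bonding maps. -/
def Buckethandle : Set (ℕ → ℝ) :=
  { x | ∀ n, x n ∈ Icc (0 : ℝ) 1 ∧ x n = 1 - |2 * x (n + 1) - 1| }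

/-- the product of the first `n` degrees -/
noncomputable def deg (k : ℕ → ℕ) (n : ℕ) : ℝ := ∏ i ∈ Finset.range n, (k i : ℝ)

theorem deg_succ (k : ℕ → ℕ) (n : ℕ) : deg k (n + 1) = deg k n * k n := by
  simp [deg, Finset.prod_range_succ]

theorem deg_ne (k : ℕ → ℕ) (hk : ∀ n, k n ≠ 0) (n : ℕ) : deg k n ≠ 0 := by
  rw [deg, Finset.prod_ne_zero_iff]
  intro i _
  exact_mod_cast hk i

theorem path_mem (k : ℕ → ℕ) (hk : ∀ n, k n ≠ 0) (x : ℕ → Circle) (hx : x ∈ Solenoid k) (s : ℝ) :
    (fun n => x n * Circle.exp (s / deg k n)) ∈ Solenoid k := by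
  intro n
  have h1 : deg k n ≠ 0 := deg_ne k hk n
  have h2 : (k n : ℝ) ≠ 0 := by exact_mod_cast hk n
  have hxn : x n = (x (n + 1)) ^ (k n) := hx n
  change x n * Circle.exp (s / deg k n) = (x (n + 1) * Circle.exp (s / deg k (n + 1))) ^ (k n)
  rw [mul_pow, ← hxn]
  congr 1
  have h3 : Circle.exp (s / deg k (n + 1)) ^ (k n) = Circle.exp ((k n : ℝ) * (s / deg k (n + 1))) := by
    have : ∀ m : ℕ, Circle.exp (s / deg k (n + 1)) ^ m = Circle.exp ((m : ℝ) * (s / deg k (n + 1))) := by
      intro m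
      induction m with
      | zero => simp
      | succ m ih => rw [pow_succ, ih, ← Circle.exp_add]; congr 1; push_cast; ring
    exact this (k n)
  rw [h3, deg_succ]
  congr 1
  field_simp

/-- Solenoids have the joining property. -/
theorem joining_solenoid (k : ℕ → ℕ) (hk : ∀ n, k n ≠ 0) : Joining ↥(Solenoid k) := by
  let c : ↥(Solenoid k) → Circle := fun x => x.1 0
  have hc : Continuous c := (continuous_apply 0).comp continuous_subtype_val
  let g : ↥(Solenoid k) → ℝ := fun x => ((c x : ℂ)).re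
  have hg : Continuous g := Complex.continuous_re.comp (continuous_subtype_val.comp hc)
  -- moving along the path
  let mv : ↥(Solenoid k) → ℝ → ↥(Solenoid k) := fun x s =>
    ⟨fun n => x.1 n * Circle.exp (s / deg k n), path_mem k hk x.1 x.2 s⟩
  have hmv : ∀ x, Continuous (mv x) := by
    intro x
    refine Continuous.subtype_mk (continuous_pi fun n => ?_) _
    exact continuous_const.mul (Circle.exp.continuous.comp (continuous_id.div_const _))
  have hmv0 : ∀ x, mv x 0 = x := by
    intro x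
    apply Subtype.ext
    funext n
    simp [mv]
  have hcm : ∀ x s, c (mv x s) = c x * Circle.exp s := by
    intro x s
    simp [c, mv, deg]
  have harg : ∀ x, c x = Circle.exp (Complex.arg (c x : ℂ)) := by
    intro x
    exact (Circle.exp_arg (c x)).symm
  have hone : (fun _ : ℕ => (1 : Circle)) ∈ Solenoid k := by intro n; simp
  have hneg : ∃ y : ↥(Solenoid k), g y < 0 := by
    refine ⟨mv ⟨_, hone⟩ Real.pi, ?_⟩
    have : c (mv ⟨_, hone⟩ Real.pi) = Circle.exp Real.pi := by rw [hcm]; simp [c]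
    change ((c (mv ⟨_, hone⟩ Real.pi) : ℂ)).re < 0
    rw [this]
    simp [Circle.coe_exp]
  refine ⟨{x | c x = 1}, {x | 0 < g x}, {x | 0 ≤ g x}, isClosed_eq hc continuous_const,
    isOpen_lt continuous_const hg, isClosed_le continuous_const hg, ⟨⟨_, hone⟩, rfl⟩, ?_, ?_, ?_, ?_⟩
  · intro x hx
    have hx' : c x = 1 := hx
    change 0 < ((c x : ℂ)).re
    rw [hx']; simp
  · intro x hx
    have hx' : 0 < g x := hx
    exact hx'.le
  · intro hcon
    obtain ⟨y, hy⟩ := hneg
    have : y ∈ {x | 0 ≤ g x} := by rw [hcon]; trivial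
    exact absurd hy (not_lt.mpr this)
  · intro x hx
    have hx' : 0 < ((c x : ℂ)).re := hx
    set θ : ℝ := Complex.arg (c x : ℂ) with hθ
    have hθ2 : |θ| < Real.pi / 2 := Complex.abs_arg_lt_pi_div_two_iff.mpr (Or.inl hx')
    refine ⟨mv x (-θ), ?_, ?_⟩
    · have hpc : IsPreconnected ((mv x) '' (uIcc 0 (-θ))) :=
        (isPreconnected_uIcc).image _ (hmv x).continuousOn
      refine hpc.subset_connectedComponentIn ⟨0, left_mem_uIcc, hmv0 x⟩ ?_ ⟨-θ, right_mem_uIcc, rfl⟩
      rintro _ ⟨s, hs, rfl⟩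
      change 0 ≤ ((c (mv x s) : ℂ)).re
      rw [hcm, harg x, ← Circle.exp_add]
      have h1 : |θ + s| ≤ Real.pi / 2 := by
        rw [mem_uIcc] at hs
        rw [abs_le]
        rw [abs_lt] at hθ2
        rcases hs with hs | hs
        · constructor <;> linarith [hs.1, hs.2, hθ2.1, hθ2.2]
        · constructor <;> linarith [hs.1, hs.2, hθ2.1, hθ2.2]
      rw [Circle.coe_exp, Complex.exp_ofReal_mul_I_re]
      exact Real.cos_nonneg_of_mem_Icc (abs_le.mp h1)
    · change c (mv x (-θ)) = 1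
      rw [hcm, harg x, ← Circle.exp_add]
      simp [← hθ]

/-- one branch of the inverse of the tent map, chosen so as to pass through `v` -/
noncomputable def br (v u : ℝ) : ℝ := if v ≤ 1 / 2 then u / 2 else 1 - u / 2

theorem br_cont (v : ℝ) : Continuous (br v) := by
  unfold br
  split_ifs
  · exact continuous_id.div_const _
  · exact continuous_const.sub (continuous_id.div_const _)

theorem br_mem (v : ℝ) {u : ℝ} (hu : u ∈ Icc (0 : ℝ) 1) : br v u ∈ Icc (0 : ℝ) 1 := by
  unfold br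
  split_ifs
  · constructor <;> linarith [hu.1, hu.2]
  · constructor <;> linarith [hu.1, hu.2]

theorem br_tent (v : ℝ) {u : ℝ} (hu : u ∈ Icc (0 : ℝ) 1) : u = 1 - |2 * br v u - 1| := by
  unfold br
  split_ifs
  · rw [abs_of_nonpos (by linarith [hu.2])]; ring
  · rw [abs_of_nonneg (by linarith [hu.2])]; ring

theorem br_self {v u : ℝ} (h : u = 1 - |2 * v - 1|) : br v u = v := by
  unfold br
  split_ifs with hv
  · rw [h, abs_of_nonpos (by linarith)]; ring
  · rw [h, abs_of_nonneg (by linarith)]; ring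

/-- the lift of a number along the branches of `x` -/
noncomputable def lft (x : ℕ → ℝ) (u : ℝ) : ℕ → ℝ
  | 0 => u
  | n + 1 => br (x (n + 1)) (lft x u n)

theorem lft_cont (x : ℕ → ℝ) (n : ℕ) : Continuous (fun u => lft x u n) := by
  induction n with
  | zero => exact continuous_id
  | succ n ih => exact (br_cont _).comp ih

theorem lft_mem (x : ℕ → ℝ) {u : ℝ} (hu : u ∈ Icc (0 : ℝ) 1) (n : ℕ) : lft x u n ∈ Icc (0 : ℝ) 1 := by
  induction n with
  | zero => exact hu
  | succ n ih => exact br_mem _ ih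

theorem lft_in (x : ℕ → ℝ) {u : ℝ} (hu : u ∈ Icc (0 : ℝ) 1) : lft x u ∈ Buckethandle := by
  intro n
  exact ⟨lft_mem x hu n, br_tent _ (lft_mem x hu n)⟩

theorem lft_self {x : ℕ → ℝ} (hx : x ∈ Buckethandle) : lft x (x 0) = x := by
  funext n
  induction n with
  | zero => rfl
  | succ n ih =>
    change br (x (n + 1)) (lft x (x 0) n) = x (n + 1)
    rw [ih]
    exact br_self (hx n).2

/-- Knaster's buckethandle continuum has the joining property. -/
theorem joining_buckethandle : Joining ↥Buckethandle := by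
  let c : ↥Buckethandle → ℝ := fun x => x.1 0
  have hc : Continuous c := (continuous_apply 0).comp continuous_subtype_val
  have hmem : ∀ u : ℝ, u ∈ Icc (0 : ℝ) 1 → ∃ y : ↥Buckethandle, c y = u := by
    intro u hu
    exact ⟨⟨lft (fun _ => 0) u, lft_in _ hu⟩, rfl⟩
  refine ⟨{x | c x = 1 / 2}, {x | 1 / 4 < c x ∧ c x < 3 / 4}, {x | 1 / 4 ≤ c x ∧ c x ≤ 3 / 4},
    isClosed_eq hc continuous_const, (isOpen_lt continuous_const hc).inter (isOpen_lt hc continuous_const),
    (isClosed_le continuous_const hc).inter (isClosed_le hc continuous_const), ?_, ?_, ?_, ?_, ?_⟩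
  · obtain ⟨y, hy⟩ := hmem (1 / 2) ⟨by norm_num, by norm_num⟩
    exact ⟨y, hy⟩
  · intro x hx
    have hx' : c x = 1 / 2 := hx
    change 1 / 4 < c x ∧ c x < 3 / 4
    rw [hx']; constructor <;> norm_num
  · rintro x ⟨h1, h2⟩
    exact ⟨h1.le, h2.le⟩
  · intro hcon
    obtain ⟨y, hy⟩ := hmem 0 ⟨le_rfl, zero_le_one⟩
    have : y ∈ {x : ↥Buckethandle | 1 / 4 ≤ c x ∧ c x ≤ 3 / 4} := by rw [hcon]; trivial
    have h1 : 1 / 4 ≤ c y := this.1
    rw [hy] at h1
    norm_num at h1
  · rintro x ⟨h1, h2⟩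
    have hIcc : ∀ u ∈ uIcc (c x) (1 / 2), u ∈ Icc (0 : ℝ) 1 ∧ 1 / 4 ≤ u ∧ u ≤ 3 / 4 := by
      intro u hu
      rw [mem_uIcc] at hu
      rcases hu with hu | hu
      · exact ⟨⟨by linarith [hu.1], by linarith [hu.2]⟩, by linarith [hu.1], by linarith [hu.2]⟩
      · exact ⟨⟨by linarith [hu.1], by linarith [hu.2]⟩, by linarith [hu.1], by linarith [hu.2]⟩
    let P : Set ↥Buckethandle := { y | ∃ u ∈ uIcc (c x) (1 / 2), y.1 = lft x.1 u }
    have hP : IsPreconnected P := by
      have hcont : Continuous (fun u : ↥(uIcc (c x) (1 / 2)) =>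
          (⟨lft x.1 u.1, lft_in x.1 (hIcc u.1 u.2).1⟩ : ↥Buckethandle)) := by
        refine Continuous.subtype_mk (continuous_pi fun n => ?_) _
        exact (lft_cont x.1 n).comp continuous_subtype_val
      have hpr : PreconnectedSpace ↥(uIcc (c x) (1 / 2)) :=
        Subtype.preconnectedSpace isPreconnected_uIcc
      have hr := isPreconnected_range hcont
      have : P = range (fun u : ↥(uIcc (c x) (1 / 2)) =>
          (⟨lft x.1 u.1, lft_in x.1 (hIcc u.1 u.2).1⟩ : ↥Buckethandle)) := by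
        ext y
        constructor
        · rintro ⟨u, hu, hy⟩
          exact ⟨⟨u, hu⟩, Subtype.ext hy.symm⟩
        · rintro ⟨u, rfl⟩
          exact ⟨u.1, u.2, rfl⟩
      rw [this]; exact hr
    refine ⟨⟨lft x.1 (1 / 2), lft_in x.1 ⟨by norm_num, by norm_num⟩⟩, ?_, rfl⟩
    refine hP.subset_connectedComponentIn ?_ ?_ ⟨1 / 2, right_mem_uIcc, rfl⟩
    · exact ⟨c x, left_mem_uIcc, (lft_self x.2).symm⟩
    · rintro y ⟨u, hu, hy⟩
      have : c y = u := by
        change y.1 0 = u
        rw [hy]; rfl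
      change 1 / 4 ≤ c y ∧ c y ≤ 3 / 4
      rw [this]
      exact (hIcc u hu).2

end Pool.Agent.H66.KN
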