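import Pool.Agent.H66.KN.Rank

set_option autoImplicit false

namespace Pool.Agent.H66.KN

open Set Topology TopologicalSpace

variable {X : Type*} [MetricSpace X] [CompactSpace X] {f : X → unitInterval}

/-- `h` is, up to an `N`-th power, an exponential on `S`. -/
def ExN {X : Type*} [TopologicalSpace X] (N : ℕ) (S : Set X) (h : X → ℂ) : Prop :=
  ∃ Q : X → ℂ, ContinuousOn Q S ∧ (∀ x ∈ S, Q x ≠ 0) ∧ Ex S (fun x => h x * Q x ^ N)

section algN

variable {X : Type*} [TopologicalSpace X] {S : Set X} {N : ℕ}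

theorem ExN.congr {h h' : X → ℂ} (H : ExN N S h) (e : ∀ x ∈ S, h' x = h x) : ExN N S h' := by
  obtain ⟨Q, h1, h2, h3⟩ := H
  exact ⟨Q, h1, h2, h3.congr (fun x hx => by rw [e x hx])⟩

theorem Ex.toN {h : X → ℂ} (H : Ex S h) : ExN N S h :=
  ⟨fun _ => 1, continuousOn_const, fun _ _ => one_ne_zero, H.congr (fun x _ => by simp)⟩

theorem ExN.mul {h h' : X → ℂ} (H : ExN N S h) (H' : ExN N S h') : ExN N S (fun x => h x * h' x) := by
  obtain ⟨Q, h1, h2, h3⟩ := H
  obtain ⟨Q', h1', h2', h3'⟩ := H'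
  exact ⟨fun x => Q x * Q' x, h1.mul h1', fun x hx => mul_ne_zero (h2 x hx) (h2' x hx),
    (h3.mul h3').congr (fun x _ => by rw [mul_pow]; ring)⟩

theorem ExN.zpow {h : X → ℂ} (H : ExN N S h) (k : ℤ) : ExN N S (fun x => h x ^ k) := by
  obtain ⟨Q, h1, h2, h3⟩ := H
  refine ⟨fun x => Q x ^ k, h1.zpow₀ k (fun x hx => Or.inl (h2 x hx)),
    fun x hx => zpow_ne_zero k (h2 x hx), (h3.zpow k).congr (fun x _ => ?_)⟩
  rw [mul_zpow]
  congr 1
  rw [← zpow_natCast, ← zpow_natCast, ← zpow_mul, ← zpow_mul, mul_comm]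

/-- absorption of `N`-th powers -/
theorem ExN.absorb {h P : X → ℂ} (hP : ContinuousOn P S) (hP0 : ∀ x ∈ S, P x ≠ 0) (k : ℤ)
    (H : ExN N S (fun x => P x ^ ((N : ℤ) * k) * h x)) : ExN N S h := by
  obtain ⟨Q, h1, h2, h3⟩ := H
  refine ⟨fun x => Q x * P x ^ k, h1.mul (hP.zpow₀ k (fun x hx => Or.inl (hP0 x hx))),
    fun x hx => mul_ne_zero (h2 x hx) (zpow_ne_zero k (hP0 x hx)), h3.congr (fun x _ => ?_)⟩
  have : (P x ^ k) ^ N = P x ^ ((N : ℤ) * k) := by
    rw [← zpow_natCast, ← zpow_mul, mul_comm]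
  rw [mul_pow, this]
  ring

theorem ExN.mon_mul {n : ℕ} {G : Fin n → X → ℂ} (hnv : ∀ i, ∀ x ∈ S, G i x ≠ 0) {m m' : Fin n → ℤ}
    (h : ExN N S (mon G m)) (h' : ExN N S (mon G m')) : ExN N S (mon G (m + m')) :=
  (h.mul h').congr (fun x hx => mon_add G m m' x (fun i => hnv i x hx))

theorem ExN.mon_smul {n : ℕ} {G : Fin n → X → ℂ} {m : Fin n → ℤ} (h : ExN N S (mon G m)) (k : ℤ) :
    ExN N S (mon G (fun i => m i * k)) :=
  (h.zpow k).congr (fun x _ => Pool.Agent.H66.KN.mon_smul G m k x)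

end algN

theorem open_relN (hf : Continuous f) {n N : ℕ} {G : Fin n → X → ℂ} (hG : ∀ i, Continuous (G i))
    (m : Fin n → ℤ) {t : unitInterval} (hnv : ∀ i, ∀ x ∈ f ⁻¹' {t}, G i x ≠ 0)
    (h : ExN N (f ⁻¹' {t}) (mon G m)) :
    ∀ᶠ s in 𝓝 t, (∀ i, ∀ x ∈ f ⁻¹' {s}, G i x ≠ 0) ∧ ExN N (f ⁻¹' {s}) (mon G m) := by
  obtain ⟨Q, hQ1, hQ2, hQ3⟩ := h
  have hK : IsClosed (f ⁻¹' {t}) := isClosed_singleton.preimage hf
  obtain ⟨P, hP⟩ := ContinuousMap.exists_restrict_eq hK (⟨_, hQ1.domRestrict⟩ : C(f ⁻¹' {t}, ℂ))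
  have hP' : ∀ x ∈ f ⁻¹' {t}, P x = Q x := by
    intro x hx
    exact congrArg (fun g : C(f ⁻¹' {t}, ℂ) => g ⟨x, hx⟩) hP
  have hc : ∀ i, Continuous ((Fin.cons (P : X → ℂ) G : Fin (n + 1) → X → ℂ) i) := by
    intro i
    refine Fin.cases ?_ (fun j => ?_) i
    · exact P.continuous
    · exact hG j
  have hn : ∀ i, ∀ x ∈ f ⁻¹' {t}, (Fin.cons (P : X → ℂ) G : Fin (n + 1) → X → ℂ) i x ≠ 0 := by
    intro i x hx
    refine Fin.cases ?_ (fun j => ?_) i
    · change P x ≠ 0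
      rw [hP' x hx]; exact hQ2 x hx
    · exact hnv j x hx
  have hE : Ex (f ⁻¹' {t}) (mon (Fin.cons (P : X → ℂ) G : Fin (n + 1) → X → ℂ) (Fin.cons (N : ℤ) m)) := by
    refine hQ3.congr (fun x hx => ?_)
    rw [mon_cons]
    simp only [Fin.cons_zero, Fin.cons_succ, zpow_natCast]
    rw [hP' x hx, mul_comm]
  filter_upwards [open_rel hf hc _ hn hE] with s hs
  refine ⟨fun i x hx => hs.1 i.succ x hx, P, P.continuous.continuousOn, fun x hx => hs.1 0 x hx,
    hs.2.congr (fun x _ => ?_)⟩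
  rw [mon_cons]
  simp only [Fin.cons_zero, Fin.cons_succ, zpow_natCast]
  rw [mul_comm]

/-- The functions `G i` vanish nowhere on `S`, and the only monomials in them which are exponentials
up to an `N`-th power are those whose exponents are divisible by `N`. -/
def IndN {X : Type*} [TopologicalSpace X] {n : ℕ} (N : ℕ) (S : Set X) (G : Fin n → X → ℂ) : Prop :=
  (∀ i, ∀ x ∈ S, G i x ≠ 0) ∧ ∀ m : Fin n → ℤ, ExN N S (mon G m) → ∀ i, (N : ℤ) ∣ m i

theorem dvd_or {N : ℕ} (hN : N = 0 ∨ N.Prime) {a b : ℤ} (h : (N : ℤ) ∣ a * b) :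
    (N : ℤ) ∣ a ∨ (N : ℤ) ∣ b := by
  rcases hN with rfl | hp
  · rw [Nat.cast_zero, zero_dvd_iff] at h
    rcases mul_eq_zero.mp h with h1 | h1
    · left; rw [h1]; exact dvd_zero _
    · right; rw [h1]; exact dvd_zero _
  · exact (Nat.prime_iff_prime_int.mp hp).dvd_or_dvd h

theorem not_dvd_one {N : ℕ} (hN : N = 0 ∨ N.Prime) : ¬ (N : ℤ) ∣ 1 := by
  rcases hN with rfl | hp
  · simp
  · exact (Nat.prime_iff_prime_int.mp hp).not_dvd_one

theorem no_rankN (h : KMap X f) {N : ℕ} (hN : N = 0 ∨ N.Prime) {α β : unitInterval} (hab : α < β)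
    {n : ℕ} {G : Fin (n + 1) → X → ℂ}
    (hG : ∀ i, Continuous (G i)) (hind : ∀ t ∈ Icc α β, IndN N (f ⁻¹' {t}) G)
    (hdep : ∀ t ∈ Icc α β, ∀ H : Fin (n + 2) → X → ℂ, (∀ i, Continuous (H i)) →
      (∀ i, ∀ x ∈ f ⁻¹' {t}, H i x ≠ 0) →
      ∃ m : Fin (n + 2) → ℤ, (¬ ∀ i, (N : ℤ) ∣ m i) ∧ ExN N (f ⁻¹' {t}) (mon H m)) :
    False := by
  have hαI : α ∈ Icc α β := left_mem_Icc.mpr hab.le
  have hβI : β ∈ Icc α β := right_mem_Icc.mpr hab.le
  have hfib : ∀ t ∈ Icc α β, ∀ x ∈ f ⁻¹' {t}, x ∈ f ⁻¹' (Icc α β) := by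
    intro t ht x hx
    have hx' : f x = t := hx
    change f x ∈ Icc α β
    rw [hx']; exact ht
  obtain ⟨H, hHc, hHnv, hHα, hHβ⟩ := barrier h hab (hG 0) (by
    intro x hx
    exact (hind (f x) hx).1 0 x rfl)
  let T : Fin (n + 2) → X → ℂ := Fin.cons H G
  have hTc : ∀ i, Continuous (T i) := by
    intro i
    refine Fin.cases ?_ (fun j => ?_) i
    · exact hHc
    · exact hG j
  have hTnv : ∀ t ∈ Icc α β, ∀ i, ∀ x ∈ f ⁻¹' {t}, T i x ≠ 0 := by
    intro t ht i x hx
    refine Fin.cases ?_ (fun j => ?_) i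
    · exact hHnv x (hfib t ht x hx)
    · exact (hind t ht).1 j x hx
  have hmonT : ∀ (m : Fin (n + 2) → ℤ) (x : X), mon T m x = H x ^ m 0 * mon G (fun i => m i.succ) x :=
    fun m x => mon_cons H G m x
  let Good : (Fin (n + 2) → ℤ) → Prop := fun m =>
    ∀ i : Fin (n + 1), (N : ℤ) ∣ m i.succ + (if i = 0 then m 0 else 0)
  let U1 : Set unitInterval := {t | ∃ m : Fin (n + 2) → ℤ, (¬ (N : ℤ) ∣ m 0) ∧ Good m ∧
    (∀ i, ∀ x ∈ f ⁻¹' {t}, T i x ≠ 0) ∧ ExN N (f ⁻¹' {t}) (mon T m)}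
  let U2 : Set unitInterval := {t | ∃ m : Fin (n + 2) → ℤ, (¬ (N : ℤ) ∣ m 0) ∧ ¬ Good m ∧
    (∀ i, ∀ x ∈ f ⁻¹' {t}, T i x ≠ 0) ∧ ExN N (f ⁻¹' {t}) (mon T m)}
  have hU1 : IsOpen U1 := by
    rw [isOpen_iff_mem_nhds]
    rintro t ⟨m, h1, h2, h3, h4⟩
    filter_upwards [open_relN h.cont hTc m h3 h4] with s hs
    exact ⟨m, h1, h2, hs.1, hs.2⟩
  have hU2 : IsOpen U2 := by
    rw [isOpen_iff_mem_nhds]
    rintro t ⟨m, h1, h2, h3, h4⟩
    filter_upwards [open_relN h.cont hTc m h3 h4] with s hs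
    exact ⟨m, h1, h2, hs.1, hs.2⟩
  have hcov : Icc α β ⊆ U1 ∪ U2 := by
    intro t ht
    obtain ⟨m, hm, hEx⟩ := hdep t ht T hTc (hTnv t ht)
    have hm0 : ¬ (N : ℤ) ∣ m 0 := by
      rintro ⟨k, hk⟩
      apply hm
      have hE : ExN N (f ⁻¹' {t}) (mon G (fun i => m i.succ)) := by
        refine ExN.absorb (P := H) hHc.continuousOn (fun x hx => hHnv x (hfib t ht x hx)) k ?_
        refine hEx.congr (fun x _ => ?_)
        rw [hmonT m x, hk]
      have hz := (hind t ht).2 _ hE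
      intro i
      refine Fin.cases ⟨k, hk⟩ (fun j => ?_) i
      exact hz j
    by_cases hg : Good m
    · exact Or.inl ⟨m, hm0, hg, hTnv t ht, hEx⟩
    · exact Or.inr ⟨m, hm0, hg, hTnv t ht, hEx⟩
  have hα1 : α ∈ U1 := by
    refine ⟨Fin.cons 1 (Pi.single 0 (-1)), ?_, ?_, hTnv α hαI, ?_⟩
    · simpa using not_dvd_one hN
    · intro i
      by_cases hi : i = 0
      · simp [hi]
      · simp [hi]
    · refine (Ex.toN hHα).congr (fun x _ => ?_)
      rw [hmonT]
      simp only [Fin.cons_zero, zpow_one, Fin.cons_succ]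
      rw [mon_single, zpow_neg_one]
  have hβ2 : β ∈ U2 := by
    refine ⟨Fin.cons 1 0, ?_, ?_, hTnv β hβI, ?_⟩
    · simpa using not_dvd_one hN
    · intro hg
      have := hg 0
      simp only [Fin.cons_succ, Pi.zero_apply, if_true, Fin.cons_zero, zero_add] at this
      exact not_dvd_one hN this
    · refine (Ex.toN hHβ).congr (fun x _ => ?_)
      rw [hmonT]
      simp [mon]
  obtain ⟨t, ht, ⟨m, hm0, hgm, hnv, hE⟩, ⟨m', hm0', hgm', _, hE'⟩⟩ :=
    isPreconnected_Icc (a := α) (b := β) U1 U2 hU1 hU2 hcov ⟨α, hαI, hα1⟩ ⟨β, hβI, hβ2⟩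
  have hr := (hE.mon_smul (m' 0)).mon_mul hnv (hE'.mon_smul (-(m 0)))
  set r : Fin (n + 2) → ℤ := (fun i => m i * m' 0) + (fun i => m' i * -(m 0)) with hrdef
  have hr0 : r 0 = 0 := by simp [hrdef]; ring
  have hEG : ExN N (f ⁻¹' {t}) (mon G (fun i => r i.succ)) := by
    refine hr.congr (fun x _ => ?_)
    rw [hmonT r x, hr0, zpow_zero, one_mul]
  have hz := (hind t ht).2 _ hEG
  apply hgm'
  intro i
  have hi : (N : ℤ) ∣ m i.succ * m' 0 + m' i.succ * -(m 0) := hz i
  have hg := hgm i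
  have e1 : m 0 * (m' i.succ + (if i = 0 then m' 0 else 0)) =
      (m i.succ + (if i = 0 then m 0 else 0)) * m' 0 -
        (m i.succ * m' 0 + m' i.succ * -(m 0)) := by
    by_cases h0 : i = 0
    · simp only [h0, if_true]; ring
    · simp only [h0, if_false]; ring
  have e2 : (N : ℤ) ∣ m 0 * (m' i.succ + (if i = 0 then m' 0 else 0)) := by
    rw [e1]
    exact dvd_sub (Dvd.dvd.mul_right hg _) hi
  exact (dvd_or hN e2).resolve_left hm0

/-- A continuous map to the circle which lifts to the line. -/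
def Inessential {K : Type*} [TopologicalSpace K] (g : C(K, Circle)) : Prop :=
  ∃ φ : C(K, ℝ), ∀ x, g x = Circle.exp (φ x)

/-- There are `n` continuous maps of `K` to the circle which are independent modulo inessential maps
and `N`-th powers: if a monomial in them with integer exponents times an `N`-th power is inessential,
then the exponents are divisible by `N`. For `N = 0` this means linear independence in the group of
homotopy classes of maps of `K` to the circle, for a prime `N` linear independence in the quotient of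
this group by its `N`-th multiples. -/
def HasIndep (K : Type*) [TopologicalSpace K] (N n : ℕ) : Prop :=
  ∃ g : Fin n → C(K, Circle), ∀ (m : Fin n → ℤ) (q : C(K, Circle)),
    Inessential ((∏ i, g i ^ m i) * q ^ N) → ∀ i, (N : ℤ) ∣ m i

theorem prod_apply {K : Type*} [TopologicalSpace K] {n N : ℕ} (g : Fin n → C(K, Circle))
    (m : Fin n → ℤ) (q : C(K, Circle)) (x : K) :
    ((((∏ i, g i ^ m i) * q ^ N : C(K, Circle)) x : Circle) : ℂ) =
      (∏ i, ((g i x : Circle) : ℂ) ^ m i) * ((q x : Circle) : ℂ) ^ N := by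
  rw [ContinuousMap.mul_apply, ContinuousMap.prod_apply, Circle.coe_mul, ContinuousMap.pow_apply,
    Circle.coe_pow]
  congr 1
  rw [← Circle.coeHom_apply, map_prod]
  refine Finset.prod_congr rfl fun i _ => ?_
  rw [Circle.coeHom_apply, ContinuousMap.zpow_apply, Circle.coe_zpow]

omit [CompactSpace X] in
/-- normalization -/
theorem exists_unit {S : Set X} (H : X → ℂ) (hc : ContinuousOn H S) (hnv : ∀ x ∈ S, H x ≠ 0) :
    ∃ g : C(↥S, Circle), ∀ x : S, ((g x : Circle) : ℂ) = H x.1 / ‖H x.1‖ := by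
  have hcn : Continuous (fun x : S => H x.1) := continuousOn_iff_continuous_domRestrict.mp hc
  refine ⟨⟨fun x => ⟨H x.1 / ‖H x.1‖, by
      rw [Submonoid.unitSphere, ← SetLike.mem_coe]
      simp only [Submonoid.coe_set_mk, Subsemigroup.coe_set_mk, mem_sphere_iff_norm, sub_zero, norm_div,
        Complex.norm_real, norm_norm]
      exact div_self (norm_ne_zero_iff.mpr (hnv x.1 x.2))⟩, by
      refine Continuous.subtype_mk ?_ _
      exact hcn.div (Complex.continuous_ofReal.comp hcn.norm) (fun x => by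
        exact_mod_cast norm_ne_zero_iff.mpr (hnv x.1 x.2))⟩, fun x => rfl⟩

theorem dep_transfer {S : Set X} (hS : IsClosed S) {n N : ℕ} (hdep : ¬ HasIndep ↥S N n)
    (H : Fin n → X → ℂ) (hc : ∀ i, Continuous (H i)) (hnv : ∀ i, ∀ x ∈ S, H i x ≠ 0) :
    ∃ m : Fin n → ℤ, (¬ ∀ i, (N : ℤ) ∣ m i) ∧ ExN N S (mon H m) := by
  classical
  have hg := fun i => exists_unit (S := S) (H i) (hc i).continuousOn (hnv i)
  choose g hg using hg
  unfold HasIndep at hdep
  push Not at hdep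
  obtain ⟨m, q, ⟨φ, hφ⟩, hm⟩ := hdep g
  refine ⟨m, by push Not; exact hm, ?_⟩
  obtain ⟨Φ, hΦ⟩ := ContinuousMap.exists_restrict_eq hS φ
  have hΦ' : ∀ x : S, Φ x.1 = φ x := fun x => congrArg (fun g : C(↥S, ℝ) => g x) hΦ
  obtain ⟨Q, hQ⟩ := ContinuousMap.exists_restrict_eq hS
    (⟨fun x => ((q x : Circle) : ℂ), continuous_subtype_val.comp q.continuous⟩ : C(↥S, ℂ))
  have hQ' : ∀ x : S, Q x.1 = ((q x : Circle) : ℂ) := fun x => congrArg (fun g : C(↥S, ℂ) => g x) hQ
  refine ⟨Q, Q.continuous.continuousOn, fun x hx => by rw [hQ' ⟨x, hx⟩]; exact Circle.coe_ne_zero _, ?_⟩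
  refine ⟨fun x => (∑ i, (m i : ℂ) * (Real.log ‖H i x‖ : ℂ)) + (Φ x : ℂ) * Complex.I, ?_, ?_⟩
  · refine ContinuousOn.add ?_ ((Complex.continuous_ofReal.comp Φ.continuous).mul continuous_const).continuousOn
    refine continuousOn_finsetSum _ fun i _ => ?_
    refine continuousOn_const.mul ?_
    refine Complex.continuous_ofReal.comp_continuousOn ?_
    exact ContinuousOn.log (hc i).norm.continuousOn (fun x hx => norm_ne_zero_iff.mpr (hnv i x hx))
  · intro x hx
    have h1 : ((((∏ i, g i ^ m i) * q ^ N : C(↥S, Circle)) ⟨x, hx⟩ : Circle) : ℂ) =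
        ((Circle.exp (φ ⟨x, hx⟩) : Circle) : ℂ) := congrArg (fun z : Circle => (z : ℂ)) (hφ ⟨x, hx⟩)
    rw [prod_apply, Circle.coe_exp, ← hΦ' ⟨x, hx⟩, ← hQ' ⟨x, hx⟩] at h1
    rw [Complex.exp_add, ← h1, Complex.exp_sum]
    change mon H m x * Q x ^ N = _ * (_ * Q x ^ N)
    rw [← mul_assoc]
    congr 1
    unfold mon
    rw [← Finset.prod_mul_distrib]
    refine Finset.prod_congr rfl fun i _ => ?_
    have hne : ‖H i x‖ ≠ 0 := norm_ne_zero_iff.mpr (hnv i x hx)
    have h2 : Complex.exp ((m i : ℂ) * (Real.log ‖H i x‖ : ℂ)) = ((‖H i x‖ : ℝ) : ℂ) ^ m i := by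
      rw [Complex.exp_int_mul, ← Complex.ofReal_exp, Real.exp_log (lt_of_le_of_ne (norm_nonneg _) hne.symm)]
    rw [h2, hg i ⟨x, hx⟩, ← mul_zpow, mul_div_cancel₀]
    exact_mod_cast hne

theorem ind_transfer {S : Set X} (hS : IsClosed S) {n N : ℕ} (hind : HasIndep ↥S N n)
    (D : Set C(X, ℂ)) (hD : Dense D) :
    ∃ G : Fin n → C(X, ℂ), (∀ i, G i ∈ D) ∧ IndN N S (fun i => (G i : X → ℂ)) := by
  classical
  obtain ⟨g, hg⟩ := hind
  have hext : ∀ i, ∃ E : C(X, ℂ), ∀ x : S, E x.1 = ((g i x : Circle) : ℂ) := by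
    intro i
    obtain ⟨E, hE⟩ := ContinuousMap.exists_restrict_eq hS
      (⟨fun x => ((g i x : Circle) : ℂ), continuous_subtype_val.comp (g i).continuous⟩ : C(↥S, ℂ))
    exact ⟨E, fun x => congrArg (fun g : C(↥S, ℂ) => g x) hE⟩
  choose E hE using hext
  have happ : ∀ i, ∃ G ∈ D, dist G (E i) < 1 / 2 := by
    intro i
    obtain ⟨G, hG1, hG2⟩ := hD.exists_dist_lt (E i) (show (0 : ℝ) < 1 / 2 by norm_num)
    exact ⟨G, hG1, by rw [dist_comm]; exact hG2⟩
  choose G hGD hGd using happ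
  have hd : ∀ i, ∀ x : X, ‖G i x - E i x‖ < 1 / 2 := by
    intro i x
    rw [← dist_eq_norm]
    exact lt_of_le_of_lt (ContinuousMap.dist_apply_le_dist x) (hGd i)
  have hEn : ∀ i, ∀ x ∈ S, ‖E i x‖ = 1 := by
    intro i x hx
    rw [hE i ⟨x, hx⟩]
    exact Circle.norm_coe _
  have hE0 : ∀ i, ∀ x ∈ S, E i x ≠ 0 := by
    intro i x hx h0
    have := hEn i x hx
    rw [h0, norm_zero] at this
    exact zero_ne_one this
  have hball : ∀ i, ∀ x ∈ S, G i x / E i x ∈ Metric.ball (1 : ℂ) 1 := by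
    intro i x hx
    rw [Metric.mem_ball, dist_eq_norm]
    have : G i x / E i x - 1 = (G i x - E i x) / E i x := by
      rw [sub_div, div_self (hE0 i x hx)]
    rw [this, norm_div, hEn i x hx, div_one]
    exact (hd i x).trans (by norm_num)
  have hG0 : ∀ i, ∀ x ∈ S, G i x ≠ 0 := by
    intro i x hx h0
    have := Complex.slitPlane_ne_zero (Complex.ball_one_subset_slitPlane (hball i x hx))
    rw [h0, zero_div] at this
    exact this rfl
  refine ⟨G, hGD, hG0, ?_⟩
  rintro m ⟨Q, hQ1, hQ2, hm⟩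
  obtain ⟨q, hq⟩ := exists_unit (S := S) Q hQ1 hQ2
  apply hg m q
  -- the quotient monomial has a logarithm
  have hquot : Ex S (fun x => ∏ i, (E i x / G i x) ^ m i) := by
    refine ⟨fun x => ∑ i, (m i : ℂ) * (-Complex.log (G i x / E i x)), ?_, ?_⟩
    · refine continuousOn_finsetSum _ fun i _ => continuousOn_const.mul (ContinuousOn.neg ?_)
      refine ContinuousOn.clog ((G i).continuous.continuousOn.div (E i).continuous.continuousOn (hE0 i)) ?_
      intro x hx
      exact Complex.ball_one_subset_slitPlane (hball i x hx)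
    · intro x hx
      rw [Complex.exp_sum]
      refine Finset.prod_congr rfl fun i _ => ?_
      rw [Complex.exp_int_mul, Complex.exp_neg, Complex.exp_log
        (Complex.slitPlane_ne_zero (Complex.ball_one_subset_slitPlane (hball i x hx))), inv_div]
  have hnorm : Ex S (fun x => ((‖Q x‖ : ℝ) : ℂ)⁻¹ ^ N) := by
    refine ⟨fun x => (N : ℂ) * (-(Real.log ‖Q x‖ : ℂ)), ?_, ?_⟩
    · refine continuousOn_const.mul (ContinuousOn.neg ?_)
      refine Complex.continuous_ofReal.comp_continuousOn ?_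
      exact ContinuousOn.log hQ1.norm (fun x hx => norm_ne_zero_iff.mpr (hQ2 x hx))
    · intro x hx
      have hne : ‖Q x‖ ≠ 0 := norm_ne_zero_iff.mpr (hQ2 x hx)
      rw [Complex.exp_nat_mul, Complex.exp_neg, ← Complex.ofReal_exp,
        Real.exp_log (lt_of_le_of_ne (norm_nonneg _) hne.symm)]
  obtain ⟨ψ, hψ1, hψ2⟩ := (hm.mul hquot).mul hnorm
  have hprod : ∀ x ∈ S, (∏ i, (E i x) ^ m i) * (Q x / ‖Q x‖) ^ N = Complex.exp (ψ x) := by
    intro x hx
    rw [← hψ2 x hx]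
    have h5 : (∏ i, (E i x) ^ m i) = (∏ i, G i x ^ m i) * ∏ i, (E i x / G i x) ^ m i := by
      rw [← Finset.prod_mul_distrib]
      refine Finset.prod_congr rfl fun i _ => ?_
      rw [← mul_zpow, mul_div_cancel₀ _ (hG0 i x hx)]
    change _ = (((∏ i, G i x ^ m i) * Q x ^ N) * ∏ i, (E i x / G i x) ^ m i) * ((‖Q x‖ : ℝ) : ℂ)⁻¹ ^ N
    rw [h5, div_eq_mul_inv, mul_pow]
    ring
  refine ⟨⟨fun x => (ψ x.1).im, ?_⟩, ?_⟩
  · exact Complex.continuous_im.comp (continuousOn_iff_continuous_domRestrict.mp hψ1)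
  · intro x
    apply Subtype.ext
    change ((((∏ i, g i ^ m i) * q ^ N : C(↥S, Circle)) x : Circle) : ℂ) =
      ((Circle.exp (ψ x.1).im : Circle) : ℂ)
    rw [prod_apply, Circle.coe_exp]
    have h1 : (∏ i, ((g i x : Circle) : ℂ) ^ m i) * ((q x : Circle) : ℂ) ^ N = Complex.exp (ψ x.1) := by
      rw [← hprod x.1 x.2, hq x]
      congr 1
      refine Finset.prod_congr rfl fun i _ => ?_
      rw [hE i x]
    rw [h1]
    have h2 : ‖Complex.exp (ψ x.1)‖ = 1 := by
      rw [← h1, norm_mul, norm_prod, norm_pow, Circle.norm_coe, one_pow, mul_one]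
      refine Finset.prod_eq_one fun i _ => ?_
      rw [norm_zpow, Circle.norm_coe, one_zpow]
    rw [Complex.norm_exp, Real.exp_eq_one_iff] at h2
    conv_lhs => rw [← Complex.re_add_im (ψ x.1), h2]
    simp

/-- The main theorem: if all fibres over the open set `V` have rank at most `n + 1`, then the fibres
over `V` of rank exactly `n + 1` form a meagre set. -/
theorem meagre_rank (h : KMap X f) {N : ℕ} (hN : N = 0 ∨ N.Prime) (V : Set unitInterval)
    (hV : IsOpen V) (n : ℕ) (hb : ∀ t ∈ V, ¬ HasIndep ↥(f ⁻¹' {t}) N (n + 2)) :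
    IsMeagre {t | t ∈ V ∧ HasIndep ↥(f ⁻¹' {t}) N (n + 1)} := by
  obtain ⟨D, hDc, hDd⟩ := exists_countable_dense C(X, ℂ)
  let I : Set (Fin (n + 1) → C(X, ℂ)) := Set.pi univ (fun _ => D)
  have hI : I.Countable := Set.countable_univ_pi (fun _ => hDc)
  refine IsMeagre.mono ?_ (isMeagre_biUnion hI (f := fun G =>
    {t | t ∈ V ∧ IndN N (f ⁻¹' {t}) (fun i => (G i : X → ℂ))}) ?_)
  · rintro t ⟨ht, hi⟩
    obtain ⟨G, hG1, hG2⟩ := ind_transfer (isClosed_singleton.preimage h.cont) hi D hDd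
    exact mem_biUnion (x := G) (fun i _ => hG1 i) ⟨ht, hG2⟩
  · intro G hG
    apply IsNowhereDense.isMeagre
    rw [isNowhereDense_iff_forall_notMem_nhds]
    rintro t ⟨ht, hti⟩ hcl
    have hnv : ∀ᶠ s in 𝓝 t, ∀ i, ∀ x ∈ f ⁻¹' {s}, G i x ≠ 0 := by
      have h1 := open_rel h.cont (fun i => (G i).continuous) (0 : Fin (n + 1) → ℤ) hti.1
        (Ex.one.congr (fun x _ => by simp [mon]))
      filter_upwards [h1] with s hs
      exact hs.1
    have hN' : {s | s ∈ V ∧ IndN N (f ⁻¹' {s}) (fun i => (G i : X → ℂ))} ∈ 𝓝 t := by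
      filter_upwards [hcl, hV.mem_nhds ht, hnv] with s hs1 hs2 hs3
      refine ⟨hs2, hs3, ?_⟩
      intro m hm
      obtain ⟨r, hr1, hr2⟩ := mem_closure_iff_nhds.mp hs1 _
        (open_relN h.cont (fun i => (G i).continuous) m hs3 hm)
      exact hr2.2.2 m hr1.2
    obtain ⟨α, β, hab, hsub⟩ := exists_Icc hN'
    refine no_rankN h hN hab (fun i => (G i).continuous) (fun s hs => (hsub hs).2) ?_
    intro s hs H hHc hHnv
    exact dep_transfer (isClosed_singleton.preimage h.cont) (hb s (hsub hs).1) H hHc hHnv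

theorem hasIndep_homeo {K L : Type*} [TopologicalSpace K] [TopologicalSpace L] (e : K ≃ₜ L) {N n : ℕ}
    (h : HasIndep L N n) : HasIndep K N n := by
  obtain ⟨g, hg⟩ := h
  refine ⟨fun i => (g i).comp (e : C(K, L)), ?_⟩
  intro m q hi
  obtain ⟨φ, hφ⟩ := hi
  refine hg m (q.comp (e.symm : C(L, K))) ⟨φ.comp (e.symm : C(L, K)), ?_⟩
  intro x
  have h1 := hφ (e.symm x)
  apply Subtype.ext
  have h2 : ((((∏ i, (fun i => (g i).comp (e : C(K, L))) i ^ m i) * q ^ N : C(K, Circle)) (e.symm x) :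
      Circle) : ℂ) = ((Circle.exp (φ (e.symm x)) : Circle) : ℂ) :=
    congrArg (fun z : Circle => (z : ℂ)) h1
  change ((((∏ i, g i ^ m i) * (q.comp (e.symm : C(L, K))) ^ N : C(L, Circle)) x : Circle) : ℂ) =
    ((Circle.exp (φ (e.symm x)) : Circle) : ℂ)
  rw [← h2, prod_apply, prod_apply]
  simp

/-- On a connected space, an essential map to the circle is independent (torsion-freeness). -/
theorem hasIndep_one {K : Type*} [TopologicalSpace K] [ConnectedSpace K] (g : C(K, Circle))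
    (hg : ¬ Inessential g) : HasIndep K 0 1 := by
  refine ⟨fun _ => g, ?_⟩
  intro m q hi i
  by_contra hcon
  apply hg
  have hk : m 0 ≠ 0 := by
    intro h0
    apply hcon
    have : i = 0 := Subsingleton.elim _ _
    rw [this, h0]; exact dvd_zero _
  obtain ⟨φ, hφ⟩ := hi
  set k : ℤ := m 0 with hkdef
  have hkR : (k : ℝ) ≠ 0 := by exact_mod_cast hk
  -- the map g * exp(-φ/k) takes values in the roots of unity
  let u : K → Circle := fun x => g x * Circle.exp (-(φ x) / k)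
  have hu : Continuous u := g.continuous.mul (Circle.exp.continuous.comp (φ.continuous.neg.div_const _))
  have hexp : ∀ (y : ℝ) (j : ℤ), Circle.exp y ^ j = Circle.exp (j * y) := by
    intro y j
    apply Subtype.ext
    rw [Circle.coe_zpow, Circle.coe_exp, Circle.coe_exp, ← Complex.exp_int_mul]
    push_cast
    ring_nf
  have huk : ∀ x, u x ^ k = 1 := by
    intro x
    have h1 : g x ^ k = Circle.exp (φ x) := by
      have := hφ x
      simpa using this
    change (g x * Circle.exp (-(φ x) / k)) ^ k = 1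
    rw [mul_zpow, h1, hexp, ← Circle.exp_add]
    have : φ x + k * (-(φ x) / k) = 0 := by field_simp; ring
    rw [this, Circle.exp_zero]
  -- finitely many values
  have hfin : (range u).Finite := by
    have h2 : {z : Circle | z ^ k = 1}.Finite := by
      have h3 : {z : Circle | z ^ k.natAbs = 1}.Finite := by
        have hpos : 0 < k.natAbs := Int.natAbs_pos.mpr hk
        have h4 : {z : ℂ | z ^ k.natAbs = 1}.Finite := by
          have : {z : ℂ | z ^ k.natAbs = 1} ⊆ (Polynomial.nthRoots k.natAbs (1 : ℂ)).toFinset := by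
            intro z hz
            have hz' : z ^ k.natAbs = 1 := hz
            rw [Finset.mem_coe, Multiset.mem_toFinset, Polynomial.mem_nthRoots hpos]
            exact hz'
          exact (Finset.finite_toSet _).subset this
        refine Set.Finite.of_finite_image (f := fun z : Circle => (z : ℂ)) (h4.subset ?_)
          Subtype.val_injective.injOn
        rintro _ ⟨z, hz, rfl⟩
        have hz' : z ^ k.natAbs = 1 := hz
        change ((z : Circle) : ℂ) ^ k.natAbs = 1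
        rw [← Circle.coe_pow, hz', Circle.coe_one]
      refine h3.subset ?_
      intro z hz
      have hz' : z ^ k = 1 := hz
      change z ^ k.natAbs = 1
      rcases Int.natAbs_eq k with h5 | h5
      · rw [h5, zpow_natCast] at hz'; exact hz'
      · rw [h5, zpow_neg, inv_eq_one, zpow_natCast] at hz'; exact hz'
    refine h2.subset ?_
    rintro _ ⟨x, rfl⟩
    exact huk x
  obtain ⟨x0⟩ : Nonempty K := inferInstance
  have hconst : ∀ x, u x = u x0 := by
    intro x
    have h6 : (range u).Subsingleton := by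
      by_contra hns
      rw [Set.not_subsingleton_iff] at hns
      exact (isPreconnected_range hu).infinite_of_nontrivial hns hfin
    exact h6 ⟨x, rfl⟩ ⟨x0, rfl⟩
  obtain ⟨θ, hθ⟩ : ∃ θ : ℝ, Circle.exp θ = u x0 := ⟨Complex.arg (u x0 : ℂ), Circle.exp_arg (u x0)⟩
  refine ⟨⟨fun x => θ + φ x / k, continuous_const.add (φ.continuous.div_const _)⟩, ?_⟩
  intro x
  change g x = Circle.exp (θ + φ x / k)
  rw [Circle.exp_add, hθ, ← hconst x]
  change g x = g x * Circle.exp (-(φ x) / k) * Circle.exp (φ x / k)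
  rw [mul_assoc, ← Circle.exp_add]
  have : -(φ x) / k + φ x / k = 0 := by ring
  rw [this, Circle.exp_zero, mul_one]

end Pool.Agent.H66.KN
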