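import Pool.Agent.H66.KN.Htp
import Pool.Agent.H66.KN.Rank3

set_option autoImplicit false

namespace Pool.Agent.H66.KN

open Set Topology TopologicalSpace

section cm

variable {K P : Type*} [TopologicalSpace K] [TopologicalSpace P] [CommGroup P] [IsTopologicalGroup P]

theorem htp_mul {a b c d : C(K, P)} (h : a.Homotopic b) (h' : c.Homotopic d) :
    (a * c).Homotopic (b * d) :=
  (ContinuousMap.Homotopic.refl (⟨fun p : P × P => p.1 * p.2, continuous_mul⟩ : C(P × P, P))).comp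
    (h.prodMk h')

theorem htp_zpow {a b : C(K, P)} (h : a.Homotopic b) (k : ℤ) : (a ^ k).Homotopic (b ^ k) := by
  have := (ContinuousMap.Homotopic.refl (⟨fun p : P => p ^ k, continuous_zpow k⟩ : C(P, P))).comp h
  have e : ∀ a : C(K, P), (⟨fun p : P => p ^ k, continuous_zpow k⟩ : C(P, P)).comp a = a ^ k := by
    intro a
    ext x
    rw [ContinuousMap.zpow_apply]
    rfl
  rwa [e, e] at this

theorem htp_prod {n : ℕ} {a b : Fin n → C(K, P)} (h : ∀ i, (a i).Homotopic (b i)) :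
    (∏ i, a i).Homotopic (∏ i, b i) := by
  classical
  have : ∀ s : Finset (Fin n), (∏ i ∈ s, a i).Homotopic (∏ i ∈ s, b i) := by
    intro s
    induction s using Finset.induction_on with
    | empty => exact ContinuousMap.Homotopic.refl _
    | insert j s hj ih =>
      rw [Finset.prod_insert hj, Finset.prod_insert hj]
      exact htp_mul (h j) ih
  exact this Finset.univ

end cm

section grp

variable {X P : Type*} [TopologicalSpace X] [TopologicalSpace P] [CommGroup P] [IsTopologicalGroup P]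
  {S : Set X} {u v u' v' : X → P}

theorem HS.mul (h : HS S u v) (h' : HS S u' v') :
    HS S (fun x => u x * u' x) (fun x => v x * v' x) := by
  obtain ⟨h1, h2, h3⟩ := h
  obtain ⟨h4, h5, h6⟩ := h'
  exact ⟨h1.mul h4, h2.mul h5, htp_mul h3 h6⟩

theorem HS.zpow (h : HS S u v) (k : ℤ) : HS S (fun x => u x ^ k) (fun x => v x ^ k) := by
  obtain ⟨h1, h2, h3⟩ := h
  refine ⟨(continuous_zpow k).comp_continuousOn h1, (continuous_zpow k).comp_continuousOn h2, ?_⟩
  have e : ∀ (w : X → P) (hw : ContinuousOn w S) (hk : ContinuousOn (fun x => w x ^ k) S),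
      mkS S (fun x => w x ^ k) hk = (mkS S w hw) ^ k := by
    intro w hw hk
    ext x
    rw [ContinuousMap.zpow_apply]
    rfl
  rw [e u h1, e v h2]
  exact htp_zpow h3 k

/-- the monomial with integer exponents `m` in the maps `G i` -/
def monP {n : ℕ} (G : Fin n → X → P) (m : Fin n → ℤ) (x : X) : P := ∏ i, G i x ^ m i

theorem monP_cont {n : ℕ} {G : Fin n → X → P} (hG : ∀ i, ContinuousOn (G i) S) (m : Fin n → ℤ) :
    ContinuousOn (monP G m) S := by
  unfold monP
  exact continuousOn_finsetProd _ fun i _ => (continuous_zpow (m i)).comp_continuousOn (hG i)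

/-- `h` times an `N`-th power is null-homotopic on `S` -/
def NulN (N : ℕ) (S : Set X) (h : X → P) : Prop :=
  ∃ Q : X → P, ContinuousOn Q S ∧ HS S (fun x => h x * Q x ^ N) (fun _ => 1)

theorem HS.congr_left (H : HS S u v) (e : ∀ x ∈ S, u' x = u x) : HS S u' v := by
  obtain ⟨h1, h2, h3⟩ := H
  exact (HS.of_eq h1 e).symm.trans ⟨h1, h2, h3⟩

variable {N : ℕ}

theorem NulN.congr {h h' : X → P} (H : NulN N S h) (e : ∀ x ∈ S, h' x = h x) : NulN N S h' := by
  obtain ⟨Q, h1, h2⟩ := H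
  exact ⟨Q, h1, h2.congr_left (fun x hx => by rw [e x hx])⟩

theorem HS.toN {h : X → P} (H : HS S h (fun _ => 1)) : NulN N S h :=
  ⟨fun _ => 1, continuousOn_const, H.congr_left (fun x _ => by simp)⟩

theorem NulN.mul {h h' : X → P} (H : NulN N S h) (H' : NulN N S h') :
    NulN N S (fun x => h x * h' x) := by
  obtain ⟨Q, h1, h2⟩ := H
  obtain ⟨Q', h1', h2'⟩ := H'
  refine ⟨fun x => Q x * Q' x, h1.mul h1', ?_⟩
  have := h2.mul h2'
  simp only [mul_one] at this
  exact this.congr_left (fun x _ => by rw [mul_pow, mul_mul_mul_comm])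

theorem NulN.zpow {h : X → P} (H : NulN N S h) (k : ℤ) : NulN N S (fun x => h x ^ k) := by
  obtain ⟨Q, h1, h2⟩ := H
  refine ⟨fun x => Q x ^ k, (continuous_zpow k).comp_continuousOn h1, ?_⟩
  have := h2.zpow k
  simp only [one_zpow] at this
  refine this.congr_left (fun x _ => ?_)
  rw [mul_zpow]
  congr 1
  rw [← zpow_natCast, ← zpow_natCast, ← zpow_mul, ← zpow_mul, mul_comm]

/-- absorption of `N`-th powers -/
theorem NulN.absorb {h R : X → P} (hR : ContinuousOn R S) (k : ℤ)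
    (H : NulN N S (fun x => R x ^ ((N : ℤ) * k) * h x)) : NulN N S h := by
  obtain ⟨Q, h1, h2⟩ := H
  refine ⟨fun x => Q x * R x ^ k, h1.mul ((continuous_zpow k).comp_continuousOn hR), ?_⟩
  refine h2.congr_left (fun x _ => ?_)
  have : (R x ^ k) ^ N = R x ^ ((N : ℤ) * k) := by
    rw [← zpow_natCast, ← zpow_mul, mul_comm]
  rw [mul_pow, this]
  rw [← mul_assoc, mul_comm (h x * Q x ^ N), ← mul_assoc]

omit [TopologicalSpace X] [TopologicalSpace P] [IsTopologicalGroup P] in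
theorem monP_add {n : ℕ} (G : Fin n → X → P) (m m' : Fin n → ℤ) (x : X) :
    monP G (m + m') x = monP G m x * monP G m' x := by
  unfold monP
  rw [← Finset.prod_mul_distrib]
  refine Finset.prod_congr rfl fun i _ => ?_
  rw [Pi.add_apply, zpow_add]

omit [TopologicalSpace X] [TopologicalSpace P] [IsTopologicalGroup P] in
theorem monP_smul {n : ℕ} (G : Fin n → X → P) (m : Fin n → ℤ) (k : ℤ) (x : X) :
    monP G (fun i => m i * k) x = monP G m x ^ k := by
  unfold monP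
  rw [← Finset.prod_zpow]
  refine Finset.prod_congr rfl fun i _ => ?_
  rw [zpow_mul]

omit [TopologicalSpace X] [TopologicalSpace P] [IsTopologicalGroup P] in
theorem monP_single {n : ℕ} (G : Fin n → X → P) (i : Fin n) (k : ℤ) (x : X) :
    monP G (Pi.single i k) x = G i x ^ k := by
  unfold monP
  rw [Finset.prod_eq_single i]
  · simp
  · intro j _ hj
    rw [Pi.single_eq_of_ne hj, zpow_zero]
  · intro h; exact absurd (Finset.mem_univ i) h

omit [TopologicalSpace X] [TopologicalSpace P] [IsTopologicalGroup P] in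
theorem monP_cons {n : ℕ} (H : X → P) (G : Fin n → X → P) (m : Fin (n + 1) → ℤ) (x : X) :
    monP (Fin.cons H G : Fin (n + 1) → X → P) m x = H x ^ m 0 * monP G (fun i => m i.succ) x := by
  unfold monP
  rw [Fin.prod_univ_succ]
  rfl

end grp

/-- There are `n` maps of `K` to `P` such that a monomial with exponents `m i` in them times an `N`-th
power is null-homotopic only if `N` divides all the `m i`: the classes of these maps are independent
in the group `[K, P]` modulo its `N`-th powers. -/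
def HasIndepP (K P : Type*) [TopologicalSpace K] [TopologicalSpace P] [CommGroup P]
    [IsTopologicalGroup P] (N n : ℕ) : Prop :=
  ∃ g : Fin n → C(K, P), ∀ (m : Fin n → ℤ) (q : C(K, P)),
    ((∏ i, g i ^ m i) * q ^ N).Homotopic 1 → ∀ i, (N : ℤ) ∣ m i

section metric

variable {X : Type*} [MetricSpace X] [CompactSpace X] {f : X → unitInterval}
  {P : Type*} [TopologicalSpace P] [CommGroup P] [IsTopologicalGroup P] {ι : Type} [Countable ι]
  {W : Set (ι → ℝ)} {i : P → (ι → ℝ)} {r : (ι → ℝ) → P}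

omit [Countable ι] in
theorem open_relP (hR : Ret P ι W i r) (hf : Continuous f) {n N : ℕ} {G : Fin n → X → P} {O : Set X}
    (hO : IsOpen O) (hG : ∀ j, ContinuousOn (G j) O) (m : Fin n → ℤ) {t : unitInterval}
    (hF : f ⁻¹' {t} ⊆ O) (h : NulN N (f ⁻¹' {t}) (monP G m)) :
    ∀ᶠ s in 𝓝 t, NulN N (f ⁻¹' {s}) (monP G m) := by
  obtain ⟨Q, hQ1, hQ2⟩ := h
  have hK : IsClosed (f ⁻¹' {t}) := isClosed_singleton.preimage hf
  obtain ⟨Ψ, hΨ⟩ := ContinuousMap.exists_restrict_eq hK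
    (⟨fun x => i (Q x.1), hR.icont.comp (continuousOn_iff_continuous_domRestrict.mp hQ1)⟩ :
      C(f ⁻¹' {t}, ι → ℝ))
  have hΨ' : ∀ x ∈ f ⁻¹' {t}, Ψ x = i (Q x) := by
    intro x hx
    exact congrArg (fun g : C(f ⁻¹' {t}, ι → ℝ) => g ⟨x, hx⟩) hΨ
  have hO' : IsOpen (Ψ ⁻¹' W) := hR.opn.preimage Ψ.continuous
  have hF' : f ⁻¹' {t} ⊆ Ψ ⁻¹' W := by
    intro x hx
    change Ψ x ∈ W
    rw [hΨ' x hx]; exact hR.imem _
  have hQc : ContinuousOn (fun x => r (Ψ x)) (Ψ ⁻¹' W) := hR.comp_cont Ψ.continuous.continuousOn (fun _ h => h)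
  have hFF : f ⁻¹' {t} ⊆ O ∩ Ψ ⁻¹' W := fun x hx => ⟨hF hx, hF' hx⟩
  have hc : ContinuousOn (fun x => monP G m x * r (Ψ x) ^ N) (O ∩ Ψ ⁻¹' W) :=
    ((monP_cont hG m).mono inter_subset_left).mul ((hQc.mono inter_subset_right).pow N)
  have hHS : HS (f ⁻¹' {t}) (fun x => monP G m x * r (Ψ x) ^ N) (fun _ => 1) :=
    hQ2.congr_left (fun x hx => by rw [hΨ' x hx, hR.ri])
  filter_upwards [open_HS hR hf (hO.inter hO') hc continuousOn_const hFF hHS,
    eventually_fib_subset hf isClosed_univ hO' (by rw [inter_univ]; exact hF')] with s hs1 hs2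
  exact ⟨fun x => r (Ψ x), hQc.mono (fun x hx => hs2 ⟨hx, trivial⟩), hs1⟩

theorem no_rankP [PathConnectedSpace P] (h : KMap X f) (hR : Ret P ι W i r) {N : ℕ}
    (hN : N = 0 ∨ N.Prime) {α β : unitInterval} (hab : α < β)
    {n : ℕ} {G : Fin (n + 1) → X → (ι → ℝ)} (hG : ∀ j, Continuous (G j))
    (hGW : ∀ t ∈ Icc α β, ∀ j, ∀ x ∈ f ⁻¹' {t}, G j x ∈ W)
    (hind : ∀ t ∈ Icc α β, ∀ m : Fin (n + 1) → ℤ,
      NulN N (f ⁻¹' {t}) (monP (fun j x => r (G j x)) m) → ∀ j, (N : ℤ) ∣ m j)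
    (hdep : ∀ t ∈ Icc α β, ∀ H : Fin (n + 2) → X → P, (∀ j, ContinuousOn (H j) (f ⁻¹' {t})) →
      ∃ m : Fin (n + 2) → ℤ, (¬ ∀ j, (N : ℤ) ∣ m j) ∧ NulN N (f ⁻¹' {t}) (monP H m)) :
    False := by
  have hαI : α ∈ Icc α β := left_mem_Icc.mpr hab.le
  have hβI : β ∈ Icc α β := right_mem_Icc.mpr hab.le
  have hfib : ∀ t ∈ Icc α β, ∀ x ∈ f ⁻¹' {t}, x ∈ f ⁻¹' (Icc α β) := by
    intro t ht x hx
    have hx' : f x = t := hx
    change f x ∈ Icc α β
    rw [hx']; exact ht
  obtain ⟨H, hHc, hHW, hHα, hHβ⟩ := barrier_htp h hR hab (hG 0) (continuous_const (y := i 1)) (by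
    intro x hx
    exact hGW (f x) hx 0 x rfl) (fun x _ => hR.imem _)
  have hHβ' : ∀ x ∈ f ⁻¹' {β}, r (H x) = 1 := by
    intro x hx
    rw [hHβ x hx]; exact hR.ri 1
  let g : Fin (n + 1) → X → P := fun j x => r (G j x)
  let T : Fin (n + 2) → X → P := Fin.cons (fun x => r (H x)) g
  let O : Set X := H ⁻¹' W ∩ ⋂ j, (G j) ⁻¹' W
  have hO : IsOpen O := (hR.opn.preimage hHc).inter (isOpen_iInter_of_finite fun j => hR.opn.preimage (hG j))
  have hTc : ∀ j, ContinuousOn (T j) O := by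
    intro j
    refine Fin.cases ?_ (fun k => ?_) j
    · exact hR.comp_cont hHc.continuousOn (fun x hx => hx.1)
    · exact hR.comp_cont (hG k).continuousOn (fun x hx => by
        have := hx.2
        rw [mem_iInter] at this
        exact this k)
  have hFO : ∀ t ∈ Icc α β, f ⁻¹' {t} ⊆ O := by
    intro t ht x hx
    refine ⟨hHW x (hfib t ht x hx), ?_⟩
    rw [mem_iInter]
    intro j
    exact hGW t ht j x hx
  have hmonT : ∀ (m : Fin (n + 2) → ℤ) (x : X),
      monP T m x = r (H x) ^ m 0 * monP g (fun j => m j.succ) x :=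
    fun m x => monP_cons (fun x => r (H x)) g m x
  let Good : (Fin (n + 2) → ℤ) → Prop := fun m =>
    ∀ j : Fin (n + 1), (N : ℤ) ∣ m j.succ + (if j = 0 then m 0 else 0)
  let U1 : Set unitInterval := {t | ∃ m : Fin (n + 2) → ℤ, (¬ (N : ℤ) ∣ m 0) ∧ Good m ∧
    f ⁻¹' {t} ⊆ O ∧ NulN N (f ⁻¹' {t}) (monP T m)}
  let U2 : Set unitInterval := {t | ∃ m : Fin (n + 2) → ℤ, (¬ (N : ℤ) ∣ m 0) ∧ ¬ Good m ∧
    f ⁻¹' {t} ⊆ O ∧ NulN N (f ⁻¹' {t}) (monP T m)}
  have hev : ∀ t, f ⁻¹' {t} ⊆ O → ∀ᶠ s in 𝓝 t, f ⁻¹' {s} ⊆ O := by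
    intro t ht
    filter_upwards [eventually_fib_subset h.cont isClosed_univ hO (by rw [inter_univ]; exact ht)] with s hs
    exact fun x hx => hs ⟨hx, trivial⟩
  have hU1 : IsOpen U1 := by
    rw [isOpen_iff_mem_nhds]
    rintro t ⟨m, h1, h2, h3, h4⟩
    filter_upwards [open_relP hR h.cont hO hTc m h3 h4, hev t h3] with s hs hs'
    exact ⟨m, h1, h2, hs', hs⟩
  have hU2 : IsOpen U2 := by
    rw [isOpen_iff_mem_nhds]
    rintro t ⟨m, h1, h2, h3, h4⟩
    filter_upwards [open_relP hR h.cont hO hTc m h3 h4, hev t h3] with s hs hs'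
    exact ⟨m, h1, h2, hs', hs⟩
  have hcov : Icc α β ⊆ U1 ∪ U2 := by
    intro t ht
    obtain ⟨m, hm, hEx⟩ := hdep t ht T (fun j => (hTc j).mono (hFO t ht))
    have hm0 : ¬ (N : ℤ) ∣ m 0 := by
      rintro ⟨k, hk⟩
      apply hm
      have hE : NulN N (f ⁻¹' {t}) (monP g (fun j => m j.succ)) := by
        refine NulN.absorb (R := fun x => r (H x))
          (hR.comp_cont hHc.continuousOn (fun x hx => hHW x (hfib t ht x hx))) k ?_
        refine hEx.congr (fun x _ => ?_)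
        rw [hmonT m x, hk]
      have hz := hind t ht _ hE
      intro j
      refine Fin.cases ⟨k, hk⟩ (fun l => ?_) j
      exact hz l
    by_cases hg : Good m
    · exact Or.inl ⟨m, hm0, hg, hFO t ht, hEx⟩
    · exact Or.inr ⟨m, hm0, hg, hFO t ht, hEx⟩
  have hα1 : α ∈ U1 := by
    refine ⟨Fin.cons 1 (Pi.single 0 (-1)), ?_, ?_, hFO α hαI, ?_⟩
    · simpa using not_dvd_one hN
    · intro j
      by_cases hj : j = 0
      · simp [hj]
      · simp [hj]
    · refine HS.toN ((HS.refl (continuousOn_const (c := (1 : P)))).congr_left (fun x hx => ?_))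
      rw [hmonT]
      simp only [Fin.cons_zero, zpow_one, Fin.cons_succ]
      rw [monP_single, zpow_neg_one, hHα x hx]
      exact mul_inv_cancel _
  have hβ2 : β ∈ U2 := by
    refine ⟨Fin.cons 1 0, ?_, ?_, hFO β hβI, ?_⟩
    · simpa using not_dvd_one hN
    · intro hg
      have := hg 0
      simp only [Fin.cons_succ, Pi.zero_apply, if_true, Fin.cons_zero, zero_add] at this
      exact not_dvd_one hN this
    · refine HS.toN ((HS.refl (continuousOn_const (c := (1 : P)))).congr_left (fun x hx => ?_))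
      rw [hmonT, hHβ' x hx]
      simp [monP]
  obtain ⟨t, ht, ⟨m, hm0, hgm, _, hE⟩, ⟨m', hm0', hgm', _, hE'⟩⟩ :=
    isPreconnected_Icc (a := α) (b := β) U1 U2 hU1 hU2 hcov ⟨α, hαI, hα1⟩ ⟨β, hβI, hβ2⟩
  have hr1 := (hE.zpow (m' 0)).mul (hE'.zpow (-(m 0)))
  set c : Fin (n + 2) → ℤ := (fun j => m j * m' 0) + (fun j => m' j * -(m 0)) with hcdef
  have hr : NulN N (f ⁻¹' {t}) (monP T c) := by
    refine hr1.congr (fun x _ => ?_)
    rw [hcdef, monP_add, monP_smul, monP_smul]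
  have hc0 : c 0 = 0 := by simp [hcdef]; ring
  have hEG : NulN N (f ⁻¹' {t}) (monP g (fun j => c j.succ)) := by
    refine hr.congr (fun x _ => ?_)
    rw [hmonT c x, hc0, zpow_zero, one_mul]
  have hz := hind t ht _ hEG
  apply hgm'
  intro j
  have hj : (N : ℤ) ∣ m j.succ * m' 0 + m' j.succ * -(m 0) := hz j
  have hg := hgm j
  have e1 : m 0 * (m' j.succ + (if j = 0 then m' 0 else 0)) =
      (m j.succ + (if j = 0 then m 0 else 0)) * m' 0 -
        (m j.succ * m' 0 + m' j.succ * -(m 0)) := by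
    by_cases h0 : j = 0
    · simp only [h0, if_true]; ring
    · simp only [h0, if_false]; ring
  have e2 : (N : ℤ) ∣ m 0 * (m' j.succ + (if j = 0 then m' 0 else 0)) := by
    rw [e1]
    exact dvd_sub (Dvd.dvd.mul_right hg _) hj
  exact (dvd_or hN e2).resolve_left hm0

theorem mk_mon {S : Set X} {n N : ℕ} {H : Fin n → X → P} {Q : X → P} (hH : ∀ j, ContinuousOn (H j) S)
    (hQ : ContinuousOn Q S) (m : Fin n → ℤ) (hc : ContinuousOn (fun x => monP H m x * Q x ^ N) S) :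
    mkS S (fun x => monP H m x * Q x ^ N) hc = (∏ j, (mkS S (H j) (hH j)) ^ m j) * (mkS S Q hQ) ^ N := by
  ext x
  rw [ContinuousMap.mul_apply, ContinuousMap.prod_apply, ContinuousMap.pow_apply]
  simp only [ContinuousMap.zpow_apply]
  rfl

theorem dep_transferP {S : Set X} {n N : ℕ} (hdep : ¬ HasIndepP ↥S P N n)
    (H : Fin n → X → P) (hc : ∀ j, ContinuousOn (H j) S) :
    ∃ m : Fin n → ℤ, (¬ ∀ j, (N : ℤ) ∣ m j) ∧ NulN N S (monP H m) := by
  classical
  unfold HasIndepP at hdep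
  push Not at hdep
  obtain ⟨m, q, hh, hm⟩ := hdep (fun j => mkS S (H j) (hc j))
  let Q : X → P := fun x => if hx : x ∈ S then q ⟨x, hx⟩ else 1
  have hQ : ContinuousOn Q S := by
    rw [continuousOn_iff_continuous_domRestrict]
    have : S.domRestrict Q = q := by
      funext x
      change (if hx : x.1 ∈ S then q ⟨x.1, hx⟩ else 1) = q x
      rw [dif_pos x.2]
    rw [this]
    exact q.continuous
  have hq : mkS S Q hQ = q := by
    ext x
    change (if hx : x.1 ∈ S then q ⟨x.1, hx⟩ else 1) = q x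
    rw [dif_pos x.2]
  have hcc : ContinuousOn (fun x => monP H m x * Q x ^ N) S := (monP_cont hc m).mul (hQ.pow N)
  refine ⟨m, by push Not; exact hm, Q, hQ, hcc, continuousOn_const, ?_⟩
  rw [mk_mon hc hQ m hcc, hq]
  exact hh

theorem ind_transferP (hR : Ret P ι W i r) {S : Set X} (hS : IsClosed S) {n N : ℕ}
    (hind : HasIndepP ↥S P N n) {D : Set C(X, ι → ℝ)} (hD : Dense D) :
    ∃ G : Fin n → C(X, ι → ℝ), (∀ j, G j ∈ D) ∧ (∀ j, ∀ x ∈ S, G j x ∈ W) ∧
      ∀ m : Fin n → ℤ, NulN N S (monP (fun j x => r (G j x)) m) → ∀ j, (N : ℤ) ∣ m j := by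
  obtain ⟨g, hg⟩ := hind
  have := fun j => approx hR hS (g j) hD
  choose G hG1 hG2 hG3 hG4 using this
  refine ⟨G, hG1, hG2, ?_⟩
  rintro m ⟨Q, hQ, h1, h2, h3⟩
  apply hg m (mkS S Q hQ)
  rw [mk_mon hG3 hQ m h1] at h3
  refine (htp_mul (htp_prod fun j => htp_zpow (hG4 j) (m j)) (ContinuousMap.Homotopic.refl _)).trans h3

/-- The main theorem for groups. -/
theorem meagre_rankP [PathConnectedSpace P] (h : KMap X f) (hP : IsNR P) {N : ℕ} (hN : N = 0 ∨ N.Prime)
    (V : Set unitInterval) (hV : IsOpen V) (n : ℕ) (hb : ∀ t ∈ V, ¬ HasIndepP ↥(f ⁻¹' {t}) P N (n + 2)) :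
    IsMeagre {t | t ∈ V ∧ HasIndepP ↥(f ⁻¹' {t}) P N (n + 1)} := by
  obtain ⟨ι, hι, W, i, r, hR⟩ := hP.ret
  obtain ⟨D, hDc, hDd⟩ := exists_countable_dense C(X, ι → ℝ)
  let I : Set (Fin (n + 1) → C(X, ι → ℝ)) := Set.pi univ (fun _ => D)
  have hI : I.Countable := Set.countable_univ_pi (fun _ => hDc)
  refine IsMeagre.mono ?_ (isMeagre_biUnion hI (f := fun G =>
    {t | t ∈ V ∧ (∀ j, ∀ x ∈ f ⁻¹' {t}, G j x ∈ W) ∧ ∀ m : Fin (n + 1) → ℤ,
      NulN N (f ⁻¹' {t}) (monP (fun j x => r (G j x)) m) → ∀ j, (N : ℤ) ∣ m j}) ?_)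
  · rintro t ⟨ht, hi⟩
    obtain ⟨G, hG1, hG2, hG3⟩ := ind_transferP hR (isClosed_singleton.preimage h.cont) hi hDd
    exact mem_biUnion (x := G) (fun j _ => hG1 j) ⟨ht, hG2, hG3⟩
  · intro G hG
    apply IsNowhereDense.isMeagre
    rw [isNowhereDense_iff_forall_notMem_nhds]
    rintro t ⟨ht, hti⟩ hcl
    have hadm : ∀ᶠ s in 𝓝 t, ∀ j, ∀ x ∈ f ⁻¹' {s}, G j x ∈ W := by
      rw [Filter.eventually_all]
      intro j
      exact eventually_adm hR h.cont (G j).continuous (hti.1 j)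
    have hO : IsOpen (⋂ j, (G j) ⁻¹' W) := isOpen_iInter_of_finite fun j => hR.opn.preimage (G j).continuous
    have hGc : ∀ j, ContinuousOn (fun x => r (G j x)) (⋂ j, (G j) ⁻¹' W) := by
      intro j
      refine hR.comp_cont (G j).continuous.continuousOn (fun x hx => ?_)
      rw [mem_iInter] at hx
      exact hx j
    have hN' : {s | s ∈ V ∧ (∀ j, ∀ x ∈ f ⁻¹' {s}, G j x ∈ W) ∧ ∀ m : Fin (n + 1) → ℤ,
        NulN N (f ⁻¹' {s}) (monP (fun j x => r (G j x)) m) → ∀ j, (N : ℤ) ∣ m j} ∈ 𝓝 t := by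
      filter_upwards [hcl, hV.mem_nhds ht, hadm] with s hs1 hs2 hs3
      refine ⟨hs2, hs3, ?_⟩
      intro m hm
      obtain ⟨q, hq1, hq2⟩ := mem_closure_iff_nhds.mp hs1 _
        (open_relP hR h.cont hO hGc m (fun x hx => by
          rw [mem_iInter]
          exact fun j => hs3 j x hx) hm)
      exact hq2.2.2 m hq1
    obtain ⟨α, β, hab, hsub⟩ := exists_Icc hN'
    refine no_rankP h hR hN hab (fun j => (G j).continuous) (fun s hs => (hsub hs).2.1)
      (fun s hs => (hsub hs).2.2) ?_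
    intro s hs H hHc
    exact dep_transferP (hb s (hsub hs).1) H hHc

omit [CompactSpace X] in
theorem hasIndepP_homeo {K L : Type*} [TopologicalSpace K] [TopologicalSpace L] (e : K ≃ₜ L) {N n : ℕ}
    (h : HasIndepP L P N n) : HasIndepP K P N n := by
  obtain ⟨g, hg⟩ := h
  refine ⟨fun j => (g j).comp (e : C(K, L)), ?_⟩
  intro m q hi
  refine hg m (q.comp (e.symm : C(L, K))) ?_
  have h1 := hi.comp (ContinuousMap.Homotopic.refl (e.symm : C(L, K)))
  have h2 : (((∏ j, (fun j => (g j).comp (e : C(K, L))) j ^ m j) * q ^ N : C(K, P))).comp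
      (e.symm : C(L, K)) = (∏ j, g j ^ m j) * (q.comp (e.symm : C(L, K))) ^ N := by
    ext x
    simp only [ContinuousMap.comp_apply, ContinuousMap.mul_apply, ContinuousMap.prod_apply,
      ContinuousMap.zpow_apply, ContinuousMap.pow_apply]
    simp
  rw [h2] at h1
  exact h1

omit [CompactSpace X] in
theorem hasIndepP_mono {K : Type*} [TopologicalSpace K] {N n : ℕ} (h : HasIndepP K P N (n + 1)) :
    HasIndepP K P N n := by
  obtain ⟨g, hg⟩ := h
  refine ⟨fun j => g j.succ, fun m q hi j => ?_⟩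
  have := hg (Fin.cons 0 m) q ?_ j.succ
  · simpa using this
  · rw [Fin.prod_univ_succ]
    simpa using hi

end metric

end Pool.Agent.H66.KN
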