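import Pool.Agent.H66.KN.Joining

set_option autoImplicit false

namespace Pool.Agent.H66.KN

open Set Topology TopologicalSpace

/-- `P` is a retract of an open subset of a countable power of the real line. All absolute
neighbourhood retracts which are Polish spaces have this property. -/
def IsNR (P : Type*) [TopologicalSpace P] : Prop :=
  ∃ (ι : Type) (_ : Countable ι) (W : Set (ι → ℝ)) (i : C(P, W)) (r : C(W, P)),
    IsOpen W ∧ ∀ p, r (i p) = p

/-- There are `n` pairwise non-homotopic maps of `K` to `P`. -/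
def HasClasses (K P : Type*) [TopologicalSpace K] [TopologicalSpace P] (n : ℕ) : Prop :=
  ∃ g : Fin n → C(K, P), ∀ i j, i ≠ j → ¬ (g i).Homotopic (g j)

section HSdef

variable {X P : Type*} [TopologicalSpace X] [TopologicalSpace P] {S T : Set X} {u v w : X → P}

/-- the restriction of `u` to `S` as a continuous map -/
def mkS (S : Set X) (u : X → P) (hu : ContinuousOn u S) : C(↥S, P) :=
  ⟨fun x => u x.1, continuousOn_iff_continuous_domRestrict.mp hu⟩

/-- `u` and `v` are continuous on `S` and homotopic there -/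
def HS (S : Set X) (u v : X → P) : Prop :=
  ∃ (hu : ContinuousOn u S) (hv : ContinuousOn v S), (mkS S u hu).Homotopic (mkS S v hv)

theorem HS.refl (hu : ContinuousOn u S) : HS S u u := ⟨hu, hu, ContinuousMap.Homotopic.refl _⟩

theorem HS.symm (h : HS S u v) : HS S v u := by
  obtain ⟨h1, h2, h3⟩ := h
  exact ⟨h2, h1, h3.symm⟩

theorem HS.trans (h : HS S u v) (h' : HS S v w) : HS S u w := by
  obtain ⟨h1, h2, h3⟩ := h
  obtain ⟨h4, h5, h6⟩ := h'
  exact ⟨h1, h5, h3.trans h6⟩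

theorem HS.of_eq (hu : ContinuousOn u S) (h : ∀ x ∈ S, v x = u x) : HS S u v := by
  have hv : ContinuousOn v S := hu.congr h
  refine ⟨hu, hv, ?_⟩
  have : mkS S u hu = mkS S v hv := by
    ext x
    exact (h x.1 x.2).symm
  rw [this]

theorem HS.mono (h : HS S u v) (hT : T ⊆ S) : HS T u v := by
  obtain ⟨h1, h2, h3⟩ := h
  refine ⟨h1.mono hT, h2.mono hT, ?_⟩
  exact h3.comp (ContinuousMap.Homotopic.refl (⟨Set.inclusion hT, continuous_inclusion hT⟩ : C(↥T, ↥S)))

theorem HS.of_family (Φ : X × unitInterval → P) (hΦ : ContinuousOn Φ (S ×ˢ univ))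
    (h0 : ∀ x ∈ S, Φ (x, 0) = u x) (h1 : ∀ x ∈ S, Φ (x, 1) = v x) : HS S u v := by
  have hc : ∀ s : unitInterval, ContinuousOn (fun x => Φ (x, s)) S := by
    intro s
    exact hΦ.comp (by fun_prop) (fun x hx => ⟨hx, trivial⟩)
  have hu : ContinuousOn u S := (hc 0).congr (fun x hx => (h0 x hx).symm)
  have hv : ContinuousOn v S := (hc 1).congr (fun x hx => (h1 x hx).symm)
  refine ⟨hu, hv, ⟨⟨⟨fun p => Φ (p.2.1, p.1), ?_⟩, ?_, ?_⟩⟩⟩
  · exact hΦ.comp_continuous (by fun_prop) (fun p => ⟨p.2.2, trivial⟩)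
  · intro x; exact h0 x.1 x.2
  · intro x; exact h1 x.1 x.2

end HSdef

theorem isOpen_tube {X : Type*} [TopologicalSpace X] {T : Set (X × unitInterval)} (hT : IsOpen T) :
    IsOpen {x : X | ∀ s, (x, s) ∈ T} := by
  have h1 : IsClosed (Prod.fst '' Tᶜ) := isClosedMap_fst_of_compactSpace _ hT.isClosed_compl
  have h2 : {x : X | ∀ s, (x, s) ∈ T} = (Prod.fst '' Tᶜ)ᶜ := by
    ext x
    simp only [mem_setOf_eq, mem_compl_iff, mem_image, Prod.exists, exists_and_right, exists_eq_right,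
      not_exists, not_not]
  rw [h2]
  exact h1.isOpen_compl

/-- The data of a neighbourhood retract, with a total retraction. -/
structure Ret (P : Type*) [TopologicalSpace P] (ι : Type) (W : Set (ι → ℝ)) (i : P → (ι → ℝ))
    (r : (ι → ℝ) → P) : Prop where
  opn : IsOpen W
  icont : Continuous i
  rcont : ContinuousOn r W
  imem : ∀ p, i p ∈ W
  ri : ∀ p, r (i p) = p

theorem IsNR.ret {P : Type*} [TopologicalSpace P] [Nonempty P] (h : IsNR P) :
    ∃ (ι : Type) (_ : Countable ι) (W : Set (ι → ℝ)) (i : P → (ι → ℝ)) (r : (ι → ℝ) → P),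
      Ret P ι W i r := by
  classical
  obtain ⟨ι, hι, W, i, r, hW, hr⟩ := h
  refine ⟨ι, hι, W, fun p => (i p : ι → ℝ), fun e => if h : e ∈ W then r ⟨e, h⟩ else Classical.arbitrary P,
    hW, continuous_subtype_val.comp i.continuous, ?_, fun p => (i p).2, ?_⟩
  · rw [continuousOn_iff_continuous_domRestrict]
    have : W.domRestrict (fun e => if h : e ∈ W then r ⟨e, h⟩ else Classical.arbitrary P) = r := by
      funext e
      change (if h : e.1 ∈ W then r ⟨e.1, h⟩ else Classical.arbitrary P) = r e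
      rw [dif_pos e.2]
    rw [this]
    exact r.continuous
  · intro p
    change (if h : (i p : ι → ℝ) ∈ W then r ⟨_, h⟩ else Classical.arbitrary P) = p
    rw [dif_pos (i p).2]
    exact hr p

section ret

variable {X P : Type*} [TopologicalSpace X] [TopologicalSpace P] {ι : Type} {W : Set (ι → ℝ)}
  {i : P → (ι → ℝ)} {r : (ι → ℝ) → P} {S : Set X}

theorem Ret.comp_cont (hR : Ret P ι W i r) {u : X → (ι → ℝ)} (hu : ContinuousOn u S)
    (hm : ∀ x ∈ S, u x ∈ W) : ContinuousOn (fun x => r (u x)) S := hR.rcont.comp hu hm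

/-- close maps are homotopic -/
theorem Ret.close (hR : Ret P ι W i r) {u v : X → (ι → ℝ)} (hu : ContinuousOn u S)
    (hv : ContinuousOn v S) (h : ∀ x ∈ S, ∀ s : unitInterval, (1 - (s : ℝ)) • u x + (s : ℝ) • v x ∈ W) :
    HS S (fun x => r (u x)) (fun x => r (v x)) := by
  refine HS.of_family (fun p => r ((1 - (p.2 : ℝ)) • u p.1 + (p.2 : ℝ) • v p.1)) ?_ ?_ ?_
  · refine hR.rcont.comp ?_ (fun p hp => h p.1 hp.1 p.2)
    have h1 : ContinuousOn (fun p : X × unitInterval => u p.1) (S ×ˢ univ) :=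
      hu.comp continuousOn_fst (fun p hp => hp.1)
    have h2 : ContinuousOn (fun p : X × unitInterval => v p.1) (S ×ˢ univ) :=
      hv.comp continuousOn_fst (fun p hp => hp.1)
    have h3 : ContinuousOn (fun p : X × unitInterval => ((p.2 : unitInterval) : ℝ)) (S ×ˢ univ) := by fun_prop
    exact ((continuousOn_const.sub h3).smul h1).add (h3.smul h2)
  · intro x _; simp
  · intro x _; simp

/-- maps which stay together in convex subsets of `W` are homotopic -/
theorem Ret.close' (hR : Ret P ι W i r) {u v : X → (ι → ℝ)} (hu : ContinuousOn u S)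
    (hv : ContinuousOn v S) (h : ∀ x ∈ S, ∃ C ⊆ W, Convex ℝ C ∧ u x ∈ C ∧ v x ∈ C) :
    HS S (fun x => r (u x)) (fun x => r (v x)) := by
  refine hR.close hu hv (fun x hx s => ?_)
  obtain ⟨C, hCW, hC, h1, h2⟩ := h x hx
  exact hCW (hC h1 h2 (by linarith [s.2.2]) s.2.1 (by ring))

theorem Ret.cvx (hR : Ret P ι W i r) {e : ι → ℝ} (he : e ∈ W) :
    ∃ C ∈ 𝓝 e, C ⊆ W ∧ Convex ℝ C := by
  obtain ⟨C, ⟨h1, h2⟩, h3⟩ := (LocallyConvexSpace.convex_basis (𝕜 := ℝ) e).mem_iff.mp (hR.opn.mem_nhds he)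
  exact ⟨C, h1, h3, h2⟩

end ret

section metric

variable {X : Type*} [MetricSpace X] [CompactSpace X] {f : X → unitInterval}
  {P : Type*} [TopologicalSpace P] {ι : Type} [Countable ι] {W : Set (ι → ℝ)}
  {i : P → (ι → ℝ)} {r : (ι → ℝ) → P}

theorem eventually_adm (hR : Ret P ι W i r) (hf : Continuous f) {t : unitInterval} {G : X → (ι → ℝ)}
    (hG : Continuous G) (h : ∀ x ∈ f ⁻¹' {t}, G x ∈ W) : ∀ᶠ s in 𝓝 t, ∀ x ∈ f ⁻¹' {s}, G x ∈ W := by
  filter_upwards [eventually_fib_subset hf isClosed_univ (hR.opn.preimage hG)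
    (by rw [inter_univ]; exact h)] with s hs x hx
  exact hs ⟨hx, trivial⟩

omit [Countable ι] in
/-- a map to `P` near a fibre agrees up to homotopy with an extension -/
theorem eventually_ext (hR : Ret P ι W i r) (hf : Continuous f) {t : unitInterval} {O : Set X}
    (hO : IsOpen O) {u : X → P} (hu : ContinuousOn u O) (hF : f ⁻¹' {t} ⊆ O) {Ψ : X → (ι → ℝ)}
    (hΨ : Continuous Ψ) (he : ∀ x ∈ f ⁻¹' {t}, Ψ x = i (u x)) :
    ∀ᶠ s in 𝓝 t, HS (f ⁻¹' {s}) u (fun x => r (Ψ x)) := by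
  let θ : X × unitInterval → (ι → ℝ) := fun p => (1 - (p.2 : ℝ)) • i (u p.1) + (p.2 : ℝ) • Ψ p.1
  have hiu : ContinuousOn (fun x => i (u x)) O := hR.icont.comp_continuousOn hu
  have hθ : ContinuousOn θ (O ×ˢ univ) := by
    have h1 : ContinuousOn (fun p : X × unitInterval => i (u p.1)) (O ×ˢ univ) :=
      hiu.comp continuousOn_fst (fun p hp => hp.1)
    have h2 : ContinuousOn (fun p : X × unitInterval => Ψ p.1) (O ×ˢ univ) := by fun_prop
    have h3 : ContinuousOn (fun p : X × unitInterval => ((p.2 : unitInterval) : ℝ)) (O ×ˢ univ) := by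
      fun_prop
    exact ((continuousOn_const.sub h3).smul h1).add (h3.smul h2)
  have hT : IsOpen ((O ×ˢ (univ : Set unitInterval)) ∩ θ ⁻¹' W) :=
    hθ.isOpen_inter_preimage (hO.prod isOpen_univ) hR.opn
  have hN := isOpen_tube hT
  filter_upwards [eventually_fib_subset hf isClosed_univ hN (by
    rw [inter_univ]
    intro x hx s
    refine ⟨⟨hF hx, trivial⟩, ?_⟩
    change (1 - (s : ℝ)) • i (u x) + (s : ℝ) • Ψ x ∈ W
    rw [he x hx, ← add_smul]
    have : (1 - (s : ℝ) + s) = 1 := by ring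
    rw [this, one_smul]
    exact hR.imem _)] with s hs
  have hadm : f ⁻¹' {s} ⊆ O := fun x hx => ((hs ⟨hx, trivial⟩) 0).1.1
  have h1 : HS (f ⁻¹' {s}) u (fun x => r (i (u x))) :=
    HS.of_eq (hu.mono hadm) (fun x _ => hR.ri _)
  refine h1.trans (hR.close (hiu.mono hadm) hΨ.continuousOn ?_)
  intro x hx c
  exact ((hs ⟨hx, trivial⟩) c).2

omit [Countable ι] in
/-- homotopies extend to nearby fibres -/
theorem open_HS (hR : Ret P ι W i r) (hf : Continuous f) {t : unitInterval} {O : Set X}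
    (hO : IsOpen O) {u v : X → P} (hu : ContinuousOn u O) (hv : ContinuousOn v O) (hF : f ⁻¹' {t} ⊆ O)
    (h : HS (f ⁻¹' {t}) u v) : ∀ᶠ s in 𝓝 t, HS (f ⁻¹' {s}) u v := by
  obtain ⟨hu', hv', ⟨Φ⟩⟩ := h
  have hZ : IsClosed {p : X × unitInterval | p.1 ∈ f ⁻¹' {t}} :=
    (isClosed_singleton.preimage hf).preimage continuous_fst
  obtain ⟨Ψ, hΨ⟩ := ContinuousMap.exists_restrict_eq hZ
    (⟨fun p => i (Φ (p.1.2, ⟨p.1.1, p.2⟩)), by
      refine hR.icont.comp (Φ.continuous.comp ?_)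
      refine Continuous.prodMk (by fun_prop) ?_
      exact Continuous.subtype_mk (by fun_prop) _⟩ : C({p : X × unitInterval | p.1 ∈ f ⁻¹' {t}}, ι → ℝ))
  have hΨ' : ∀ x (hx : x ∈ f ⁻¹' {t}) (s : unitInterval), Ψ (x, s) = i (Φ (s, ⟨x, hx⟩)) := by
    intro x hx s
    exact congrArg (fun g : C({p : X × unitInterval | p.1 ∈ f ⁻¹' {t}}, ι → ℝ) => g ⟨(x, s), hx⟩) hΨ
  have h0 : ∀ x ∈ f ⁻¹' {t}, Ψ (x, 0) = i (u x) := by
    intro x hx
    rw [hΨ' x hx 0, Φ.apply_zero]
    rfl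
  have h1 : ∀ x ∈ f ⁻¹' {t}, Ψ (x, 1) = i (v x) := by
    intro x hx
    rw [hΨ' x hx 1, Φ.apply_one]
    rfl
  have e1 := eventually_ext hR hf hO hu hF (Ψ := fun x => Ψ (x, 0)) (by fun_prop) h0
  have e2 := eventually_ext hR hf hO hv hF (Ψ := fun x => Ψ (x, 1)) (by fun_prop) h1
  have hT := isOpen_tube (hR.opn.preimage Ψ.continuous)
  filter_upwards [e1, e2, eventually_fib_subset hf isClosed_univ hT (by
    rw [inter_univ]
    intro x hx s
    change Ψ (x, s) ∈ W
    rw [hΨ' x hx s]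
    exact hR.imem _)] with s hs1 hs2 hs3
  refine (hs1.trans ?_).trans hs2.symm
  refine HS.of_family (fun p => r (Ψ p)) ?_ (fun _ _ => rfl) (fun _ _ => rfl)
  refine hR.rcont.comp Ψ.continuous.continuousOn ?_
  intro p hp
  exact hs3 ⟨hp.1, trivial⟩ p.2

omit [Countable ι] in
theorem open_htp (hR : Ret P ι W i r) (hf : Continuous f) {t : unitInterval} {G H : X → (ι → ℝ)}
    (hG : Continuous G) (hH : Continuous H) (hGW : ∀ x ∈ f ⁻¹' {t}, G x ∈ W)
    (hHW : ∀ x ∈ f ⁻¹' {t}, H x ∈ W)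
    (h : HS (f ⁻¹' {t}) (fun x => r (G x)) (fun x => r (H x))) :
    ∀ᶠ s in 𝓝 t, HS (f ⁻¹' {s}) (fun x => r (G x)) (fun x => r (H x)) :=
  open_HS hR hf ((hR.opn.preimage hG).inter (hR.opn.preimage hH))
    (hR.comp_cont hG.continuousOn (fun _ hx => hx.1)) (hR.comp_cont hH.continuousOn (fun _ hx => hx.2))
    (fun x hx => ⟨hGW x hx, hHW x hx⟩) h

/-- approximation by members of a dense family -/
theorem approx (hR : Ret P ι W i r) {S : Set X} (hS : IsClosed S) (g : C(↥S, P))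
    {D : Set C(X, ι → ℝ)} (hD : Dense D) :
    ∃ G ∈ D, (∀ x ∈ S, G x ∈ W) ∧ ∃ hc : ContinuousOn (fun x => r (G x)) S,
      g.Homotopic (mkS S (fun x => r (G x)) hc) := by
  obtain ⟨E, hE⟩ := ContinuousMap.exists_restrict_eq hS
    (⟨fun x => i (g x), hR.icont.comp g.continuous⟩ : C(↥S, ι → ℝ))
  have hE' : ∀ x (hx : x ∈ S), E x = i (g ⟨x, hx⟩) := by
    intro x hx
    exact congrArg (fun G : C(↥S, ι → ℝ) => G ⟨x, hx⟩) hE
  have hEW : ∀ x ∈ S, E x ∈ W := by
    intro x hx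
    rw [hE' x hx]; exact hR.imem _
  have hcomp : IsCompact (E '' S) := hS.isCompact.image E.continuous
  obtain ⟨N0, hN0, hN1⟩ := compact_open_separated_add_right hcomp hR.opn (by
    rintro _ ⟨x, hx, rfl⟩
    exact hEW x hx)
  obtain ⟨N, ⟨hNn, hNc⟩, hNN⟩ := (LocallyConvexSpace.convex_basis_zero ℝ (ι → ℝ)).mem_iff.mp hN0
  have hopen : IsOpen {h : C(X, ι → ℝ) | MapsTo h S (interior N)} :=
    ContinuousMap.isOpen_setOfPred_mapsTo hS.isCompact isOpen_interior
  have hcont : Continuous (fun G : C(X, ι → ℝ) => G - E) := continuous_id.sub continuous_const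
  obtain ⟨G, hG2, hG1⟩ := hD.inter_open_nonempty _ (hopen.preimage hcont) ⟨E, by
    intro x hx
    change (E - E) x ∈ interior N
    rw [sub_self]
    exact mem_interior_iff_mem_nhds.mpr hNn⟩
  have hd : ∀ x ∈ S, G x - E x ∈ N := fun x hx => interior_subset (hG2 hx)
  have hsub : ∀ x ∈ S, (fun e => E x + e) '' N ⊆ W := by
    rintro x hx _ ⟨e, he, rfl⟩
    exact hN1 (Set.add_mem_add (mem_image_of_mem E hx) (hNN he))
  have hGC : ∀ x ∈ S, G x ∈ (fun e => E x + e) '' N := fun x hx => ⟨_, hd x hx, by simp⟩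
  refine ⟨G, hG1, fun x hx => hsub x hx (hGC x hx), ?_⟩
  obtain ⟨h1, h2, h3⟩ := hR.close' (S := S) E.continuous.continuousOn G.continuous.continuousOn
    (fun x hx => ⟨_, hsub x hx, by
      have := hNc.translate (E x)
      exact this, ⟨0, mem_of_mem_nhds hNn, by simp⟩, hGC x hx⟩)
  refine ⟨h2, ?_⟩
  have : g = mkS S (fun x => r (E x)) h1 := by
    ext x
    change g x = r (E x.1)
    rw [hE' x.1 x.2, hR.ri]
  rw [this]
  exact h3

/-- The barrier: two maps of the part of `X` between two fibres to the path connected space `P` can be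
combined into one map which agrees with the first on the left and with the second on the right. -/
theorem barrier_htp [PathConnectedSpace P] (h : KMap X f) (hR : Ret P ι W i r) {α β : unitInterval}
    (hab : α < β) {G1 G2 : X → (ι → ℝ)} (hG1 : Continuous G1) (hG2 : Continuous G2)
    (hW1 : ∀ x ∈ f ⁻¹' (Icc α β), G1 x ∈ W) (hW2 : ∀ x ∈ f ⁻¹' (Icc α β), G2 x ∈ W) :
    ∃ H : X → (ι → ℝ), Continuous H ∧ (∀ x ∈ f ⁻¹' (Icc α β), H x ∈ W) ∧
      (∀ x ∈ f ⁻¹' {α}, r (H x) = r (G1 x)) ∧ (∀ x ∈ f ⁻¹' {β}, r (H x) = r (G2 x)) := by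
  classical
  have hαI : α ∈ Icc α β := left_mem_Icc.mpr hab.le
  have hβI : β ∈ Icc α β := right_mem_Icc.mpr hab.le
  obtain ⟨γ, hγ1, hγ2⟩ := exists_between hab
  obtain ⟨x0, hx0⟩ := h.surj γ
  have hx0I : x0 ∈ f ⁻¹' (Icc α β) := by
    change f x0 ∈ Icc α β
    rw [hx0]; exact ⟨hγ1.le, hγ2.le⟩
  have hx0o : x0 ∈ f ⁻¹' (Ioo α β) := by
    change f x0 ∈ Ioo α β
    rw [hx0]; exact ⟨hγ1, hγ2⟩
  -- a small closed ball
  obtain ⟨C1, hC1, hb1, hc1'⟩ := hR.cvx (hW1 x0 hx0I)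
  obtain ⟨C2, hC2, hb2, hc2'⟩ := hR.cvx (hW2 x0 hx0I)
  have hnb : (f ⁻¹' (Ioo α β) ∩ (G1 ⁻¹' C1 ∩ G2 ⁻¹' C2)) ∈ 𝓝 x0 :=
    Filter.inter_mem ((isOpen_Ioo.preimage h.cont).mem_nhds hx0o)
      (Filter.inter_mem (hG1.continuousAt.preimage_mem_nhds hC1) (hG2.continuousAt.preimage_mem_nhds hC2))
  obtain ⟨ε, hε, hV⟩ := Metric.nhds_basis_closedBall.mem_iff.mp hnb
  set V : Set X := Metric.closedBall x0 ε with hVdef
  set O : Set X := Metric.ball x0 ε with hOdef
  have hOV : O ⊆ V := Metric.ball_subset_closedBall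
  have hVcl : IsClosed V := Metric.isClosed_closedBall
  have hx0O : x0 ∈ O := Metric.mem_ball_self hε
  set M : Set X := f ⁻¹' (Icc α β) ∩ Oᶜ with hM
  have hMcl : IsClosed M := (isClosed_Icc.preimage h.cont).inter Metric.isOpen_ball.isClosed_compl
  obtain ⟨A, B, hA, hB, hAB, hd, hPA, hQB⟩ := cutwire (S := M) (P := f ⁻¹' {α}) (Q := f ⁻¹' {β})
    hMcl (isClosed_singleton.preimage h.cont) (isClosed_singleton.preimage h.cont) (by
      rintro x ⟨hxM, hxα⟩
      rw [Set.disjoint_left]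
      intro y hy hyβ
      have hsub := h.cross (C := connectedComponentIn M x) (isClosed_compIn hMcl x)
        (isConnected_connectedComponentIn_iff.mpr hxM) ⟨x, mem_connectedComponentIn hxM, hxα⟩
        ⟨y, hy, hyβ⟩
      exact ((connectedComponentIn_subset M x) (hsub hx0o)).2 hx0O)
  obtain ⟨lam, hl0, hl1, hl⟩ := exists_continuous_zero_one_of_isClosed hA hB hd
  have hfα : f ⁻¹' {α} ⊆ A := by
    intro x hx
    refine hPA ⟨⟨?_, ?_⟩, hx⟩
    · change f x ∈ Icc α β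
      rw [show f x = α from hx]; exact hαI
    · intro hxO
      have : f x ∈ Ioo α β := (hV (hOV hxO)).1
      rw [show f x = α from hx] at this
      exact lt_irrefl _ this.1
  have hfβ : f ⁻¹' {β} ⊆ B := by
    intro x hx
    refine hQB ⟨⟨?_, ?_⟩, hx⟩
    · change f x ∈ Icc α β
      rw [show f x = β from hx]; exact hβI
    · intro hxO
      have : f x ∈ Ioo α β := (hV (hOV hxO)).1
      rw [show f x = β from hx] at this
      exact lt_irrefl _ this.2
  -- the homotopy on the ball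
  have hc1 : HS V (fun x => r (G1 x)) (fun _ => r (G1 x0)) := by
    have := hR.close' (S := V) (u := fun _ => G1 x0) (v := G1) continuousOn_const hG1.continuousOn
      (fun x hx => ⟨C1, hb1, hc1', mem_of_mem_nhds hC1, (hV hx).2.1⟩)
    exact this.symm
  have hc2 : HS V (fun x => r (G2 x)) (fun _ => r (G2 x0)) := by
    have := hR.close' (S := V) (u := fun _ => G2 x0) (v := G2) continuousOn_const hG2.continuousOn
      (fun x hx => ⟨C2, hb2, hc2', mem_of_mem_nhds hC2, (hV hx).2.2⟩)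
    exact this.symm
  have hc3 : HS V (fun _ => r (G1 x0)) (fun _ => r (G2 x0)) := by
    obtain ⟨γ⟩ := PathConnectedSpace.joined (r (G1 x0)) (r (G2 x0))
    refine HS.of_family (fun p => γ p.2) ?_ ?_ ?_
    · exact (γ.continuous.comp continuous_snd).continuousOn
    · intro x _; exact γ.source
    · intro x _; exact γ.target
  obtain ⟨hu, hv, ⟨F⟩⟩ := (hc1.trans hc3).trans hc2.symm
  let lam' : X → unitInterval := fun x => ⟨lam x, hl x⟩
  have hlam' : Continuous lam' := Continuous.subtype_mk lam.continuous _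
  -- the combined map
  let H0 : X → (ι → ℝ) := fun x =>
    if x ∈ A then i (r (G1 x)) else if x ∈ B then i (r (G2 x)) else
      if hx : x ∈ V then i (F (lam' x, ⟨x, hx⟩)) else 0
  have hIA : A ⊆ f ⁻¹' (Icc α β) := fun x hx => by
    have : x ∈ M := by rw [← hAB]; exact Or.inl hx
    exact this.1
  have hIB : B ⊆ f ⁻¹' (Icc α β) := fun x hx => by
    have : x ∈ M := by rw [← hAB]; exact Or.inr hx
    exact this.1
  have hH0A : ∀ x ∈ A, H0 x = i (r (G1 x)) := fun x hx => if_pos hx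
  have hH0B : ∀ x ∈ B, H0 x = i (r (G2 x)) := by
    intro x hx
    have hxA : x ∉ A := fun hxA => Set.disjoint_left.mp hd hxA hx
    simp only [H0]
    rw [if_neg hxA, if_pos hx]
  have hH0V : ∀ x (hx : x ∈ V), H0 x = i (F (lam' x, ⟨x, hx⟩)) := by
    intro x hx
    by_cases hxA : x ∈ A
    · rw [hH0A x hxA]
      have e : lam' x = 0 := Subtype.ext (hl0 hxA)
      rw [e, F.apply_zero]
      rfl
    · by_cases hxB : x ∈ B
      · rw [hH0B x hxB]
        have e : lam' x = 1 := Subtype.ext (hl1 hxB)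
        rw [e, F.apply_one]
        rfl
      · simp only [H0]
        rw [if_neg hxA, if_neg hxB, dif_pos hx]
  have hcA : ContinuousOn H0 A :=
    (hR.icont.comp_continuousOn (hR.comp_cont hG1.continuousOn (fun x hx => hW1 x (hIA hx)))).congr hH0A
  have hcB : ContinuousOn H0 B :=
    (hR.icont.comp_continuousOn (hR.comp_cont hG2.continuousOn (fun x hx => hW2 x (hIB hx)))).congr hH0B
  have hcV : ContinuousOn H0 V := by
    rw [continuousOn_iff_continuous_domRestrict]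
    have : V.domRestrict H0 = fun x : ↥V => i (F (lam' x.1, x)) := by
      funext x
      exact hH0V x.1 x.2
    rw [this]
    exact hR.icont.comp (F.continuous.comp ((hlam'.comp continuous_subtype_val).prodMk continuous_id))
  have hcont0 : ContinuousOn H0 ((A ∪ B) ∪ V) :=
    (hcA.union_of_isClosed hcB hA hB).union_of_isClosed hcV (hA.union hB) hVcl
  have hsubI : f ⁻¹' (Icc α β) ⊆ (A ∪ B) ∪ V := by
    intro x hx
    by_cases hxO : x ∈ O
    · exact Or.inr (hOV hxO)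
    · left; rw [hAB]; exact ⟨hx, hxO⟩
  have hIcl : IsClosed (f ⁻¹' (Icc α β)) := isClosed_Icc.preimage h.cont
  have hcontI : ContinuousOn H0 (f ⁻¹' (Icc α β)) := hcont0.mono hsubI
  obtain ⟨H, hH⟩ := ContinuousMap.exists_restrict_eq hIcl
    (⟨_, hcontI.domRestrict⟩ : C(f ⁻¹' (Icc α β), ι → ℝ))
  have hH' : ∀ x ∈ f ⁻¹' (Icc α β), H x = H0 x := by
    intro x hx
    exact congrArg (fun g : C(f ⁻¹' (Icc α β), ι → ℝ) => g ⟨x, hx⟩) hH
  refine ⟨H, H.continuous, ?_, ?_, ?_⟩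
  · intro x hx
    rw [hH' x hx]
    rcases hsubI hx with (h1 | h1) | h1
    · rw [hH0A x h1]; exact hR.imem _
    · rw [hH0B x h1]; exact hR.imem _
    · rw [hH0V x h1]; exact hR.imem _
  · intro x hx
    rw [hH' x (hIA (hfα hx)), hH0A x (hfα hx), hR.ri]
  · intro x hx
    rw [hH' x (hIB (hfβ hx)), hH0B x (hfβ hx), hR.ri]

/-- The functions `G j` map `S` to `W` and their retractions are pairwise not homotopic there. -/
def IndH {X : Type*} [TopologicalSpace X] {P : Type*} [TopologicalSpace P] {ι : Type}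
    (W : Set (ι → ℝ)) (r : (ι → ℝ) → P) {n : ℕ} (S : Set X) (G : Fin n → X → (ι → ℝ)) : Prop :=
  (∀ j, ∀ x ∈ S, G j x ∈ W) ∧ ∀ j k, j ≠ k → ¬ HS S (fun x => r (G j x)) (fun x => r (G k x))

theorem no_interval_htp [PathConnectedSpace P] (h : KMap X f) (hR : Ret P ι W i r) {α β : unitInterval}
    (hab : α < β) {n : ℕ} {G : Fin (n + 2) → X → (ι → ℝ)} (hG : ∀ j, Continuous (G j))
    (hind : ∀ t ∈ Icc α β, IndH W r (f ⁻¹' {t}) G)
    (hdep : ∀ t ∈ Icc α β, ∀ H : X → (ι → ℝ), Continuous H → (∀ x ∈ f ⁻¹' {t}, H x ∈ W) →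
      ∃ j, HS (f ⁻¹' {t}) (fun x => r (H x)) (fun x => r (G j x))) : False := by
  have hαI : α ∈ Icc α β := left_mem_Icc.mpr hab.le
  have hβI : β ∈ Icc α β := right_mem_Icc.mpr hab.le
  have hGW : ∀ j, ∀ x ∈ f ⁻¹' (Icc α β), G j x ∈ W := fun j x hx => (hind (f x) hx).1 j x rfl
  have hfib : ∀ t ∈ Icc α β, ∀ x ∈ f ⁻¹' {t}, x ∈ f ⁻¹' (Icc α β) := by
    intro t ht x hx
    have hx' : f x = t := hx
    change f x ∈ Icc α β
    rw [hx']; exact ht
  obtain ⟨H, hHc, hHW, hHα, hHβ⟩ := barrier_htp h hR hab (hG 0) (hG 1) (hGW 0) (hGW 1)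
  let U1 : Set unitInterval := {t | (∀ x ∈ f ⁻¹' {t}, H x ∈ W) ∧ (∀ x ∈ f ⁻¹' {t}, G 0 x ∈ W) ∧
    HS (f ⁻¹' {t}) (fun x => r (H x)) (fun x => r (G 0 x))}
  let U2 : Set unitInterval := {t | ∃ j, j ≠ 0 ∧ (∀ x ∈ f ⁻¹' {t}, H x ∈ W) ∧
    (∀ x ∈ f ⁻¹' {t}, G j x ∈ W) ∧ HS (f ⁻¹' {t}) (fun x => r (H x)) (fun x => r (G j x))}
  have hU1 : IsOpen U1 := by
    rw [isOpen_iff_mem_nhds]
    rintro t ⟨h1, h2, h3⟩
    filter_upwards [eventually_adm hR h.cont hHc h1, eventually_adm hR h.cont (hG 0) h2,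
      open_htp hR h.cont hHc (hG 0) h1 h2 h3] with s hs1 hs2 hs3
    exact ⟨hs1, hs2, hs3⟩
  have hU2 : IsOpen U2 := by
    rw [isOpen_iff_mem_nhds]
    rintro t ⟨j, hj, h1, h2, h3⟩
    filter_upwards [eventually_adm hR h.cont hHc h1, eventually_adm hR h.cont (hG j) h2,
      open_htp hR h.cont hHc (hG j) h1 h2 h3] with s hs1 hs2 hs3
    exact ⟨j, hj, hs1, hs2, hs3⟩
  have hcov : Icc α β ⊆ U1 ∪ U2 := by
    intro t ht
    have hHt : ∀ x ∈ f ⁻¹' {t}, H x ∈ W := fun x hx => hHW x (hfib t ht x hx)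
    obtain ⟨j, hj⟩ := hdep t ht H hHc hHt
    have hGt : ∀ x ∈ f ⁻¹' {t}, G j x ∈ W := fun x hx => hGW j x (hfib t ht x hx)
    by_cases hj0 : j = 0
    · rw [hj0] at hj hGt
      exact Or.inl ⟨hHt, hGt, hj⟩
    · exact Or.inr ⟨j, hj0, hHt, hGt, hj⟩
  have hadm : ∀ t ∈ Icc α β, ∀ x ∈ f ⁻¹' {t}, H x ∈ W := fun t ht x hx => hHW x (hfib t ht x hx)
  have hadG : ∀ j, ∀ t ∈ Icc α β, ∀ x ∈ f ⁻¹' {t}, G j x ∈ W := fun j t ht x hx =>
    hGW j x (hfib t ht x hx)
  have hα1 : α ∈ U1 := by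
    refine ⟨hadm α hαI, hadG 0 α hαI, ?_⟩
    exact (HS.of_eq (hR.comp_cont (hG 0).continuousOn (hadG 0 α hαI)) hHα).symm
  have hβ2 : β ∈ U2 := by
    refine ⟨1, by simp, hadm β hβI, hadG 1 β hβI, ?_⟩
    exact (HS.of_eq (hR.comp_cont (hG 1).continuousOn (hadG 1 β hβI)) hHβ).symm
  obtain ⟨t, ht, ⟨_, _, h1⟩, ⟨j, hj, _, _, h2⟩⟩ :=
    isPreconnected_Icc (a := α) (b := β) U1 U2 hU1 hU2 hcov ⟨α, hαI, hα1⟩ ⟨β, hβI, hβ2⟩
  exact (hind t ht).2 0 j (Ne.symm hj) (h1.symm.trans h2)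

theorem dep_htp {S : Set X} {n : ℕ} (hdep : ¬ HasClasses ↥S P (n + 1)) {G : Fin n → X → P} {H : X → P}
    (hH : ContinuousOn H S) (hG : ∀ j, ContinuousOn (G j) S) (hind : ∀ j k, j ≠ k → ¬ HS S (G j) (G k)) :
    ∃ j, HS S H (G j) := by
  by_contra hcon
  push Not at hcon
  apply hdep
  refine ⟨Fin.cons (mkS S H hH) (fun j => mkS S (G j) (hG j)), ?_⟩
  intro j k hjk hh
  induction j using Fin.cases with
  | zero =>
    induction k using Fin.cases with
    | zero => exact hjk rfl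
    | succ k => exact hcon k ⟨hH, hG k, hh⟩
  | succ j =>
    induction k using Fin.cases with
    | zero => exact hcon j ⟨hH, hG j, hh.symm⟩
    | succ k => exact hind j k (fun e => hjk (by rw [e])) ⟨hG j, hG k, hh⟩

theorem ind_htp (hR : Ret P ι W i r) {S : Set X} (hS : IsClosed S) {n : ℕ} (hind : HasClasses ↥S P n)
    {D : Set C(X, ι → ℝ)} (hD : Dense D) :
    ∃ G : Fin n → C(X, ι → ℝ), (∀ j, G j ∈ D) ∧ IndH W r S (fun j => (G j : X → (ι → ℝ))) := by
  obtain ⟨g, hg⟩ := hind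
  have := fun j => approx hR hS (g j) hD
  choose G hG1 hG2 hG3 hG4 using this
  refine ⟨G, hG1, hG2, ?_⟩
  rintro j k hjk ⟨h1, h2, h3⟩
  exact hg j k hjk (((hG4 j).trans h3).trans (hG4 k).symm)

/-- The main theorem: if all fibres over the open set `V` admit at most `n + 2` classes of maps to `P`,
then the fibres over `V` with exactly `n + 2` classes form a meagre set. -/
theorem meagre_htp [PathConnectedSpace P] (h : KMap X f) (hP : IsNR P) (V : Set unitInterval)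
    (hV : IsOpen V) (n : ℕ) (hb : ∀ t ∈ V, ¬ HasClasses ↥(f ⁻¹' {t}) P (n + 3)) :
    IsMeagre {t | t ∈ V ∧ HasClasses ↥(f ⁻¹' {t}) P (n + 2)} := by
  obtain ⟨ι, hι, W, i, r, hR⟩ := hP.ret
  obtain ⟨D, hDc, hDd⟩ := exists_countable_dense C(X, ι → ℝ)
  let I : Set (Fin (n + 2) → C(X, ι → ℝ)) := Set.pi univ (fun _ => D)
  have hI : I.Countable := Set.countable_univ_pi (fun _ => hDc)
  refine IsMeagre.mono ?_ (isMeagre_biUnion hI (f := fun G =>
    {t | t ∈ V ∧ IndH W r (f ⁻¹' {t}) (fun j => (G j : X → (ι → ℝ)))}) ?_)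
  · rintro t ⟨ht, hi⟩
    obtain ⟨G, hG1, hG2⟩ := ind_htp hR (isClosed_singleton.preimage h.cont) hi hDd
    exact mem_biUnion (x := G) (fun j _ => hG1 j) ⟨ht, hG2⟩
  · intro G hG
    apply IsNowhereDense.isMeagre
    rw [isNowhereDense_iff_forall_notMem_nhds]
    rintro t ⟨ht, hti⟩ hcl
    have hadm : ∀ᶠ s in 𝓝 t, ∀ j, ∀ x ∈ f ⁻¹' {s}, G j x ∈ W := by
      rw [Filter.eventually_all]
      intro j
      exact eventually_adm hR h.cont (G j).continuous (hti.1 j)
    have hN' : {s | s ∈ V ∧ IndH W r (f ⁻¹' {s}) (fun j => (G j : X → (ι → ℝ)))} ∈ 𝓝 t := by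
      filter_upwards [hcl, hV.mem_nhds ht, hadm] with s hs1 hs2 hs3
      refine ⟨hs2, hs3, ?_⟩
      intro j k hjk hh
      obtain ⟨q, hq1, hq2⟩ := mem_closure_iff_nhds.mp hs1 _
        (open_htp hR h.cont (G j).continuous (G k).continuous (hs3 j) (hs3 k) hh)
      exact hq2.2.2 j k hjk hq1
    obtain ⟨α, β, hab, hsub⟩ := exists_Icc hN'
    refine no_interval_htp h hR hab (fun j => (G j).continuous) (fun s hs => (hsub hs).2) ?_
    intro s hs H hHc hHW
    have hsG := (hsub hs).2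
    exact dep_htp (hb s (hsub hs).1) (hR.comp_cont hHc.continuousOn hHW)
      (fun j => hR.comp_cont (G j).continuous.continuousOn (hsG.1 j)) hsG.2

theorem hasClasses_homeo {K L : Type*} [TopologicalSpace K] [TopologicalSpace L] (e : K ≃ₜ L) {n : ℕ}
    (h : HasClasses L P n) : HasClasses K P n := by
  obtain ⟨g, hg⟩ := h
  refine ⟨fun j => (g j).comp (e : C(K, L)), ?_⟩
  intro j k hjk hh
  apply hg j k hjk
  have h1 := hh.comp (ContinuousMap.Homotopic.refl (e.symm : C(L, K)))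
  have h2 : ∀ j, ((g j).comp (e : C(K, L))).comp (e.symm : C(L, K)) = g j := by
    intro j
    ext x
    simp
  rwa [h2, h2] at h1

theorem hasClasses_mono {K : Type*} [TopologicalSpace K] {n : ℕ} (h : HasClasses K P (n + 1)) :
    HasClasses K P n := by
  obtain ⟨g, hg⟩ := h
  exact ⟨fun j => g j.castSucc, fun j k hjk => hg _ _ (fun e => hjk (Fin.castSucc_injective n e))⟩

end metric

end Pool.Agent.H66.KN
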