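import Pool.Agent.H66.KN.Basic

set_option autoImplicit false

namespace Pool.Agent.H66.KN

open Set Topology TopologicalSpace

/-- The joining property of a space `K`: there are a nonempty closed set `F`, an open set `U` and a
closed set `G ≠ K` with `F ⊆ U ⊆ G` such that every point of `U` lies in a component of `G` which
meets `F`. -/
def Joining (K : Type*) [TopologicalSpace K] : Prop :=
  ∃ F U G : Set K, IsClosed F ∧ IsOpen U ∧ IsClosed G ∧ F.Nonempty ∧ F ⊆ U ∧ U ⊆ G ∧ G ≠ univ ∧
    ∀ x ∈ U, (connectedComponentIn G x ∩ F).Nonempty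

/-- A countable family of open sets which separates closed sets from complements of open sets. -/
theorem exists_family (X : Type*) [TopologicalSpace X] [SecondCountableTopology X] [CompactSpace X]
    [T2Space X] : ∃ O : Set (Set X), O.Countable ∧ (∀ o ∈ O, IsOpen o) ∧
      ∀ C V : Set X, IsClosed C → IsOpen V → C ⊆ V → ∃ o ∈ O, C ⊆ o ∧ closure o ⊆ V := by
  classical
  refine ⟨(fun s : Set (Set X) => ⋃₀ s) '' { s | s.Finite ∧ s ⊆ countableBasis X },
    (Set.countable_ofPred_finite_subset (countable_countableBasis X)).image _, ?_, ?_⟩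
  · rintro _ ⟨s, ⟨_, hs⟩, rfl⟩
    exact isOpen_sUnion (fun t ht => isOpen_of_mem_countableBasis (hs ht))
  · intro C V hC hV hCV
    have key : ∀ x ∈ C, ∃ b ∈ countableBasis X, x ∈ b ∧ closure b ⊆ V := by
      intro x hx
      exact (isBasis_countableBasis X).exists_closure_subset (hV.mem_nhds (hCV hx))
    choose! b hb1 hb2 hb3 using key
    obtain ⟨t, ht1, ht2⟩ := hC.isCompact.elim_nhds_subcover b
      (fun x hx => (isOpen_of_mem_countableBasis (hb1 x hx)).mem_nhds (hb2 x hx))
    refine ⟨⋃₀ (b '' (t : Set X)), ⟨b '' (t : Set X), ⟨t.finite_toSet.image _, ?_⟩, rfl⟩, ?_, ?_⟩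
    · rintro _ ⟨x, hx, rfl⟩
      exact hb1 x (ht1 x hx)
    · intro x hx
      have := ht2 hx
      simp only [mem_iUnion] at this
      obtain ⟨y, hy, hxy⟩ := this
      exact ⟨b y, ⟨y, hy, rfl⟩, hxy⟩
    · have hfin : (b '' (t : Set X)).Finite := t.finite_toSet.image _
      rw [hfin.closure_sUnion]
      intro x hx
      simp only [mem_iUnion] at hx
      obtain ⟨_, ⟨y, hy, rfl⟩, hxy⟩ := hx
      exact hb3 y (ht1 y hy) hxy

theorem exists_Icc {t : unitInterval} {N : Set unitInterval} (hN : N ∈ 𝓝 t) :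
    ∃ α β : unitInterval, α < β ∧ Icc α β ⊆ N := by
  obtain ⟨b, c, hbc, hn, hsub⟩ := exists_Icc_mem_subset_of_mem_nhds hN
  rcases lt_or_eq_of_le (hbc.1.trans hbc.2) with hlt | heq
  · exact ⟨b, c, hlt, hsub⟩
  · exfalso
    have h1 : Icc b c = {t} := by
      rw [heq, Icc_self]
      have : t = c := le_antisymm hbc.2 (heq ▸ hbc.1)
      rw [this]
    rw [h1] at hn
    have h2 : IsOpen ({t} : Set unitInterval) := by
      rw [isOpen_singleton_iff_nhds_eq_pure]
      apply le_antisymm
      · exact Filter.le_pure_iff.mpr hn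
      · exact pure_le_nhds t
    have h3 : ({t} : Set unitInterval) = univ :=
      IsClopen.eq_univ ⟨isClosed_singleton, h2⟩ (singleton_nonempty t)
    have h4 : (0 : unitInterval) ∈ ({t} : Set unitInterval) := by rw [h3]; trivial
    have h5 : (1 : unitInterval) ∈ ({t} : Set unitInterval) := by rw [h3]; trivial
    have h6 : (0 : unitInterval) = 1 := by
      rw [mem_singleton_iff.mp h4, mem_singleton_iff.mp h5]
    exact zero_ne_one h6

variable {X : Type*} [MetricSpace X] [CompactSpace X] {f : X → unitInterval}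

/-- The set of parameters whose fibre has the joining property is meagre. -/
theorem meagre_joining (h : KMap X f) : IsMeagre { t | Joining ↥(f ⁻¹' {t}) } := by
  obtain ⟨O, hOc, hOo, hO⟩ := exists_family X
  let I : Set (Set X × Set X × Set X) :=
    { p | p.1 ∈ O ∧ p.2.1 ∈ O ∧ p.2.2 ∈ O ∧ closure p.1 ⊆ p.2.1 ∧ Disjoint p.2.1 p.2.2 }
  have hIc : I.Countable := by
    refine Set.Countable.mono ?_ (hOc.prod (hOc.prod hOc))
    rintro ⟨p, q, r⟩ hp
    exact ⟨hp.1, hp.2.1, hp.2.2.1⟩
  refine IsMeagre.mono ?_ (isMeagre_biUnion hIc (f := fun p =>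
    TSet f (closure p.1) p.2.1 p.2.2ᶜ ∩ (f '' p.2.1 ∩ f '' p.2.2)) ?_)
  · -- covering
    rintro t ⟨F, U, G, hF, hU, hG, hFne, hFU, hUG, hGne, hj⟩
    have hK : IsClosed (f ⁻¹' {t}) := isClosed_singleton.preimage h.cont
    obtain ⟨V, hV, rfl⟩ := isOpen_induced_iff.mp hU
    have hF' : IsClosed (Subtype.val '' F : Set X) := hK.isClosedEmbedding_subtypeVal.isClosedMap _ hF
    have hG' : IsClosed (Subtype.val '' G : Set X) := hK.isClosedEmbedding_subtypeVal.isClosedMap _ hG
    obtain ⟨z, hz⟩ := (Set.ne_univ_iff_exists_notMem G).mp hGne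
    have hzF : (z : X) ∉ (Subtype.val '' F : Set X) := by
      rintro ⟨y, hy, hyz⟩
      have : y = z := Subtype.ext hyz
      exact hz (hUG (hFU (this ▸ hy)))
    have hzG : (z : X) ∉ (Subtype.val '' G : Set X) := by
      rintro ⟨y, hy, hyz⟩
      have : y = z := Subtype.ext hyz
      exact hz (this ▸ hy)
    obtain ⟨o2, ho2, hFo2, ho2V⟩ := hO (Subtype.val '' F) (V ∩ {(z : X)}ᶜ) hF'
      (hV.inter isClosed_singleton.isOpen_compl) (by
        rintro _ ⟨y, hy, rfl⟩
        exact ⟨hFU hy, fun hyz => hzF ⟨y, hy, hyz⟩⟩)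
    obtain ⟨o1, ho1, hFo1, ho1o2⟩ := hO (Subtype.val '' F) o2 hF' (hOo o2 ho2) hFo2
    obtain ⟨o3, ho3, hzo3, ho3V⟩ := hO {(z : X)} ((Subtype.val '' G) ∪ closure o2)ᶜ
      isClosed_singleton (hG'.union isClosed_closure).isOpen_compl (by
        rintro _ rfl
        rintro (hh | hh)
        · exact hzG hh
        · exact (ho2V hh).2 rfl)
    have hdis : Disjoint o2 o3 := by
      rw [Set.disjoint_left]
      intro y hy2 hy3
      exact ho3V (subset_closure hy3) (Or.inr (subset_closure hy2))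
    refine mem_biUnion (x := (o1, o2, o3)) ⟨ho1, ho2, ho3, ho1o2, hdis⟩ ⟨?_, ?_, ?_⟩
    · rintro x ⟨hxt, hxo2⟩
      have hxU : (⟨x, hxt⟩ : f ⁻¹' {t}) ∈ Subtype.val ⁻¹' V := (ho2V (subset_closure hxo2)).1
      obtain ⟨y, hy, hyF⟩ := hj ⟨x, hxt⟩ hxU
      refine ⟨(y : X), ?_, subset_closure (hFo1 ⟨y, hyF, rfl⟩)⟩
      have hpc : IsPreconnected (Subtype.val '' (connectedComponentIn G (⟨x, hxt⟩ : f ⁻¹' {t})) : Set X) :=
        isPreconnected_connectedComponentIn.image _ continuous_subtype_val.continuousOn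
      refine hpc.subset_connectedComponentIn (x := x) ?_ ?_ ⟨y, hy, rfl⟩
      · exact ⟨⟨x, hxt⟩, mem_connectedComponentIn (hUG hxU), rfl⟩
      · rintro _ ⟨w, hw, rfl⟩
        refine ⟨w.2, fun hw3 => ho3V (subset_closure hw3) (Or.inl ⟨w, connectedComponentIn_subset _ _ hw, rfl⟩)⟩
    · obtain ⟨y, hy⟩ := hFne
      exact ⟨y, hFo2 ⟨y, hy, rfl⟩, y.2⟩
    · exact ⟨z, hzo3 rfl, z.2⟩
  · -- each piece is nowhere dense
    rintro ⟨o1, o2, o3⟩ ⟨ho1, ho2, ho3, h12, h23⟩
    have hTcl : IsClosed (TSet f (closure o1) o2 o3ᶜ) :=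
      TSet_isClosed h isClosed_closure (hOo o2 ho2) (hOo o3 ho3).isClosed_compl h23.subset_compl_right
    apply IsNowhereDense.isMeagre
    rw [isNowhereDense_iff_forall_notMem_nhds]
    rintro t ⟨_, ht2, ht3⟩ hcl
    have hN : TSet f (closure o1) o2 o3ᶜ ∩ (f '' o2 ∩ f '' o3) ∈ 𝓝 t := by
      refine Filter.inter_mem ?_ (Filter.inter_mem ((h.isOpen _ (hOo o2 ho2)).mem_nhds ht2)
        ((h.isOpen _ (hOo o3 ho3)).mem_nhds ht3))
      exact Filter.mem_of_superset hcl (closure_minimal inter_subset_left hTcl)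
    obtain ⟨α, β, hab, hsub⟩ := exists_Icc hN
    refine no_interval h isClosed_closure (hOo o2 ho2) (hOo o3 ho3) h12 h23 hab
      (fun s hs => (hsub hs).1) ?_ ?_
    · obtain ⟨x, hx, hxα⟩ := (hsub (left_mem_Icc.mpr hab.le)).2.1
      exact ⟨x, hxα, hx⟩
    · obtain ⟨γ, hγ1, hγ2⟩ := exists_between hab
      obtain ⟨x, hx, hxγ⟩ := (hsub ⟨hγ1.le, hγ2.le⟩).2.2
      exact ⟨x, by change f x ∈ Ioo α β; rw [hxγ]; exact ⟨hγ1, hγ2⟩, hx⟩

/-- Decomposable continua have the joining property. -/
theorem joining_of_decomposable (K : Type*) [TopologicalSpace K] [T1Space K]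
    (h : ∃ P R : Set K, IsClosed P ∧ IsConnected P ∧ IsClosed R ∧ IsConnected R ∧ P ∪ R = univ ∧
      P ≠ univ ∧ R ≠ univ) : Joining K := by
  obtain ⟨P, R, hP, hPc, hR, _, hPR, hP1, hR1⟩ := h
  obtain ⟨y, hy⟩ := (Set.ne_univ_iff_exists_notMem R).mp hR1
  have hsub : Rᶜ ⊆ P := by
    intro x hx
    have : x ∈ P ∪ R := by rw [hPR]; trivial
    exact this.resolve_right hx
  refine ⟨{y}, Rᶜ, P, isClosed_singleton, hR.isOpen_compl, hP, singleton_nonempty y,
    singleton_subset_iff.mpr hy, hsub, hP1, ?_⟩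
  intro x hx
  exact ⟨y, hPc.isPreconnected.subset_connectedComponentIn (hsub hx) Subset.rfl (hsub hy), rfl⟩

/-- A space with an open subset homeomorphic to `C × Y`, with `C` compact and `Y` noncompact,
locally compact and locally connected, has the joining property. -/
theorem joining_of_product (K : Type*) [TopologicalSpace K] [T2Space K]
    (C Y : Type*) [TopologicalSpace C] [CompactSpace C] [Nonempty C] [TopologicalSpace Y] [T2Space Y]
    [LocallyCompactSpace Y] [LocallyConnectedSpace Y] [NoncompactSpace Y]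
    (e : C × Y → K) (he : IsOpenEmbedding e) : Joining K := by
  obtain ⟨c0⟩ := ‹Nonempty C›
  have hYne : Nonempty Y := by
    by_contra hcon
    rw [not_nonempty_iff] at hcon
    exact noncompact_univ Y (by rw [Set.univ_eq_empty_iff.mpr hcon]; exact isCompact_empty)
  obtain ⟨y0⟩ := hYne
  obtain ⟨N, hN, hyN⟩ := exists_compact_mem_nhds y0
  let V : Set Y := connectedComponentIn (interior N) y0
  have hVo : IsOpen V := isOpen_interior.connectedComponentIn
  have hy0 : y0 ∈ V := mem_connectedComponentIn (mem_interior_iff_mem_nhds.mpr hyN)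
  have hVN : closure V ⊆ N :=
    closure_minimal ((connectedComponentIn_subset _ _).trans interior_subset) hN.isClosed
  have hVc : IsCompact (closure V) := hN.of_isClosed_subset isClosed_closure hVN
  have hVconn : IsPreconnected (closure V) := isPreconnected_connectedComponentIn.closure
  have hV1 : closure V ≠ univ := by
    intro hcon
    exact noncompact_univ Y (hcon ▸ hVc)
  obtain ⟨y1, hy1⟩ := (Set.ne_univ_iff_exists_notMem _).mp hV1
  refine ⟨e '' (univ ×ˢ {y0}), e '' (univ ×ˢ V), e '' (univ ×ˢ closure V), ?_, ?_, ?_, ?_, ?_, ?_, ?_, ?_⟩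
  · exact ((isCompact_univ.prod isCompact_singleton).image he.continuous).isClosed
  · exact he.isOpenMap _ (isOpen_univ.prod hVo)
  · exact ((isCompact_univ.prod hVc).image he.continuous).isClosed
  · exact ⟨e (c0, y0), (c0, y0), ⟨trivial, rfl⟩, rfl⟩
  · apply Set.image_mono
    exact Set.prod_mono_right (singleton_subset_iff.mpr hy0)
  · apply Set.image_mono
    exact Set.prod_mono_right subset_closure
  · rw [Set.ne_univ_iff_exists_notMem]
    refine ⟨e (c0, y1), ?_⟩
    rintro ⟨⟨c, y⟩, ⟨_, hy⟩, heq⟩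
    have := he.injective heq
    rw [Prod.mk.injEq] at this
    exact hy1 (this.2 ▸ hy)
  · rintro _ ⟨⟨c, y⟩, ⟨_, hy⟩, rfl⟩
    refine ⟨e (c, y0), ?_, (c, y0), ⟨trivial, rfl⟩, rfl⟩
    have hpc : IsPreconnected (e '' ({c} ×ˢ closure V)) :=
      (isPreconnected_singleton.prod hVconn).image _ he.continuous.continuousOn
    refine hpc.subset_connectedComponentIn ?_ ?_ ⟨(c, y0), ⟨rfl, subset_closure hy0⟩, rfl⟩
    · exact ⟨(c, y), ⟨rfl, subset_closure hy⟩, rfl⟩
    · apply Set.image_mono
      exact Set.prod_mono_left (subset_univ _)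

/-- The joining property lifts under monotone maps. -/
theorem joining_of_monotone {K L : Type*} [TopologicalSpace K] [CompactSpace K] [TopologicalSpace L]
    [T2Space L] (p : K → L) (hp : Continuous p) (hf : ∀ y, IsConnected (p ⁻¹' {y}))
    (h : Joining L) : Joining K := by
  have hsurj : Function.Surjective p := fun y => (hf y).nonempty
  have hq : IsCoinducing p := (hp.isClosedMap.isQuotientMap hp hsurj).isCoinducing
  obtain ⟨F, U, G, hF, hU, hG, hFne, hFU, hUG, hG1, hj⟩ := h
  refine ⟨p ⁻¹' F, p ⁻¹' U, p ⁻¹' G, hF.preimage hp, hU.preimage hp, hG.preimage hp,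
    hFne.preimage hsurj, preimage_mono hFU, preimage_mono hUG, ?_, ?_⟩
  · intro hcon
    apply hG1
    rw [← Set.image_preimage_eq G hsurj, hcon, Set.image_univ, hsurj.range_eq]
  · intro x hx
    obtain ⟨y, hy, hyF⟩ := hj (p x) hx
    have hc : IsConnected (p ⁻¹' (connectedComponentIn G (p x))) :=
      hq.isConnected_preimage_of_isClosed hf (isClosed_compIn hG _)
        (isConnected_connectedComponentIn_iff.mpr (hUG hx))
    obtain ⟨z, rfl⟩ := hsurj y
    refine ⟨z, hc.isPreconnected.subset_connectedComponentIn (mem_connectedComponentIn (hUG hx)) ?_ hy, hyF⟩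
    exact preimage_mono (connectedComponentIn_subset _ _)

/-- A space homeomorphic to a space with the joining property has it. -/
theorem joining_of_homeomorph {K L : Type*} [TopologicalSpace K] [TopologicalSpace L] (e : K ≃ₜ L)
    (h : Joining L) : Joining K := by
  obtain ⟨F, U, G, hF, hU, hG, hFne, hFU, hUG, hG1, hj⟩ := h
  refine ⟨e ⁻¹' F, e ⁻¹' U, e ⁻¹' G, hF.preimage e.continuous, hU.preimage e.continuous,
    hG.preimage e.continuous, hFne.preimage e.surjective, preimage_mono hFU, preimage_mono hUG, ?_, ?_⟩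
  · intro hcon
    apply hG1
    rw [← Set.image_preimage_eq G e.surjective, hcon, Set.image_univ, e.surjective.range_eq]
  · intro x hx
    obtain ⟨y, hy, hyF⟩ := hj (e x) hx
    have hc : IsPreconnected (e.symm '' (connectedComponentIn G (e x))) :=
      isPreconnected_connectedComponentIn.image _ e.symm.continuous.continuousOn
    refine ⟨e.symm y, hc.subset_connectedComponentIn ?_ ?_ ⟨y, hy, rfl⟩, by simpa using hyF⟩
    · exact ⟨e x, mem_connectedComponentIn (hUG hx), by simp⟩
    · rintro _ ⟨w, hw, rfl⟩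
      have := connectedComponentIn_subset _ _ hw
      simpa using this

end Pool.Agent.H66.KN
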