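import Pool.Agent.H66.KN.Joining

set_option autoImplicit false

namespace Pool.Agent.H66.KN

open Set Topology TopologicalSpace

/-- `h` has a continuous logarithm on `S`. -/
def Ex {X : Type*} [TopologicalSpace X] (S : Set X) (h : X → ℂ) : Prop :=
  ∃ ψ : X → ℂ, ContinuousOn ψ S ∧ ∀ x ∈ S, h x = Complex.exp (ψ x)

/-- the monomial with integer exponents `m` in the functions `G i` -/
noncomputable def mon {X : Type*} {n : ℕ} (G : Fin n → X → ℂ) (m : Fin n → ℤ) (x : X) : ℂ := ∏ i, G i x ^ m i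

section alg

variable {X : Type*} [TopologicalSpace X] {S : Set X}

theorem Ex.congr {h h' : X → ℂ} (H : Ex S h) (e : ∀ x ∈ S, h' x = h x) : Ex S h' := by
  obtain ⟨ψ, h1, h2⟩ := H
  exact ⟨ψ, h1, fun x hx => by rw [e x hx, h2 x hx]⟩

theorem Ex.mul {h h' : X → ℂ} (H : Ex S h) (H' : Ex S h') : Ex S (fun x => h x * h' x) := by
  obtain ⟨ψ, h1, h2⟩ := H
  obtain ⟨ψ', h1', h2'⟩ := H'
  exact ⟨fun x => ψ x + ψ' x, h1.add h1', fun x hx => by
    change h x * h' x = _
    rw [h2 x hx, h2' x hx, Complex.exp_add]⟩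

theorem Ex.zpow {h : X → ℂ} (H : Ex S h) (N : ℤ) : Ex S (fun x => h x ^ N) := by
  obtain ⟨ψ, h1, h2⟩ := H
  exact ⟨fun x => N * ψ x, continuousOn_const.mul h1, fun x hx => by
    change h x ^ N = _
    rw [h2 x hx, Complex.exp_int_mul]⟩

theorem Ex.one : Ex S (fun _ => (1 : ℂ)) := ⟨fun _ => 0, continuousOn_const, fun _ _ => by simp⟩

omit [TopologicalSpace X] in
theorem mon_add {n : ℕ} (G : Fin n → X → ℂ) (m m' : Fin n → ℤ) (x : X) (hx : ∀ i, G i x ≠ 0) :
    mon G (m + m') x = mon G m x * mon G m' x := by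
  unfold mon
  rw [← Finset.prod_mul_distrib]
  refine Finset.prod_congr rfl fun i _ => ?_
  rw [Pi.add_apply, zpow_add₀ (hx i)]

omit [TopologicalSpace X] in
theorem mon_smul {n : ℕ} (G : Fin n → X → ℂ) (m : Fin n → ℤ) (N : ℤ) (x : X) :
    mon G (fun i => m i * N) x = mon G m x ^ N := by
  unfold mon
  rw [← Finset.prod_zpow]
  refine Finset.prod_congr rfl fun i _ => ?_
  rw [zpow_mul]

omit [TopologicalSpace X] in
theorem mon_ne {n : ℕ} (G : Fin n → X → ℂ) (m : Fin n → ℤ) (x : X) (hx : ∀ i, G i x ≠ 0) :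
    mon G m x ≠ 0 := by
  unfold mon
  rw [Finset.prod_ne_zero_iff]
  intro i _
  exact zpow_ne_zero _ (hx i)

omit [TopologicalSpace X] in
theorem mon_single {n : ℕ} (G : Fin n → X → ℂ) (i : Fin n) (N : ℤ) (x : X) :
    mon G (Pi.single i N) x = G i x ^ N := by
  unfold mon
  rw [Finset.prod_eq_single i]
  · simp
  · intro j _ hj
    rw [Pi.single_eq_of_ne hj, zpow_zero]
  · intro h; exact absurd (Finset.mem_univ i) h

omit [TopologicalSpace X] in
theorem mon_cons {n : ℕ} (H : X → ℂ) (G : Fin n → X → ℂ) (m : Fin (n + 1) → ℤ) (x : X) :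
    mon (Fin.cons H G : Fin (n + 1) → X → ℂ) m x = H x ^ m 0 * mon G (fun i => m i.succ) x := by
  unfold mon
  rw [Fin.prod_univ_succ]
  rfl

end alg

variable {X : Type*} [MetricSpace X] [CompactSpace X] {f : X → unitInterval}

/-- openness of relations -/
theorem open_rel (hf : Continuous f) {n : ℕ} {G : Fin n → X → ℂ} (hG : ∀ i, Continuous (G i))
    (m : Fin n → ℤ) {t : unitInterval} (hnv : ∀ i, ∀ x ∈ f ⁻¹' {t}, G i x ≠ 0)
    (h : Ex (f ⁻¹' {t}) (mon G m)) :
    ∀ᶠ s in 𝓝 t, (∀ i, ∀ x ∈ f ⁻¹' {s}, G i x ≠ 0) ∧ Ex (f ⁻¹' {s}) (mon G m) := by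
  obtain ⟨ψ, hψ1, hψ2⟩ := h
  have hK : IsClosed (f ⁻¹' {t}) := isClosed_singleton.preimage hf
  obtain ⟨Ψ, hΨ⟩ := ContinuousMap.exists_restrict_eq hK (⟨_, hψ1.domRestrict⟩ : C(f ⁻¹' {t}, ℂ))
  have hΨ' : ∀ x ∈ f ⁻¹' {t}, Ψ x = ψ x := by
    intro x hx
    exact congrArg (fun g : C(f ⁻¹' {t}, ℂ) => g ⟨x, hx⟩) hΨ
  let O : Set X := ⋂ i, {x | G i x ≠ 0}
  have hO : IsOpen O := isOpen_iInter_of_finite fun i => isOpen_ne_fun (hG i) continuous_const
  have hmemO : ∀ x, x ∈ O ↔ ∀ i, G i x ≠ 0 := by intro x; simp [O]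
  have hmon : ContinuousOn (mon G m) O := by
    unfold mon
    refine continuousOn_finsetProd _ fun i _ => ?_
    exact (hG i).continuousOn.zpow₀ _ (fun x hx => Or.inl ((hmemO x).mp hx i))
  have hq : ContinuousOn (fun x => mon G m x * Complex.exp (-Ψ x)) O :=
    hmon.mul (Complex.continuous_exp.comp Ψ.continuous.neg).continuousOn
  let N : Set X := O ∩ (fun x => mon G m x * Complex.exp (-Ψ x)) ⁻¹' Metric.ball 1 1
  have hN : IsOpen N := hq.isOpen_inter_preimage hO Metric.isOpen_ball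
  have hKN : f ⁻¹' {t} ⊆ N := by
    intro x hx
    refine ⟨(hmemO x).mpr (fun i => hnv i x hx), ?_⟩
    change mon G m x * Complex.exp (-Ψ x) ∈ Metric.ball 1 1
    rw [hψ2 x hx, hΨ' x hx, ← Complex.exp_add]
    simp
  have hev : ∀ᶠ s in 𝓝 t, f ⁻¹' {s} ∩ univ ⊆ N :=
    eventually_fib_subset hf isClosed_univ hN (by rw [inter_univ]; exact hKN)
  filter_upwards [hev] with s hs
  rw [inter_univ] at hs
  refine ⟨fun i x hx => (hmemO x).mp (hs hx).1 i, ?_⟩
  refine ⟨fun x => Ψ x + Complex.log (mon G m x * Complex.exp (-Ψ x)), ?_, ?_⟩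
  · refine Ψ.continuous.continuousOn.add ?_
    refine ContinuousOn.clog (hq.mono (fun x hx => (hs hx).1)) ?_
    intro x hx
    exact Complex.ball_one_subset_slitPlane (hs hx).2
  · intro x hx
    have hne : mon G m x * Complex.exp (-Ψ x) ≠ 0 :=
      mul_ne_zero (mon_ne G m x (fun i => (hmemO x).mp (hs hx).1 i)) (Complex.exp_ne_zero _)
    rw [Complex.exp_add, Complex.exp_log hne, mul_comm, mul_assoc, ← Complex.exp_add]
    simp

/-- The barrier: a nowhere zero function without logarithm on the left fibre can be changed by an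
exponential on the left fibre so as to get a logarithm on the right fibre. -/
theorem barrier (h : KMap X f) {α β : unitInterval} (hab : α < β) {G : X → ℂ} (hG : Continuous G)
    (hnv : ∀ x ∈ f ⁻¹' (Icc α β), G x ≠ 0) :
    ∃ H : X → ℂ, Continuous H ∧ (∀ x ∈ f ⁻¹' (Icc α β), H x ≠ 0) ∧
      Ex (f ⁻¹' {α}) (fun x => H x * (G x)⁻¹) ∧ Ex (f ⁻¹' {β}) H := by
  classical
  obtain ⟨x0, hx0⟩ := h.surj α
  have hαI : α ∈ Icc α β := left_mem_Icc.mpr hab.le
  have hβI : β ∈ Icc α β := right_mem_Icc.mpr hab.le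
  have hc0 : G x0 ≠ 0 := hnv x0 (by change f x0 ∈ Icc α β; rw [hx0]; exact hαI)
  have hq : Continuous (fun x => G x / G x0) := hG.div_const _
  let W : Set X := (fun x => G x / G x0) ⁻¹' Metric.ball 1 (1 / 4)
  let V : Set X := (fun x => G x / G x0) ⁻¹' Metric.closedBall 1 (1 / 4)
  have hW : IsOpen W := Metric.isOpen_ball.preimage hq
  have hV : IsClosed V := Metric.isClosed_closedBall.preimage hq
  have hWV : W ⊆ V := preimage_mono Metric.ball_subset_closedBall
  have hx0W : x0 ∈ W := by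
    change G x0 / G x0 ∈ Metric.ball 1 (1 / 4)
    rw [div_self hc0]; exact Metric.mem_ball_self (by norm_num)
  have hWne : (f ⁻¹' (Ioo α β) ∩ W).Nonempty := by
    have h1 : f '' W ∈ 𝓝 α := by
      have := (h.isOpen _ hW).mem_nhds (show f x0 ∈ f '' W from ⟨x0, hx0W, rfl⟩)
      rwa [hx0] at this
    have h2 : α ∈ closure (Ioo α β) := by
      rw [closure_Ioo hab.ne]; exact hαI
    obtain ⟨s, hs1, hs2⟩ := mem_closure_iff_nhds.mp h2 _ h1
    obtain ⟨x, hx, rfl⟩ := hs1
    exact ⟨x, hs2, hx⟩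
  set M : Set X := f ⁻¹' (Icc α β) ∩ Wᶜ with hM
  have hMcl : IsClosed M := (isClosed_Icc.preimage h.cont).inter hW.isClosed_compl
  obtain ⟨A, B, hA, hB, hAB, hd, hPA, hQB⟩ := cutwire (S := M) (P := f ⁻¹' {α}) (Q := f ⁻¹' {β})
    hMcl (isClosed_singleton.preimage h.cont) (isClosed_singleton.preimage h.cont) (by
      rintro x ⟨hxM, hxα⟩
      rw [Set.disjoint_left]
      intro y hy hyβ
      have hsub := h.cross (C := connectedComponentIn M x) (isClosed_compIn hMcl x)
        (isConnected_connectedComponentIn_iff.mpr hxM) ⟨x, mem_connectedComponentIn hxM, hxα⟩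
        ⟨y, hy, hyβ⟩
      obtain ⟨z, hz1, hz2⟩ := hWne
      exact ((connectedComponentIn_subset M x) (hsub hz1)).2 hz2)
  have hAM : A ⊆ M := by rw [← hAB]; exact subset_union_left
  obtain ⟨lam, hl0, hl1, _⟩ := exists_continuous_zero_one_of_isClosed hB hA hd.symm
  -- the pieces
  have hcover : ∀ x ∈ f ⁻¹' (Icc α β), x ∈ A ∨ x ∈ B ∨ x ∈ V := by
    intro x hx
    by_cases hxW : x ∈ W
    · exact Or.inr (Or.inr (hWV hxW))
    · have : x ∈ A ∪ B := by rw [hAB]; exact ⟨hx, hxW⟩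
      rcases this with h1 | h1
      · exact Or.inl h1
      · exact Or.inr (Or.inl h1)
  have hslit : ∀ x ∈ V, G x / G x0 ∈ Complex.slitPlane := by
    intro x hx
    apply Complex.ball_one_subset_slitPlane
    have : G x / G x0 ∈ Metric.closedBall 1 (1 / 4) := hx
    exact Metric.closedBall_subset_ball (by norm_num) this
  have hqne : ∀ x ∈ V, G x / G x0 ≠ 0 := fun x hx => Complex.slitPlane_ne_zero (hslit x hx)
  have hlogV : ContinuousOn (fun x => Complex.log (G x / G x0)) V :=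
    ContinuousOn.clog hq.continuousOn hslit
  have hlam : Continuous (fun x => ((lam x : ℝ) : ℂ)) := Complex.continuous_ofReal.comp lam.continuous
  let L : X → ℂ := fun x => (lam x : ℂ) * Complex.log (G x / G x0)
  have hLV : ContinuousOn L V := hlam.continuousOn.mul hlogV
  have hLB : ∀ x ∈ B, L x = 0 := by
    intro x hx
    have : lam x = 0 := hl0 hx
    simp [L, this]
  have hLVB : ContinuousOn L (V ∪ B) :=
    hLV.union_of_isClosed ((continuousOn_const (c := (0 : ℂ))).congr hLB) hV hB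
  let H0 : X → ℂ := fun x => if x ∈ A then G x else G x0 * Complex.exp (L x)
  have hH0A : ∀ x ∈ A, H0 x = G x := fun x hx => if_pos hx
  have hH0VB : ∀ x ∈ V ∪ B, H0 x = G x0 * Complex.exp (L x) := by
    intro x hx
    by_cases hxA : x ∈ A
    · rw [hH0A x hxA]
      have hxV : x ∈ V := hx.resolve_right (fun hxB => Set.disjoint_left.mp hd hxA hxB)
      have hl : lam x = 1 := hl1 hxA
      simp only [L, hl, Complex.ofReal_one, one_mul]
      rw [Complex.exp_log (hqne x hxV), mul_div_cancel₀ _ hc0]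
    · exact if_neg hxA
  have hcont0 : ContinuousOn H0 (A ∪ (V ∪ B)) := by
    refine ContinuousOn.union_of_isClosed (hG.continuousOn.congr hH0A) ?_ hA (hV.union hB)
    refine ContinuousOn.congr ?_ hH0VB
    exact continuousOn_const.mul (Complex.continuous_exp.comp_continuousOn hLVB)
  have hsubI : f ⁻¹' (Icc α β) ⊆ A ∪ (V ∪ B) := by
    intro x hx
    rcases hcover x hx with h1 | h1 | h1
    · exact Or.inl h1
    · exact Or.inr (Or.inr h1)
    · exact Or.inr (Or.inl h1)
  have hcontI : ContinuousOn H0 (f ⁻¹' (Icc α β)) := hcont0.mono hsubI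
  have hIcl : IsClosed (f ⁻¹' (Icc α β)) := isClosed_Icc.preimage h.cont
  obtain ⟨H, hH⟩ := ContinuousMap.exists_restrict_eq hIcl (⟨_, hcontI.domRestrict⟩ : C(f ⁻¹' (Icc α β), ℂ))
  have hH' : ∀ x ∈ f ⁻¹' (Icc α β), H x = H0 x := by
    intro x hx
    exact congrArg (fun g : C(f ⁻¹' (Icc α β), ℂ) => g ⟨x, hx⟩) hH
  have hKα : f ⁻¹' {α} ⊆ f ⁻¹' (Icc α β) := preimage_mono (singleton_subset_iff.mpr hαI)
  have hKβ : f ⁻¹' {β} ⊆ f ⁻¹' (Icc α β) := preimage_mono (singleton_subset_iff.mpr hβI)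
  have hKαB : ∀ x ∈ f ⁻¹' {α}, x ∈ A ∪ V := by
    intro x hx
    by_cases hxW : x ∈ W
    · exact Or.inr (hWV hxW)
    · exact Or.inl (hPA ⟨⟨hKα hx, hxW⟩, hx⟩)
  have hKβA : ∀ x ∈ f ⁻¹' {β}, x ∈ V ∪ B := by
    intro x hx
    by_cases hxW : x ∈ W
    · exact Or.inl (hWV hxW)
    · exact Or.inr (hQB ⟨⟨hKβ hx, hxW⟩, hx⟩)
  refine ⟨H, H.continuous, ?_, ?_, ?_⟩
  · intro x hx
    rw [hH' x hx]
    rcases hsubI hx with h1 | h1
    · rw [hH0A x h1]; exact hnv x hx
    · rw [hH0VB x h1]; exact mul_ne_zero hc0 (Complex.exp_ne_zero _)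
  · refine ⟨fun x => ((lam x : ℂ) - 1) * Complex.log (G x / G x0), ?_, ?_⟩
    · have e1 : ContinuousOn (fun x => ((lam x : ℂ) - 1) * Complex.log (G x / G x0)) (A ∪ V) := by
        refine ContinuousOn.union_of_isClosed ?_ ?_ hA hV
        · refine (continuousOn_const (c := (0 : ℂ))).congr ?_
          intro x hx
          have : lam x = 1 := hl1 hx
          simp [this]
        · exact (hlam.sub continuous_const).continuousOn.mul hlogV
      exact e1.mono hKαB
    · intro x hx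
      change H x * (G x)⁻¹ = Complex.exp (((lam x : ℂ) - 1) * Complex.log (G x / G x0))
      rw [hH' x (hKα hx)]
      have hgx : G x ≠ 0 := hnv x (hKα hx)
      rcases hKαB x hx with h1 | h1
      · have hl : lam x = 1 := hl1 h1
        rw [hH0A x h1, mul_inv_cancel₀ hgx, hl]
        simp
      · rw [hH0VB x (Or.inl h1)]
        have e2 : ((lam x : ℂ) - 1) * Complex.log (G x / G x0) = L x - Complex.log (G x / G x0) := by
          simp only [L]; ring
        rw [e2, Complex.exp_sub, Complex.exp_log (hqne x h1)]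
        field_simp
  · have e3 : ContinuousOn (fun x => Complex.log (G x0) + L x) (f ⁻¹' {β}) :=
      continuousOn_const.add (hLVB.mono hKβA)
    refine ⟨fun x => Complex.log (G x0) + L x, e3, ?_⟩
    intro x hx
    rw [hH' x (hKβ hx), hH0VB x (hKβA x hx), Complex.exp_add, Complex.exp_log hc0]

end Pool.Agent.H66.KN
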