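import Pool.Agent.H66.KN.Htp

set_option autoImplicit false

namespace Pool.Agent.H66.KN

open Set Topology

/-- Spheres are retracts of open subsets of Euclidean spaces. -/
theorem isNR_sphere (n : ℕ) : IsNR ↥(Metric.sphere (0 : EuclideanSpace ℝ (Fin (n + 2))) 1) := by
  let toE : (Fin (n + 2) → ℝ) → EuclideanSpace ℝ (Fin (n + 2)) := fun v => WithLp.toLp 2 v
  have htoE : Continuous toE := PiLp.continuous_toLp 2 _
  refine ⟨Fin (n + 2), inferInstance, {v | toE v ≠ 0},
    ⟨fun x => ⟨WithLp.ofLp x.1, ?_⟩, ?_⟩, ⟨fun v => ⟨‖toE v.1‖⁻¹ • toE v.1, ?_⟩, ?_⟩, ?_, ?_⟩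
  · change toE (WithLp.ofLp x.1) ≠ 0
    intro h
    have h1 : toE (WithLp.ofLp x.1) = x.1 := rfl
    rw [h1] at h
    have h2 := x.2
    rw [mem_sphere_zero_iff_norm, h, norm_zero] at h2
    exact zero_ne_one h2
  · exact Continuous.subtype_mk ((PiLp.continuous_ofLp 2 _).comp continuous_subtype_val) _
  · rw [mem_sphere_zero_iff_norm, norm_smul, norm_inv, norm_norm]
    exact inv_mul_cancel₀ (norm_ne_zero_iff.mpr v.2)
  · refine Continuous.subtype_mk ?_ _
    have h1 : Continuous (fun v : {v | toE v ≠ 0} => toE v.1) := htoE.comp continuous_subtype_val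
    exact (h1.norm.inv₀ (fun v => norm_ne_zero_iff.mpr v.2)).smul h1
  · exact isOpen_ne_fun htoE continuous_const
  · intro x
    apply Subtype.ext
    change ‖toE (WithLp.ofLp x.1)‖⁻¹ • toE (WithLp.ofLp x.1) = x.1
    have h1 : toE (WithLp.ofLp x.1) = x.1 := rfl
    have h2 : ‖x.1‖ = 1 := mem_sphere_zero_iff_norm.mp x.2
    rw [h1, h2, inv_one, one_smul]

theorem path_sphere (n : ℕ) :
    PathConnectedSpace ↥(Metric.sphere (0 : EuclideanSpace ℝ (Fin (n + 2))) 1) := by
  rw [← isPathConnected_iff_pathConnectedSpace]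
  refine isPathConnected_sphere ?_ 0 zero_le_one
  rw [← Module.finrank_eq_rank, finrank_euclideanSpace_fin]
  exact_mod_cast (by omega : 1 < n + 2)

end Pool.Agent.H66.KN
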